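import Pool.Agent.H67.LC.Tree

set_option autoImplicit false

namespace Pool.H67.LC

open Real

noncomputable section

/-- The distance ratio metric. -/
def jd (d a b : ℝ) : ℝ := Real.log (1 + d / min a b)

theorem jd_nonneg {d a b : ℝ} (hd : 0 ≤ d) (ha : 0 < a) (hb : 0 < b) : 0 ≤ jd d a b := by
  unfold jd
  apply Real.log_nonneg
  have : 0 < min a b := lt_min ha hb
  have : 0 ≤ d / min a b := by positivity
  linarith

theorem jd_comm (d a b : ℝ) : jd d a b = jd d b a := by unfold jd; rw [min_comm]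

theorem jd_mono {d d' a b : ℝ} (hd : 0 ≤ d) (h : d ≤ d') (ha : 0 < a) (hb : 0 < b) :
    jd d a b ≤ jd d' a b := by
  unfold jd
  have h0 : 0 < min a b := lt_min ha hb
  apply Real.log_le_log
  · have : 0 ≤ d / min a b := by positivity
    linarith
  · have : d / min a b ≤ d' / min a b := div_le_div_of_nonneg_right h h0.le
    linarith

theorem jd_le {d a b : ℝ} (hd : 0 ≤ d) (ha : 0 < a) (hb : 0 < b) :
    jd d a b ≤ d / min a b := by
  unfold jd
  have h0 : 0 < min a b := lt_min ha hb
  have h1 : 0 ≤ d / min a b := by positivity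
  have := Real.log_le_sub_one_of_pos (show 0 < 1 + d / min a b by linarith)
  linarith

theorem le_of_jd_le {d a b t : ℝ} (hd : 0 ≤ d) (ha : 0 < a) (hb : 0 < b) (h : jd d a b ≤ t) :
    d ≤ min a b * (Real.exp t - 1) := by
  unfold jd at h
  have h0 : 0 < min a b := lt_min ha hb
  have h1 : 0 ≤ d / min a b := by positivity
  have h2 : 1 + d / min a b ≤ Real.exp t := by
    rw [← Real.log_le_iff_le_exp (by linarith)]; exact h
  have h3 : d / min a b ≤ Real.exp t - 1 := by linarith
  rw [div_le_iff₀ h0] at h3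
  linarith

theorem abs_log_sub_le_jd {d a b : ℝ} (ha : 0 < a) (hb : 0 < b) (h : |a - b| ≤ d) :
    |Real.log a - Real.log b| ≤ jd d a b := by
  have hd : 0 ≤ d := (abs_nonneg _).trans h
  have h0 : 0 < min a b := lt_min ha hb
  have h1 : 0 ≤ d / min a b := by positivity
  have h2 := abs_le.1 h
  unfold jd
  rw [abs_le]
  constructor
  · -- log b - log a ≤ log(1+d/min)
    have : Real.log b ≤ Real.log ((1 + d / min a b) * a) := by
      apply Real.log_le_log hb
      have h3 : min a b ≤ a := min_le_left _ _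
      have h4 : d ≤ d / min a b * a := by
        rw [div_mul_eq_mul_div, le_div_iff₀ h0]
        exact mul_le_mul_of_nonneg_left h3 hd
      linarith [h2.1]
    rw [Real.log_mul (by linarith) ha.ne'] at this
    linarith
  · have : Real.log a ≤ Real.log ((1 + d / min a b) * b) := by
      apply Real.log_le_log ha
      have h3 : min a b ≤ b := min_le_right _ _
      have h4 : d ≤ d / min a b * b := by
        rw [div_mul_eq_mul_div, le_div_iff₀ h0]
        exact mul_le_mul_of_nonneg_left h3 hd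
      linarith [h2.2]
    rw [Real.log_mul (by linarith) hb.ne'] at this
    linarith

theorem jd_tri {d1 d2 d3 a b c : ℝ} (ha : 0 < a) (hb : 0 < b) (hc : 0 < c)
    (h1 : |a - b| ≤ d1) (h2 : |b - c| ≤ d2) (h3 : d3 ≤ d1 + d2) (h30 : 0 ≤ d3) :
    jd d3 a c ≤ jd d1 a b + jd d2 b c := by
  -- wlog a ≤ c
  have main : ∀ a c d1 d2 : ℝ, 0 < a → 0 < c → |a - b| ≤ d1 → |b - c| ≤ d2 → d3 ≤ d1 + d2 →
      a ≤ c → jd d3 a c ≤ jd d1 a b + jd d2 b c := by
    intro a c d1 d2 ha hc h1 h2 h3 hac
    have hd1 : 0 ≤ d1 := (abs_nonneg _).trans h1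
    have hd2 : 0 ≤ d2 := (abs_nonneg _).trans h2
    unfold jd
    rw [min_eq_left hac]
    rw [← Real.log_mul (by have := lt_min ha hb; positivity) (by have := lt_min hb hc; positivity)]
    apply Real.log_le_log (by positivity)
    rcases le_total a b with hab | hab
    · rw [min_eq_left hab]
      have h4 : min b c ≤ a + d1 := by
        have := abs_le.1 h1
        exact (min_le_left _ _).trans (by linarith [this.1])
      have h5 : 0 < min b c := lt_min hb hc
      have h6 : 1 + d2 / (a + d1) ≤ 1 + d2 / min b c := by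
        have := div_le_div_of_nonneg_left hd2 h5 h4
        linarith
      have h7 : (1 + d1 / a) * (1 + d2 / (a + d1)) = 1 + (d1 + d2) / a := by
        field_simp
        ring
      have h8 : (1 + d1 / a) * (1 + d2 / (a + d1)) ≤ (1 + d1 / a) * (1 + d2 / min b c) := by
        apply mul_le_mul_of_nonneg_left h6
        positivity
      have h9 : d3 / a ≤ (d1 + d2) / a := div_le_div_of_nonneg_right h3 ha.le
      linarith
    · rw [min_eq_right hab, min_eq_left (hab.trans hac)]
      have h4 : d3 / a ≤ d3 / b := div_le_div_of_nonneg_left h30 hb hab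
      have h5 : d3 / b ≤ (d1 + d2) / b := div_le_div_of_nonneg_right h3 hb.le
      have h6 : (1 + d1 / b) * (1 + d2 / b) = 1 + (d1 + d2) / b + (d1 / b) * (d2 / b) := by
        field_simp
        ring
      have h7 : 0 ≤ (d1 / b) * (d2 / b) := by positivity
      rw [h6]; linarith
  rcases le_total a c with hac | hac
  · exact main a c d1 d2 ha hc h1 h2 h3 hac
  · have := main c a d2 d1 hc ha (by rw [abs_sub_comm]; exact h2) (by rw [abs_sub_comm]; exact h1)
      (by linarith) hac
    rw [jd_comm d3 a c, jd_comm d1 a b, jd_comm d2 b c]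
    linarith

/-- The Busemann-like function of the half strip. -/
def rr (p w : ℝ) : ℝ := Real.log w - Real.log (1 + (w - p) ^ 2) / 2

theorem rr_le_log (p w : ℝ) : rr p w ≤ Real.log w := by
  unfold rr
  have : 0 ≤ Real.log (1 + (w - p) ^ 2) := Real.log_nonneg (by nlinarith [sq_nonneg (w - p)])
  linarith

theorem rr_top {p : ℝ} (hp : 1 ≤ p) : rr p (wp p) = T p := by
  have hp0 : 0 < p := by linarith
  unfold rr T
  rw [wp_eq hp]
  have e1 : 1 + ((p ^ 2 + 1) / p - p) ^ 2 = (p ^ 2 + 1) / p ^ 2 := by field_simp; ring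
  rw [e1, Real.log_div (by positivity) (by positivity), Real.log_div (by positivity) (by positivity),
    Real.log_pow]
  push_cast; ring

theorem rr_lane (p : ℝ) : rr p p = Real.log p := by unfold rr; simp

theorem log_one_add_sq_sub {h x : ℝ} (hx : 0 ≤ x) (hxh : x ≤ h) (h1 : h ≤ 1) :
    Real.log (1 + h ^ 2) - Real.log (1 + (h - x) ^ 2) ≤ 2 * (x * h / (1 + h ^ 2)) := by
  have hh : 0 ≤ h := hx.trans hxh
  set A := 1 + h ^ 2 with hA
  have hA0 : 0 < A := by positivity
  set z := x * h / A with hz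
  have hz0 : 0 ≤ z := by positivity
  have hzA : A * z = x * h := by rw [hz]; field_simp
  have h2 : 1 + 2 * z + (2 * z) ^ 2 / 2 ≤ Real.exp (2 * z) := by
    have := Real.quadratic_le_exp_of_nonneg (show 0 ≤ 2 * z by linarith)
    linarith
  have h3 : A ≤ (1 + (h - x) ^ 2) * Real.exp (2 * z) := by
    have e0 : 0 < 1 + (h - x) ^ 2 := by positivity
    have e1 : (1 + (h - x) ^ 2) = A - 2 * (h * x) + x ^ 2 := by rw [hA]; ring
    have e2 : A ≤ (1 + (h - x) ^ 2) * (1 + 2 * z + (2 * z) ^ 2 / 2) := by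
      have e3 : (1 + (h - x) ^ 2) * (1 + 2 * z + (2 * z) ^ 2 / 2) =
          A + x ^ 2 * (1 + 2 * z + 2 * z ^ 2) + 2 * (A * z) + 2 * (A * z) * z
            - 2 * (h * x) - 4 * (h * x) * z - 4 * (h * x) * z ^ 2 := by rw [e1]; ring
      rw [e3, hzA]
      -- remaining : x²(1+2z+2z²) - 2 x h z - 4 x h z² ≥ 0
      have e4 : x * h * z = x ^ 2 * (h ^ 2 / A) := by rw [hz]; field_simp
      have e5 : h ^ 2 / A ≤ 1 / 2 := by
        rw [div_le_div_iff₀ hA0 (by norm_num)]
        nlinarith
      have e6 : x * h * z ≤ x ^ 2 * (1 / 2) := by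
        rw [e4]; exact mul_le_mul_of_nonneg_left e5 (sq_nonneg x)
      nlinarith [mul_nonneg hz0 (sq_nonneg x), mul_le_mul_of_nonneg_right e6 hz0,
        mul_nonneg (sq_nonneg z) (sq_nonneg x)]
    nlinarith
  have h4 := Real.log_le_log hA0 h3
  rw [Real.log_mul (by positivity) (Real.exp_pos _).ne', Real.log_exp] at h4
  linarith

/-- `rr` along a descending diagonal move. -/
theorem rr_move {p w q a : ℝ} (hp : 1 ≤ p) (hw : p ≤ w) (hr : p * (w - p) ≤ 1)
    (hq : 1 ≤ q) (hw' : q ≤ w - a) (ha : 0 ≤ a) (hpq : |p - q| ≤ a) :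
    |rr p w - rr q (w - a)| ≤ a / (w - a) := by
  have hpq' := abs_le.1 hpq
  have hp0 : 0 < p := by linarith
  have hw0 : 0 < w := by linarith
  have hwa : 0 < w - a := by linarith
  set h := w - p with hh
  have h0 : 0 ≤ h := by linarith
  have h1 : h ≤ 1 := by nlinarith
  have hx : w - a - q = h - (a + q - p) := by rw [hh]; ring
  have x0 : 0 ≤ a + q - p := by linarith [hpq'.2]
  have x1 : a + q - p ≤ 2 * a := by linarith [hpq'.1]
  have x2 : a + q - p ≤ h := by linarith
  unfold rr
  rw [hx]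
  have k1 : Real.log (1 + (h - (a + q - p)) ^ 2) ≤ Real.log (1 + h ^ 2) := by
    apply Real.log_le_log (by positivity)
    nlinarith
  have k2 := log_one_add_sq_sub x0 x2 h1
  have k3 : (a + q - p) * h / (1 + h ^ 2) ≤ 2 * a / w := by
    rw [div_le_div_iff₀ (by positivity) hw0]
    have k4 : h * w ≤ 1 + h ^ 2 := by
      have : h * w = h * p + h ^ 2 := by rw [hh]; ring
      nlinarith
    calc (a + q - p) * h * w = (a + q - p) * (h * w) := by ring
      _ ≤ 2 * a * (1 + h ^ 2) := by
        apply mul_le_mul x1 k4 (by positivity) (by linarith)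
  have k5 : a / w ≤ Real.log w - Real.log (w - a) := by
    rw [← Real.log_div hw0.ne' hwa.ne']
    have := Real.one_sub_inv_le_log_of_pos (show 0 < w / (w - a) by positivity)
    rw [inv_div] at this
    have e : a / w = 1 - (w - a) / w := by field_simp; ring
    rw [e]; exact this
  have k6 : Real.log w - Real.log (w - a) ≤ a / (w - a) := by
    rw [← Real.log_div hw0.ne' hwa.ne']
    have := Real.log_le_sub_one_of_pos (show 0 < w / (w - a) by positivity)
    have e : a / (w - a) = w / (w - a) - 1 := by field_simp; ring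
    rw [e]; exact this
  have k7 : a / w ≤ a / (w - a) := div_le_div_of_nonneg_left ha hwa (by linarith)
  rw [abs_le]
  constructor
  · have : 2 * ((a + q - p) * h / (1 + h ^ 2)) ≤ 2 * (2 * a / w) := by linarith
    have e : 2 * a / w = 2 * (a / w) := by ring
    rw [e] at this
    linarith
  · linarith

theorem log_sq_lip (h k : ℝ) : |Real.log (1 + h ^ 2) - Real.log (1 + k ^ 2)| ≤ 2 * |h - k| := by
  have key : ∀ h k : ℝ, Real.log (1 + h ^ 2) - Real.log (1 + k ^ 2) ≤ 2 * |h - k| := by
    intro h k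
    set x := |h - k| with hx
    have hx0 : 0 ≤ x := abs_nonneg _
    have h2 : 1 + 2 * x + (2 * x) ^ 2 / 2 ≤ Real.exp (2 * x) := by
      have := Real.quadratic_le_exp_of_nonneg (show 0 ≤ 2 * x by linarith)
      linarith
    have h3 : 1 + h ^ 2 ≤ (1 + k ^ 2) * Real.exp (2 * x) := by
      have e1 : |h| ≤ |k| + x := by
        have := abs_sub_abs_le_abs_sub h k
        linarith
      have e2 : h ^ 2 ≤ (|k| + x) ^ 2 := by
        rw [← sq_abs h]
        exact pow_le_pow_left₀ (abs_nonneg h) e1 2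
      have e3 : 1 + h ^ 2 ≤ (1 + k ^ 2) * (1 + 2 * x + (2 * x) ^ 2 / 2) := by
        rw [← sq_abs k]
        have e4 := abs_nonneg k
        have e5 : 0 ≤ 1 + |k| ^ 2 - |k| := by nlinarith
        nlinarith [mul_nonneg hx0 e5, mul_nonneg (sq_nonneg x) (sq_nonneg |k|)]
      have e0 : 0 < 1 + k ^ 2 := by positivity
      nlinarith
    have h4 := Real.log_le_log (by positivity) h3
    rw [Real.log_mul (by positivity) (Real.exp_pos _).ne', Real.log_exp] at h4
    linarith
  rw [abs_le]
  constructor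
  · have := key k h
    rw [abs_sub_comm] at this
    linarith
  · exact key h k

theorem rr_mod {p w q v d : ℝ} (hw : 1 ≤ w) (hv : 1 ≤ v) (h1 : |p - q| ≤ d) (h2 : |w - v| ≤ d) :
    |rr p w - rr q v| ≤ 3 * d := by
  have hd : 0 ≤ d := (abs_nonneg _).trans h1
  unfold rr
  have e1 := abs_log_sub_le_jd (show (0:ℝ) < w by linarith) (show (0:ℝ) < v by linarith) h2
  have e2 := jd_le hd (show (0:ℝ) < w by linarith) (show (0:ℝ) < v by linarith)
  have e3 : d / min w v ≤ d := by
    apply div_le_self hd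
    exact le_min hw hv
  have e4 := log_sq_lip (w - p) (v - q)
  have e5 : |w - p - (v - q)| ≤ 2 * d := by
    rw [show w - p - (v - q) = (w - v) + -(p - q) by ring]
    refine (abs_add_le _ _).trans ?_
    rw [abs_neg]; linarith
  have e6 : Real.log w - Real.log (1 + (w - p) ^ 2) / 2 - (Real.log v - Real.log (1 + (v - q) ^ 2) / 2)
      = (Real.log w - Real.log v) + -((Real.log (1 + (w - p) ^ 2) - Real.log (1 + (v - q) ^ 2)) / 2) := by
    ring
  rw [e6]
  refine (abs_add_le _ _).trans ?_
  rw [abs_neg, abs_div, abs_of_pos (show (0:ℝ) < 2 by norm_num)]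
  linarith

/-- `rr` on the root fibre. -/
theorem rr_root {w v : ℝ} (hw : 1 ≤ w) (hv : 1 ≤ v) (hw2 : w ≤ 2) (hv2 : v ≤ 2) :
    |rr 1 w - rr 1 v| ≤ |Real.log w - Real.log v| := by
  have key : ∀ w v : ℝ, 1 ≤ w → w ≤ v → v ≤ 2 →
      |rr 1 w - rr 1 v| ≤ |Real.log w - Real.log v| := by
    intro w v hw hwv hv
    have hw0 : 0 < w := by linarith
    have hv0 : 0 < v := by linarith
    have e1 : Real.log w ≤ Real.log v := Real.log_le_log hw0 hwv
    have e2 : Real.log (1 + (w - 1) ^ 2) ≤ Real.log (1 + (v - 1) ^ 2) := by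
      apply Real.log_le_log (by positivity); nlinarith
    have e3 : rr 1 w ≤ rr 1 v := by
      -- w²(1+(v-1)²) ≤ v²(1+(w-1)²)
      have e4 : w ^ 2 * (1 + (v - 1) ^ 2) ≤ v ^ 2 * (1 + (w - 1) ^ 2) := by
        have e5 : v ^ 2 * (1 + (w - 1) ^ 2) - w ^ 2 * (1 + (v - 1) ^ 2) =
          2 * ((v - w) * (v + w - v * w)) := by ring
        have e6 : 0 ≤ v + w - v * w := by nlinarith
        have e7 : 0 ≤ (v - w) * (v + w - v * w) := mul_nonneg (by linarith) e6
        linarith
      have e5 := Real.log_le_log (by positivity) e4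
      rw [Real.log_mul (by positivity) (by positivity), Real.log_mul (by positivity) (by positivity),
        Real.log_pow, Real.log_pow] at e5
      unfold rr
      push_cast at e5
      linarith
    rw [abs_of_nonpos (by linarith), abs_of_nonpos (by linarith)]
    unfold rr at e3 ⊢
    linarith
  rcases le_total w v with h | h
  · exact key w v hw h hv2
  · rw [abs_sub_comm, abs_sub_comm (Real.log w)]
    exact key v w hv h hw2

/-- Lead implies a speed ratio. -/
theorem ratio {p w q lam : ℝ} (hp : 1 ≤ p) (hw : p ≤ w) (hr : p * (w - p) ≤ 1) (hq : 1 ≤ q)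
    (hqp : q ≤ p) (h : rr p w ≤ T q - lam) : w ≤ Real.exp (-lam) * wp q := by
  have hp0 : 0 < p := by linarith
  have hq0 : 0 < q := by linarith
  have hw0 : 0 < w := by linarith
  have hh : w - p ≤ 1 / q := by
    rw [le_div_iff₀ hq0]
    nlinarith
  have h2 : (w - p) ^ 2 ≤ (1 / q) ^ 2 := pow_le_pow_left₀ (by linarith) hh 2
  have h3 : Real.log (1 + (w - p) ^ 2) ≤ Real.log (1 + (1 / q) ^ 2) := by
    apply Real.log_le_log (by positivity); linarith
  have h4 : Real.log (1 + (1 / q) ^ 2) = Real.log (q ^ 2 + 1) - 2 * Real.log q := by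
    have : 1 + (1 / q) ^ 2 = (q ^ 2 + 1) / q ^ 2 := by field_simp
    rw [this, Real.log_div (by positivity) (by positivity), Real.log_pow]
    push_cast; ring
  have h5 : Real.log (wp q) = Real.log (q ^ 2 + 1) - Real.log q := by
    rw [wp_eq hq, Real.log_div (by positivity) hq0.ne']
  unfold rr T at h
  have h6 : Real.log w ≤ -lam + Real.log (wp q) := by rw [h5]; linarith
  have hwq : 0 < wp q := by linarith [two_le_wp hq]
  calc w = Real.exp (Real.log w) := (Real.exp_log hw0).symm
    _ ≤ Real.exp (-lam + Real.log (wp q)) := Real.exp_le_exp.2 h6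
    _ = Real.exp (-lam) * wp q := by rw [Real.exp_add, Real.exp_log hwq]

/-- Core inequality for the early Busemann functions. -/
theorem R_core {w v b c m : ℝ} (hw1 : 1 ≤ w) (hw : w ≤ 3 / 2) (hv1 : 1 ≤ v)
    (hb : b ≤ w) (hc : c ≤ v) (hc2 : v - c ≤ 1)
    (h1 : |b - c| ≤ m) (h2 : |w - v| ≤ m) :
    w ^ 2 * (1 + (v - c) ^ 2) ≤ (v + m) ^ 2 * (1 + (w - b) ^ 2) := by
  have hm : 0 ≤ m := (abs_nonneg _).trans h1
  have h1' := abs_le.1 h1
  have h2' := abs_le.1 h2
  set h := w - b with hh
  set k := v - c with hk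
  have h0 : 0 ≤ h := by linarith
  have k0 : 0 ≤ k := by linarith
  rcases le_total k h with hkh | hkh
  · have e1 : w ^ 2 ≤ (v + m) ^ 2 := by
      apply pow_le_pow_left₀ (by linarith); linarith
    have e2 : 1 + k ^ 2 ≤ 1 + h ^ 2 := by nlinarith
    exact mul_le_mul e1 e2 (by positivity) (by positivity)
  · -- a = k - h ≥ 0
    obtain ⟨a, ha⟩ : ∃ a, a = k - h := ⟨_, rfl⟩
    have ha0 : 0 ≤ a := by linarith
    have ek : k = h + a := by linarith
    have e1 : w + a ≤ v + m := by
      have : v - w = k + c - h - b := by rw [hk, hh]; ring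
      linarith [h1'.1, h1'.2]
    have e2 : (w + a) ^ 2 ≤ (v + m) ^ 2 := by
      apply pow_le_pow_left₀ (by linarith) e1
    have e3 : w ^ 2 * (1 + k ^ 2) ≤ (w + a) ^ 2 * (1 + h ^ 2) := by
      rw [ek]
      have hle : h + a ≤ 1 := by linarith
      have e4 : (w + a) ^ 2 * (1 + h ^ 2) - w ^ 2 * (1 + (h + a) ^ 2) =
        a * (2 * w * (1 + h ^ 2 - w * h) + a * (1 + h ^ 2 - w ^ 2)) := by ring
      have e5 : 0.4375 ≤ 1 + h ^ 2 - w * h := by nlinarith [sq_nonneg (h - 3 / 4)]
      have e6 : -(w ^ 2 - 1) ≤ a * (1 + h ^ 2 - w ^ 2) := by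
        have : 0 ≤ w ^ 2 - 1 := by nlinarith
        nlinarith [sq_nonneg h, mul_nonneg ha0 (sq_nonneg h)]
      have e7 : 0 ≤ 2 * w * (1 + h ^ 2 - w * h) + a * (1 + h ^ 2 - w ^ 2) := by
        nlinarith
      have e8 := mul_nonneg ha0 e7
      linarith
    have e9 : (w + a) ^ 2 * (1 + h ^ 2) ≤ (v + m) ^ 2 * (1 + h ^ 2) :=
      mul_le_mul_of_nonneg_right e2 (by positivity)
    linarith

/-- The early Busemann functions. -/
def R (m k : ℕ) (p w : ℝ) : ℝ := Real.log w - Real.log (1 + (w - B m k p) ^ 2) / 2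

theorem R_self (k : ℕ) (p w : ℝ) : R k k p w = rr p w := by unfold R rr; rw [B_self]

theorem R_le_rr (m k : ℕ) {p w : ℝ} (hw : p ≤ w) : R m k p w ≤ rr p w := by
  unfold R rr
  have h1 := B_le m k p
  have : Real.log (1 + (w - p) ^ 2) ≤ Real.log (1 + (w - B m k p) ^ 2) := by
    apply Real.log_le_log (by positivity)
    have : (w - p) ^ 2 ≤ (w - B m k p) ^ 2 := pow_le_pow_left₀ (by linarith) (by linarith) 2
    linarith
  linarith

theorem R_lip (m : ℕ) {k l : ℕ} {p w q v : ℝ} (hp : 1 ≤ p) (hpw : p ≤ w) (hw : w ≤ 3 / 2)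
    (hq : 1 ≤ q) (hqv : q ≤ v) (hv : v ≤ 3 / 2) :
    R m k p w - R m l q v ≤ jd (max (D k p l q) |w - v|) w v := by
  have hm1 : |B m k p - B m l q| ≤ max (D k p l q) |w - v| :=
    (B_lip m k p l q).trans (le_max_left _ _)
  have hm2 : |w - v| ≤ max (D k p l q) |w - v| := le_max_right _ _
  set d := max (D k p l q) |w - v| with hd
  have hd0 : 0 ≤ d := (abs_nonneg _).trans hm2
  have hw0 : 0 < w := by linarith
  have hv0 : 0 < v := by linarith
  have core := R_core (w := w) (v := v) (b := B m k p) (c := B m l q) (m := d) (by linarith) hw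
    (by linarith) ((B_le m k p).trans hpw) ((B_le m l q).trans hqv)
    (by have := le_B (m := m) (k := l) hq; linarith) hm1 hm2
  have h1 := Real.log_le_log (by positivity) core
  rw [Real.log_mul (by positivity) (by positivity), Real.log_mul (by positivity) (by positivity),
    Real.log_pow, Real.log_pow] at h1
  push_cast at h1
  have h2 : Real.log (v + d) = Real.log v + Real.log (1 + d / v) := by
    rw [← Real.log_mul hv0.ne' (by positivity)]
    congr 1; field_simp
  have h3 : Real.log (1 + d / v) ≤ jd d w v := by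
    unfold jd
    apply Real.log_le_log (by positivity)
    have : d / v ≤ d / min w v :=
      div_le_div_of_nonneg_left hd0 (lt_min hw0 hv0) (min_le_right _ _)
    linarith
  unfold R
  linarith

end

end Pool.H67.LC
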