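import Mathlib

set_option autoImplicit false

namespace Pool.H67.LC

open Real

noncomputable section

/-- Travel time along the top edge: `T p = log (p^2+1) / 2`. -/
def T (p : ℝ) : ℝ := Real.log (p ^ 2 + 1) / 2

/-- The top edge of the half strip. -/
def wp (p : ℝ) : ℝ := p + 1 / p

/-- Inverse of `T` on the positive half line. -/
def Ti (t : ℝ) : ℝ := Real.sqrt (Real.exp (2 * t) - 1)

/-- Length of the main road. -/
def tau : ℝ := T 1

/-- The scale sequence. -/
def eps : ℕ → ℝ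
  | 0 => 1 / 1000
  | n + 1 => eps n ^ 2 / 32

/-- Branching heights. -/
def bt (n : ℕ) : ℝ := 1 + eps n

/-- Exit times of the main road. -/
def ex_t (n : ℕ) : ℝ := Real.log (1 + eps n / 2)

/-- Landing heights of the shortcuts. -/
def ld (n : ℕ) : ℝ := 1 + 2 * eps (n + 1)

/-- Bonus of the shortcuts. -/
def bo (n : ℕ) : ℝ := eps (n + 1) / 8

/-- Length of the shortcuts. -/
def len (n : ℕ) : ℝ := if n = 0 then tau else T (ld n) - ex_t n - bo n

theorem eps_pos (n : ℕ) : 0 < eps n := by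
  induction n with
  | zero => norm_num [eps]
  | succ n ih => simp only [eps]; positivity

theorem eps_le (n : ℕ) : eps n ≤ 1 / 1000 := by
  induction n with
  | zero => norm_num [eps]
  | succ n ih =>
    simp only [eps]
    have := eps_pos n
    nlinarith

theorem eps_succ (n : ℕ) : eps (n + 1) = eps n ^ 2 / 32 := rfl

theorem eps_succ_le (n : ℕ) : eps (n + 1) ≤ eps n / 32000 := by
  rw [eps_succ]
  have := eps_pos n
  have := eps_le n
  nlinarith

theorem eps_anti {m n : ℕ} (h : m ≤ n) : eps n ≤ eps m := by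
  induction n, h using Nat.le_induction with
  | base => exact le_rfl
  | succ n _ ih =>
    have := eps_succ_le n
    have := eps_pos n
    linarith

theorem eps_le_pow (n : ℕ) : eps n ≤ (1 / 1000) ^ (n + 1) := by
  induction n with
  | zero => norm_num [eps]
  | succ n ih =>
    have h1 := eps_succ_le n
    have h2 := eps_pos n
    have h3 : ((1 : ℝ) / 1000) ^ (n + 1 + 1) = (1 / 1000) ^ (n + 1) * (1 / 1000) := pow_succ _ _
    rw [h3]
    linarith

theorem eps_tendsto : Filter.Tendsto eps Filter.atTop (nhds 0) := by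
  have h1 : Filter.Tendsto (fun n : ℕ => ((1 : ℝ) / 1000) ^ (n + 1)) Filter.atTop (nhds 0) :=
    (tendsto_pow_atTop_nhds_zero_of_lt_one (by norm_num) (by norm_num)).comp
      (Filter.tendsto_add_atTop_nat 1)
  exact squeeze_zero (fun n => (eps_pos n).le) eps_le_pow h1

theorem bt_gt (n : ℕ) : 1 < bt n := by unfold bt; linarith [eps_pos n]

theorem bt_le (n : ℕ) : bt n ≤ 1 + 1 / 1000 := by unfold bt; linarith [eps_le n]

theorem bt_anti {m n : ℕ} (h : m ≤ n) : bt n ≤ bt m := by unfold bt; linarith [eps_anti h]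

theorem ld_gt (n : ℕ) : 1 < ld n := by unfold ld; linarith [eps_pos (n + 1)]

theorem ld_le (n : ℕ) : ld n ≤ 1 + 1 / 1000 := by
  unfold ld
  have := eps_succ_le n
  have := eps_le n
  linarith

theorem ld_lt_bt (n : ℕ) : ld n < bt n := by
  unfold ld bt
  have := eps_succ_le n
  have := eps_pos n
  linarith

theorem bt_succ_lt_ld (n : ℕ) : bt (n + 1) < ld n := by
  unfold ld bt
  have := eps_pos (n + 1)
  linarith

theorem bo_pos (n : ℕ) : 0 < bo n := by unfold bo; linarith [eps_pos (n + 1)]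

theorem bo_anti {m n : ℕ} (h : m ≤ n) : bo n ≤ bo m := by
  unfold bo; linarith [eps_anti (Nat.succ_le_succ h)]

/-- `T` facts -/
theorem T_exp (p : ℝ) : Real.exp (2 * T p) = p ^ 2 + 1 := by
  unfold T
  rw [show 2 * (Real.log (p ^ 2 + 1) / 2) = Real.log (p ^ 2 + 1) by ring, Real.exp_log]
  positivity

theorem T_le_T {p q : ℝ} (hp : 0 ≤ p) (h : p ≤ q) : T p ≤ T q := by
  unfold T
  have : Real.log (p ^ 2 + 1) ≤ Real.log (q ^ 2 + 1) := by
    apply Real.log_le_log (by positivity)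
    nlinarith
  linarith

theorem T_lt_T {p q : ℝ} (hp : 0 ≤ p) (h : p < q) : T p < T q := by
  unfold T
  have : Real.log (p ^ 2 + 1) < Real.log (q ^ 2 + 1) := by
    apply Real.log_lt_log (by positivity)
    nlinarith
  linarith

theorem T_le_iff {p q : ℝ} (hp : 0 ≤ p) (hq : 0 ≤ q) : T p ≤ T q ↔ p ≤ q := by
  constructor
  · intro h
    by_contra h'
    push Not at h'
    have := T_lt_T hq h'
    linarith
  · exact T_le_T hp

theorem Ti_T {p : ℝ} (hp : 0 ≤ p) : Ti (T p) = p := by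
  unfold Ti
  rw [T_exp]
  simp [Real.sqrt_sq hp]

theorem T_Ti {t : ℝ} (ht : 0 ≤ t) : T (Ti t) = t := by
  unfold Ti T
  have h1 : 0 ≤ Real.exp (2 * t) - 1 := by
    have := Real.add_one_le_exp (2 * t)
    linarith
  rw [Real.sq_sqrt h1]
  rw [show Real.exp (2 * t) - 1 + 1 = Real.exp (2 * t) by ring, Real.log_exp]
  ring

theorem Ti_nonneg (t : ℝ) : 0 ≤ Ti t := Real.sqrt_nonneg _

theorem tau_eq : tau = Real.log 2 / 2 := by
  unfold tau T
  norm_num

theorem tau_gt : 0.34 < tau := by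
  rw [tau_eq]
  have := Real.log_two_gt_d9
  linarith

theorem tau_lt : tau < 0.35 := by
  rw [tau_eq]
  have := Real.log_two_lt_d9
  linarith

theorem tau_pos : 0 < tau := by linarith [tau_gt]

theorem one_le_Ti {t : ℝ} (ht : tau ≤ t) : 1 ≤ Ti t := by
  have h0 : 0 ≤ t := by linarith [tau_pos]
  rw [← T_le_iff (by norm_num) (Ti_nonneg t), T_Ti h0]
  exact ht

theorem Ti_mono {s t : ℝ} (hs : 0 ≤ s) (h : s ≤ t) : Ti s ≤ Ti t := by
  rw [← T_le_iff (Ti_nonneg s) (Ti_nonneg t), T_Ti hs, T_Ti (hs.trans h)]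
  exact h

/-- `T` grows at most like `(q-p)/wp p`. -/
theorem T_sub_le {p q : ℝ} (hp : 1 ≤ p) (h : p ≤ q) : T q - T p ≤ (q - p) / wp p := by
  have hp0 : 0 < p := by linarith
  have e1 : (q - p) / wp p = (q - p) * p / (p ^ 2 + 1) := by
    unfold wp; field_simp
  rw [e1]
  set z := (q - p) * p / (p ^ 2 + 1) with hz
  have hz0 : 0 ≤ z := by
    apply div_nonneg _ (by positivity)
    apply mul_nonneg (by linarith) hp0.le
  have h2 : 1 + 2 * z + (2 * z) ^ 2 / 2 ≤ Real.exp (2 * z) :=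
    by
      have := Real.quadratic_le_exp_of_nonneg (show 0 ≤ 2 * z by linarith)
      linarith
  have h3 : q ^ 2 + 1 ≤ (p ^ 2 + 1) * Real.exp (2 * z) := by
    have h4 : q ^ 2 + 1 ≤ (p ^ 2 + 1) * (1 + 2 * z + (2 * z) ^ 2 / 2) := by
      have h5 : (p ^ 2 + 1) * z = (q - p) * p := by
        rw [hz]; field_simp
      have h6 : (p ^ 2 + 1) * (1 + 2 * z + (2 * z) ^ 2 / 2) =
          (p ^ 2 + 1) + 2 * ((p ^ 2 + 1) * z) + 2 * ((p ^ 2 + 1) * z) * z := by ring
      rw [h6, h5]
      have h7 : (q - p) * p * z = (q - p) ^ 2 * p ^ 2 / (p ^ 2 + 1) := by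
        rw [hz]; field_simp
      have h8 : (q - p) ^ 2 / 2 ≤ (q - p) ^ 2 * p ^ 2 / (p ^ 2 + 1) := by
        rw [div_le_div_iff₀ (by norm_num) (by positivity)]
        have h9 : (q - p) ^ 2 * (p ^ 2 + 1) ≤ (q - p) ^ 2 * (p ^ 2 * 2) := by
          apply mul_le_mul_of_nonneg_left _ (sq_nonneg _)
          nlinarith
        linarith
      nlinarith
    have h5 : 0 < p ^ 2 + 1 := by positivity
    nlinarith
  unfold T
  have h4 : Real.log (q ^ 2 + 1) ≤ Real.log (p ^ 2 + 1) + 2 * z := by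
    have := Real.log_le_log (by positivity) h3
    rwa [Real.log_mul (by positivity) (Real.exp_pos _).ne', Real.log_exp] at this
  linarith

/-- A lower bound for the growth of `T`. -/
theorem le_T_sub {p q : ℝ} (hp : 1 ≤ p) (h : p ≤ q) :
    (q - p) * (q + p) / (2 * (q ^ 2 + 1)) ≤ T q - T p := by
  have hq : 1 ≤ q := hp.trans h
  have h1 : Real.log ((p ^ 2 + 1) / (q ^ 2 + 1)) ≤ (p ^ 2 + 1) / (q ^ 2 + 1) - 1 :=
    Real.log_le_sub_one_of_pos (by positivity)
  rw [Real.log_div (by positivity) (by positivity)] at h1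
  have h2 : (p ^ 2 + 1) / (q ^ 2 + 1) - 1 = - ((q - p) * (q + p) / (q ^ 2 + 1)) := by
    field_simp; ring
  rw [h2] at h1
  unfold T
  have h3 : (q - p) * (q + p) / (2 * (q ^ 2 + 1)) = ((q - p) * (q + p) / (q ^ 2 + 1)) / 2 := by
    field_simp
  rw [h3]
  linarith

theorem T_sub_le_half {p q : ℝ} (hp : 1 ≤ p) (h : p ≤ q) : T q - T p ≤ (q - p) / 2 := by
  refine (T_sub_le hp h).trans ?_
  apply div_le_div_of_nonneg_left (by linarith) (by norm_num)
  unfold wp
  have hp0 : 0 < p := by linarith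
  have : p + 1 / p - 2 = (p - 1) ^ 2 / p := by field_simp; ring
  have h2 : 0 ≤ (p - 1) ^ 2 / p := by positivity
  linarith

theorem two_le_wp {p : ℝ} (hp : 1 ≤ p) : 2 ≤ wp p := by
  unfold wp
  have hp0 : 0 < p := by linarith
  have : p + 1 / p - 2 = (p - 1) ^ 2 / p := by field_simp; ring
  have h2 : 0 ≤ (p - 1) ^ 2 / p := by positivity
  linarith

theorem wp_mono {p q : ℝ} (hp : 1 ≤ p) (h : p ≤ q) : wp p ≤ wp q := by
  unfold wp
  have hp0 : 0 < p := by linarith
  have hq0 : 0 < q := by linarith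
  have e : q + 1 / q - (p + 1 / p) = (q - p) * (p * q - 1) / (p * q) := by field_simp; ring
  have : 0 ≤ (q - p) * (p * q - 1) / (p * q) := by
    apply div_nonneg _ (by positivity)
    apply mul_nonneg (by linarith)
    nlinarith
  linarith

theorem wp_sub_le {p q : ℝ} (hp : 1 ≤ p) (h : p ≤ q) : wp q - wp p ≤ q - p := by
  unfold wp
  have hp0 : 0 < p := by linarith
  have : 1 / q ≤ 1 / p := one_div_le_one_div_of_le hp0 h
  linarith

theorem wp_gt {p : ℝ} (hp : 1 ≤ p) : p < wp p := by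
  unfold wp
  have hp0 : 0 < p := by linarith
  have : 0 < 1 / p := by positivity
  linarith

theorem wp_le_add {p : ℝ} (hp : 1 ≤ p) : wp p ≤ p + 1 := by
  unfold wp
  have hp0 : 0 < p := by linarith
  have : 1 / p ≤ 1 := by rw [div_le_one hp0]; exact hp
  linarith

theorem wp_eq {p : ℝ} (hp : 1 ≤ p) : wp p = (p ^ 2 + 1) / p := by
  have hp0 : 0 < p := by linarith
  unfold wp; field_simp

theorem wp_one : wp 1 = 2 := by norm_num [wp]

/-- Cauchy-Schwarz: the top edge run is not longer in the j-metric than in time. -/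
theorem top_run {p q : ℝ} (hp : 1 ≤ p) (h : p ≤ q) :
    Real.log (1 + (q - p) / wp p) ≤ T q - T p := by
  have hp0 : 0 < p := by linarith
  have e1 : 1 + (q - p) / wp p = (p * q + 1) / (p ^ 2 + 1) := by
    rw [wp_eq hp]; field_simp; ring
  rw [e1]
  have h1 : ((p * q + 1) / (p ^ 2 + 1)) ^ 2 ≤ (q ^ 2 + 1) / (p ^ 2 + 1) := by
    rw [div_pow, div_le_div_iff₀ (by positivity) (by positivity)]
    nlinarith [sq_nonneg (p - q), mul_nonneg (sq_nonneg (p - q)) (sq_nonneg p), sq_nonneg p,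
      mul_pos hp0 hp0]
  have hq0 : 0 < q := by linarith
  have h2 := Real.log_le_log (by positivity) h1
  rw [Real.log_pow, Real.log_div (by positivity : q ^ 2 + 1 ≠ 0) (by positivity)] at h2
  unfold T
  push_cast at h2
  linarith

/-- exit times -/
theorem ex_t_exp (n : ℕ) : Real.exp (ex_t n) = 1 + eps n / 2 := by
  unfold ex_t
  rw [Real.exp_log]
  linarith [eps_pos n]

theorem ex_t_pos (n : ℕ) : 0 < ex_t n := by
  unfold ex_t
  apply Real.log_pos
  linarith [eps_pos n]

theorem ex_t_le (n : ℕ) : ex_t n ≤ eps n / 2 := by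
  unfold ex_t
  have := Real.log_le_sub_one_of_pos (show 0 < 1 + eps n / 2 by linarith [eps_pos n])
  linarith

theorem ex_t_anti {m n : ℕ} (h : m ≤ n) : ex_t n ≤ ex_t m := by
  unfold ex_t
  apply Real.log_le_log (by linarith [eps_pos n])
  linarith [eps_anti h]

theorem le_ex_t (n : ℕ) : eps n / 4 ≤ ex_t n := by
  unfold ex_t
  have h0 := eps_pos n
  have h1 := eps_le n
  have h := Real.one_sub_inv_le_log_of_pos (show 0 < 1 + eps n / 2 by linarith)
  have h2 : eps n / 4 ≤ 1 - (1 + eps n / 2)⁻¹ := by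
    rw [le_sub_comm]
    rw [inv_le_comm₀ (by linarith) (by linarith)]
    rw [inv_le_comm₀ (by linarith) (by linarith)]
    rw [inv_le_iff_one_le_mul₀ (by linarith)]
    nlinarith
  linarith

/-- `c2`: exit plus bonus before the branching time of the ray. -/
theorem c2 (n : ℕ) : ex_t n + bo n ≤ Real.log (bt n) := by
  have h0 := eps_pos n
  have h1 := eps_le n
  have h3 := eps_succ_le n
  have hb : bo n ≤ eps n / 8 := by unfold bo; linarith
  -- log(1+e) - log(1+e/2) ≥ 1 - (1+e/2)/(1+e) = (e/2)/(1+e)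
  have h := Real.one_sub_inv_le_log_of_pos
    (show 0 < (1 + eps n) / (1 + eps n / 2) by positivity)
  rw [Real.log_div (by linarith) (by linarith)] at h
  have h2 : eps n / 4 ≤ 1 - ((1 + eps n) / (1 + eps n / 2))⁻¹ := by
    rw [inv_div, le_sub_comm, div_le_iff₀ (by linarith)]
    nlinarith
  unfold ex_t bt
  linarith

/-- `c4`. -/
theorem c4 (n : ℕ) : bo n + bo (n + 1) ≤ 2 * (Real.log (bt (n + 1)) - ex_t (n + 1)) := by
  have h0 := eps_pos (n + 1)
  have h1 := eps_le (n + 1)
  have h3 := eps_succ_le (n + 1)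
  have hb : bo n = eps (n + 1) / 8 := rfl
  have hb2 : bo (n + 1) ≤ eps (n + 1) / 8 := by unfold bo; linarith [eps_pos (n + 1 + 1)]
  have h := Real.one_sub_inv_le_log_of_pos
    (show 0 < (1 + eps (n + 1)) / (1 + eps (n + 1) / 2) by positivity)
  rw [Real.log_div (by linarith) (by linarith)] at h
  have h2 : eps (n + 1) / 4 ≤ 1 - ((1 + eps (n + 1)) / (1 + eps (n + 1) / 2))⁻¹ := by
    rw [inv_div, le_sub_comm, div_le_iff₀ (by linarith)]
    nlinarith
  unfold ex_t bt
  linarith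

theorem T_ld_sub (n : ℕ) : eps (n + 1) / 4 ≤ T (ld n) - T (bt (n + 1)) := by
  have h0 := eps_pos (n + 1)
  have h1 := eps_le (n + 1)
  refine le_trans ?_ (le_T_sub (bt_gt (n + 1)).le (bt_succ_lt_ld n).le)
  unfold ld bt
  rw [le_div_iff₀ (by positivity)]
  set e := eps (n + 1)
  have e1 : (1 + 2 * e - (1 + e)) * (1 + 2 * e + (1 + e)) -
      e / 4 * (2 * ((1 + 2 * e) ^ 2 + 1)) = e * (1 + e - 2 * e ^ 2) := by ring
  have e2 : 0 ≤ e * (1 + e - 2 * e ^ 2) := by
    apply mul_nonneg h0.le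
    nlinarith
  linarith

/-- `c3`. -/
theorem c3 (n : ℕ) : bo n ≤ 2 * (T (ld n) - T (bt (n + 1))) := by
  have := T_ld_sub n
  have h0 := eps_pos (n + 1)
  unfold bo
  linarith

/-- `c6`. -/
theorem c6 (n : ℕ) : bo n ≤ T (ld n) - tau := by
  have := T_ld_sub n
  have h0 := eps_pos (n + 1)
  have h2 : tau ≤ T (bt (n + 1)) := T_le_T (by norm_num) (bt_gt (n + 1)).le
  unfold bo
  linarith

/-- `c1`. -/
theorem c1 (n : ℕ) : 2 * (T (ld n) - tau) ≤
    Real.log (1 + (2 * (Real.exp (ex_t n) - bt (n + 1))) ^ 2) / 2 := by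
  have h0 := eps_pos n
  have h1 := eps_le n
  have h3 := eps_succ n
  have h4 := eps_succ_le n
  have h5 : T (ld n) - tau ≤ eps (n + 1) := by
    have := T_sub_le_half (le_refl (1 : ℝ)) (ld_gt n).le
    unfold tau
    unfold ld at this ⊢
    linarith
  rw [ex_t_exp]
  set z := (2 * (1 + eps n / 2 - bt (n + 1))) ^ 2 with hz
  have hz1 : z = (eps n - 2 * eps (n + 1)) ^ 2 := by rw [hz]; unfold bt; ring
  have hz2 : eps n ^ 2 / 2 ≤ z := by
    rw [hz1]
    have : eps n * 0.99 ≤ eps n - 2 * eps (n + 1) := by linarith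
    nlinarith
  have hz3 : z ≤ 1 := by
    rw [hz1]
    have := eps_pos (n + 1)
    nlinarith
  have hz0 : 0 ≤ z := by rw [hz]; positivity
  have h6 : z / 2 ≤ Real.log (1 + z) := by
    have h := Real.one_sub_inv_le_log_of_pos (show 0 < 1 + z by linarith)
    have h2 : z / 2 ≤ 1 - (1 + z)⁻¹ := by
      rw [le_sub_comm, inv_le_iff_one_le_mul₀ (by linarith)]
      nlinarith
    linarith
  rw [h3] at h5
  linarith

theorem len_pos (n : ℕ) : 0.3 < len n := by
  unfold len
  split_ifs with h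
  · linarith [tau_gt]
  · have h1 := c6 n
    have h2 := ex_t_le n
    have h3 := eps_le n
    have := tau_gt
    linarith

theorem len_lt (n : ℕ) : len n < 0.4 := by
  unfold len
  split_ifs with h
  · linarith [tau_lt]
  · have h1 := T_sub_le_half (le_refl (1 : ℝ)) (ld_gt n).le
    have h2 := ex_t_pos n
    have h3 := bo_pos n
    have h4 := ld_le n
    have := tau_lt
    unfold tau at this
    linarith

theorem log_bt_le (n : ℕ) : Real.log (bt n) ≤ eps n := by
  have := Real.log_le_sub_one_of_pos (show 0 < bt n by linarith [bt_gt n])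
  unfold bt at this ⊢
  linarith

theorem log_bt_pos (n : ℕ) : 0 < Real.log (bt n) := Real.log_pos (bt_gt n)

end

end Pool.H67.LC
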