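import Pool.Agent.H67.LC.KPhase

set_option autoImplicit false

namespace Pool.H67.LC

open Real Filter Topology

noncomputable section

variable {g : (ℝ → X) → (ℝ → X)}

/-- top point in time parametrisation -/
def tp (k : ℕ) (t : ℝ) : X :=
  bk k (Ti (max t tau)) (wp (Ti (max t tau))) (top_valid (one_le_Ti (le_max_right _ _)))

theorem tp_lip (k : ℕ) (s t : ℝ) : jX (tp k s) (tp k t) ≤ |s - t| := by
  have h0 : jX (tp k s) (tp k t) ≤ |T (Ti (max s tau)) - T (Ti (max t tau))| :=
    jX_top (one_le_Ti (le_max_right _ _)) (one_le_Ti (le_max_right _ _))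
  refine h0.trans ?_
  rw [T_Ti (tau_pos.le.trans (le_max_right _ _)), T_Ti (tau_pos.le.trans (le_max_right _ _))]
  have h := abs_max_sub_max_le_max s tau t tau
  rw [sub_self, abs_zero] at h
  exact h.trans (max_le le_rfl (abs_nonneg _))

theorem tp_T {k : ℕ} {P : ℝ} (hP : 1 ≤ P) : tp k (T P) = bk k P (wp P) (top_valid hP) := by
  have h1 : tau ≤ T P := T_le_T (by norm_num) hP
  have h2 : Ti (max (T P) tau) = P := by rw [max_eq_left h1, Ti_T (by linarith)]
  unfold tp bk
  congr 2
  rw [h2]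

/-- Run along the top. -/
theorem run (hg : CS g) {c : ℝ → X} {t : ℝ} (hc : LP c) (ht : 0 ≤ t) {k : ℕ} {P P' : ℝ}
    (hP : 1 ≤ P) (hP' : 1 ≤ P') (hx : jX (c t) (bk k P (wp P) (top_valid hP)) = 0) :
    ∃ c', LP c' ∧ jX (c' (t + |T P - T P'|)) (bk k P' (wp P') (top_valid hP')) = 0 ∧
      g c' t = g c t ∧ jX (g c t) (g c' (t + |T P - T P'|)) ≤ |T P - T P'| := by
  have hd : 0 ≤ |T P - T P'| := abs_nonneg _
  rcases le_total (T P) (T P') with h | h
  · have e : |T P - T P'| = T P' - T P := by rw [abs_of_nonpos (by linarith)]; ring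
    have h0 : jX (c t) (tp k (T P + 0)) = 0 := by rw [add_zero, tp_T hP]; exact hx
    obtain ⟨c', h1, _, h3, h4, h5⟩ := step hg (q := fun s => tp k (T P + s)) hc ht hd
      (fun s s' _ hss _ => by
        refine (tp_lip k _ _).trans ?_
        rw [show T P + s - (T P + s') = s - s' by ring, abs_of_nonpos (by linarith)]
        linarith) h0
    refine ⟨c', h1, ?_, h4, h5⟩
    rw [← tp_T hP']
    have e2 : T P + |T P - T P'| = T P' := by rw [e]; ring
    rw [e2] at h3
    exact h3
  · have e : |T P - T P'| = T P - T P' := abs_of_nonneg (by linarith)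
    have h0 : jX (c t) (tp k (T P - 0)) = 0 := by rw [sub_zero, tp_T hP]; exact hx
    obtain ⟨c', h1, _, h3, h4, h5⟩ := step hg (q := fun s => tp k (T P - s)) hc ht hd
      (fun s s' _ hss _ => by
        refine (tp_lip k _ _).trans ?_
        rw [show T P - s - (T P - s') = s' - s by ring, abs_of_nonneg (by linarith)]) h0
    refine ⟨c', h1, ?_, h4, h5⟩
    rw [← tp_T hP']
    have e2 : T P - |T P - T P'| = T P' := by rw [e]; ring
    rw [e2] at h3
    exact h3

theorem ld_le_bt_one {n : ℕ} (hn : n ≠ 0) : ld n ≤ bt 1 := by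
  unfold ld bt
  have h1 : eps (n + 1) ≤ eps 2 := eps_anti (by omega)
  have h2 := eps_succ_le 1
  have h3 := eps_pos 1
  linarith

theorem ht_rd_le_bt {n : ℕ} {e : ℝ} (h : Pt.V (.rd n e)) : Pt.ht (.rd n e) ≤ bt 1 := by
  by_cases hn : n = 0
  · subst hn
    rw [ht_rd_zero]; exact (bt_gt 1).le
  · exact (ht_rd_le hn h).trans (ld_le_bt_one hn)

/-- A point far out in a ray stays there. -/
theorem stay {k : ℕ} {q u P : ℝ} (hP : bt 1 ≤ P) (hu : P + u < q) (y : X)
    (hD : D k q y.1.lab y.1.ht ≤ u) : ∃ q' v' h', y = bk k q' v' h' ∧ |q - q'| ≤ u := by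
  have hu0 : 0 ≤ u := (D_nonneg _ _ _ _).trans hD
  -- labels must agree
  have key : ∀ (l : ℕ) (r : ℝ), D k q l r ≤ u → (l = 0 → k ≠ 0) → k = l := by
    intro l r hDl hl0
    by_contra hkl
    unfold D hg at hDl
    rw [if_neg hkl] at hDl
    have e1 := ec_nonneg l r
    have e2 := abs_nonneg (sc k q - sc l r)
    by_cases hk : k = 0
    · have hl : l ≠ 0 := fun h => hl0 h hk
      subst hk
      rw [sc_zero] at hDl
      have e3 : sc l r ≤ bt 1 := by
        unfold sc
        rw [if_neg hl]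
        exact (min_le_right _ _).trans (bt_anti (by omega))
      have e4 := le_abs_self (q - sc l r)
      have e5 := ec_nonneg 0 q
      linarith
    · have hbk : bt k ≤ bt 1 := bt_anti (by omega)
      rw [ec_of_ge hk (by linarith)] at hDl
      linarith
  obtain ⟨y, hy⟩ := y
  cases y with
  | bk l q' v' =>
    change D k q l q' ≤ u at hD
    by_cases hkl : k = l
    · subst hkl
      rw [D_same] at hD
      exact ⟨q', v', hy, rfl, hD⟩
    · exfalso
      by_cases hk : k = 0
      · exact hkl (key l q' hD (fun hl => by omega))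
      · exact hkl (key l q' hD (fun _ => hk))
  | rd n e =>
    exfalso
    change D k q 0 (Pt.ht (.rd n e)) ≤ u at hD
    have hht := ht_rd_le_bt hy
    by_cases hk : k = 0
    · subst hk
      rw [D_same] at hD
      have := le_abs_self (q - Pt.ht (.rd n e))
      linarith
    · exact hk (key 0 _ hD (fun _ => hk))

/-- Capture if close. -/
theorem close_capture (hg : CS g) {r : ℝ} (hr1 : r < 1) {c : ℝ → X} {t : ℝ} {k : ℕ}
    {P q v : ℝ} (hc : LP c) (ht : 0 ≤ t) (hP : 1 ≤ P) (hPq : P ≤ q) (h')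
    (hx : jX (c t) (bk k P (wp P) (top_valid hP)) = 0)
    (hy : g c t = bk k q v h') (hv : v ≤ r * wp P) (hD : q - P ≤ (1 - r) ^ 2 * wp P / 8) :
    False := by
  have hw2 := two_le_wp hP
  have hgap : (1 - r) * wp P ≤ wp P - v := by linarith
  have hpos : 0 < (1 - r) * wp P := by
    apply mul_pos <;> linarith
  refine kphase hg (W := wp P) ⟨c, t, k, P, wp P, k, q, v, hc, ht, top_valid hP, h', hx, hy,
    by linarith, le_rfl, ?_⟩
  rw [D_same, abs_of_nonpos (by linarith)]
  have h1 : ((1 - r) * wp P) ^ 2 ≤ (wp P - v) ^ 2 := pow_le_pow_left₀ hpos.le hgap 2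
  have h2 : 8 * wp P * (-(P - q)) ≤ 8 * wp P * ((1 - r) ^ 2 * wp P / 8) := by
    apply mul_le_mul_of_nonneg_left _ (by linarith)
    linarith
  have h3 : 8 * wp P * ((1 - r) ^ 2 * wp P / 8) = ((1 - r) * wp P) ^ 2 := by ring
  linarith

/-- The chase in a ray. -/
theorem ray (hg : CS g) {lam : ℝ} (hlam : 0 < lam) (N : ℕ) :
    ∀ (c : ℝ → X) (t : ℝ) (k : ℕ) (P q v : ℝ) (hP : 1 ≤ P)
      (h' : 1 ≤ q ∧ q ≤ v ∧ q * (v - q) ≤ 1), LP c → 0 ≤ t → bt 1 ≤ P → P ≤ q →
      jX (c t) (bk k P (wp P) (top_valid hP)) = 0 → g c t = bk k q v h' →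
      rr q v ≤ T P - lam →
      q - P ≤ N * ((1 - Real.exp (-lam)) * ((1 - Real.exp (-lam)) ^ 2 / 128)) → False := by
  set r := Real.exp (-lam) with hr
  have hr0 : 0 < r := Real.exp_pos _
  have hr1 : r < 1 := by rw [hr, Real.exp_lt_one_iff]; linarith
  set ε := (1 - r) ^ 2 / 128 with hε
  have hε0 : 0 < ε := by
    have : 0 < 1 - r := by linarith
    positivity
  have hε1 : ε ≤ 1 / 128 := by
    rw [hε]
    have : (1 - r) ^ 2 ≤ 1 := by nlinarith
    linarith
  induction N with
  | zero =>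
    intro c t k P q v hP h' hc ht hbP hPq hx hy hrr hN
    have hv := ratio h'.1 h'.2.1 h'.2.2 hP hPq hrr
    rw [← hr] at hv
    refine close_capture hg hr1 hc ht hP hPq h' hx hy hv ?_
    have hw2 := two_le_wp hP
    have : 0 ≤ (1 - r) ^ 2 * wp P / 8 := by positivity
    simp at hN
    linarith
  | succ N ih =>
    intro c t k P q v hP h' hc ht hbP hPq hx hy hrr hN
    have hv := ratio h'.1 h'.2.1 h'.2.2 hP hPq hrr
    rw [← hr] at hv
    have hw2 := two_le_wp hP
    by_cases hcl : q - P ≤ (1 - r) ^ 2 * wp P / 8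
    · exact close_capture hg hr1 hc ht hP hPq h' hx hy hv hcl
    push Not at hcl
    -- one run of length ε
    have hTP : tau ≤ T P := T_le_T (by norm_num) hP
    set P' := Ti (T P + ε) with hP'def
    have hP' : 1 ≤ P' := one_le_Ti (by linarith)
    have hTP' : T P' = T P + ε := T_Ti (by linarith [tau_pos])
    have hd : |T P - T P'| = ε := by rw [hTP', abs_of_nonpos (by linarith)]; ring
    obtain ⟨c', hc', hx', _, hgd⟩ := run hg hc ht hP hP' hx
    rw [hd] at hx' hgd
    have hPP' : P ≤ P' := by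
      rw [← T_le_iff (by linarith) (by linarith), hTP']; linarith
    have hlow := T_sub_le hP hPP'
    rw [hTP', add_sub_cancel_left, le_div_iff₀ (by linarith)] at hlow
    have hexp := exp_sub_one_le hε0.le (by linarith)
    have hexp0 : 0 ≤ Real.exp ε - 1 := by have := Real.add_one_le_exp ε; linarith
    have hup : P' - P ≤ wp P * (ε + ε ^ 2) := by
      have h1 := jX_top (k := k) hP hP'
      rw [hd] at h1
      have h2 := D_le_of_jX h1
      change D k P k P' ≤ min (wp P) (wp P') * _ at h2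
      rw [D_same, abs_of_nonpos (by linarith)] at h2
      have h3 : min (wp P) (wp P') * (Real.exp ε - 1) ≤ wp P * (ε + ε ^ 2) := by
        apply mul_le_mul (min_le_left _ _) hexp hexp0 (by linarith)
      linarith
    rw [hy] at hgd
    have hv1 : 1 ≤ v := h'.1.trans h'.2.1
    have hDy := D_le_of_jX hgd
    have hmin : min (bk k q v h').1.wd (g c' (t + ε)).1.wd * (Real.exp ε - 1) ≤
        r * wp P * (ε + ε ^ 2) := by
      have hv0 : (0 : ℝ) ≤ r * wp P := by positivity
      have : (bk k q v h').1.wd = v := rfl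
      exact mul_le_mul ((min_le_left _ _).trans hv) hexp hexp0 hv0
    have hDy' := hDy.trans hmin
    have hrrl := rr_lip (bk k q v h') (g c' (t + ε))
    have hee : ε + ε ^ 2 ≤ 129 / 128 * ε := by nlinarith
    have he1 : wp P * (ε + ε ^ 2) ≤ wp P * (129 / 128 * ε) :=
      mul_le_mul_of_nonneg_left hee (by linarith)
    have he2 : r * wp P * (ε + ε ^ 2) ≤ r * wp P * (129 / 128 * ε) :=
      mul_le_mul_of_nonneg_left hee (by positivity)
    have he3 : wp P * (129 / 128 * ε) = 129 / 128 / 128 * ((1 - r) ^ 2 * wp P) := by rw [hε]; ring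
    have he4 : r * wp P * (129 / 128 * ε) ≤ wp P * (129 / 128 * ε) := by
      apply mul_le_mul_of_nonneg_right _ (by positivity)
      nlinarith
    have he5 : 0 < (1 - r) ^ 2 * wp P := by
      have : 0 < 1 - r := by linarith
      positivity
    obtain ⟨q', v', h'', hyq, hqq⟩ := stay (k := k) (q := q) (u := r * wp P * (ε + ε ^ 2)) hbP
      (by linarith) (g c' (t + ε)) hDy'
    have hqq' := abs_le.1 hqq
    refine ih c' (t + ε) k P' q' v' hP' h'' hc' (by linarith) (by linarith) ?_ hx' hyq ?_ ?_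
    · linarith [hqq'.2]
    · rw [hyq] at hrrl hgd
      change |rr q v - rr q' v'| ≤ _ at hrrl
      have := (abs_le.1 hrrl).1
      linarith
    · push_cast at hN
      have hee2 : ε ≤ (1 - r) / 2 := by rw [hε]; nlinarith
      have hee3 : r * (ε + ε ^ 2) ≤ ε * ((1 + r) / 2) := by
        have h1 : r * ε ^ 2 ≤ 1 * ε ^ 2 := mul_le_mul_of_nonneg_right hr1.le (by positivity)
        have h2 : ε ^ 2 ≤ ε * ((1 - r) / 2) := by
          rw [sq]; exact mul_le_mul_of_nonneg_left hee2 hε0.le
        linarith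
      have e1 : r * wp P * (ε + ε ^ 2) ≤ wp P * ε - (1 - r) * ε := by
        have h1 : r * wp P * (ε + ε ^ 2) = wp P * (r * (ε + ε ^ 2)) := by ring
        rw [h1]
        have h2 : wp P * (r * (ε + ε ^ 2)) ≤ wp P * (ε * ((1 + r) / 2)) :=
          mul_le_mul_of_nonneg_left hee3 (by linarith)
        have h3 : 0 ≤ (1 - r) * ε := mul_nonneg (by linarith) hε0.le
        have h4 : 2 * ((1 - r) * ε) ≤ wp P * ((1 - r) * ε) :=
          mul_le_mul_of_nonneg_right hw2 h3
        have h5 : wp P * (ε * ((1 + r) / 2)) = wp P * ε - wp P * ((1 - r) * ε) / 2 := by ring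
        linarith
      linarith [hqq'.1]

end

end Pool.H67.LC
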