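import Pool.Agent.H67.LC.Crump

set_option autoImplicit false

namespace Pool.H67.LC

open Real Filter Topology

noncomputable section

theorem ultra_limit {α : Type*} [PseudoMetricSpace α] (f : Ultrafilter α) (pr : α → α) (K : Set α)
    (hK : IsCompact K) (hpr : pr ⁻¹' K ∈ f) (h : ∀ ε > 0, {x | dist x (pr x) < ε} ∈ f) :
    ∃ z, (f : Filter α) ≤ 𝓝 z := by
  obtain ⟨z, _, hz⟩ := isCompact_iff_ultrafilter_le_nhds'.1 hK (f.map pr) (by
    rw [Ultrafilter.mem_map]; exact hpr)
  refine ⟨z, ?_⟩
  rw [Metric.nhds_basis_ball.ge_iff]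
  intro ε hε
  have h1 : {x | dist x (pr x) < ε / 2} ∈ (f : Filter α) := h _ (half_pos hε)
  have h2 : pr ⁻¹' (Metric.ball z (ε / 2)) ∈ (f : Filter α) := hz (Metric.ball_mem_nhds z (half_pos hε))
  filter_upwards [h1, h2] with x hx1 hx2
  rw [Metric.mem_ball]
  have h3 : dist (pr x) z < ε / 2 := hx2
  have h4 := dist_triangle x (pr x) z
  have h5 : dist x (pr x) < ε / 2 := hx1
  linarith

/-- The space with the non compact metric. -/
def XJ : Type := X

instance instJ : PseudoMetricSpace XJ where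
  dist := jX
  dist_self := jX_self
  dist_comm := jX_comm
  dist_triangle := jX_tri

theorem distJ (x y : XJ) : dist x y = jX x y := rfl

def ofJ (x : XJ) : X := x

theorem continuous_ofJ : Continuous ofJ := by
  have : LipschitzWith 1 ofJ := by
    apply LipschitzWith.of_dist_le_mul
    intro x y
    simp only [NNReal.coe_one, one_mul]
    exact dc_le_jX x y
  exact this.continuous

/-- parameter region of a sheet -/
def par (Rb : ℝ) : Set (ℝ × ℝ) :=
  {z | (1 ≤ z.1 ∧ z.1 ≤ z.2 ∧ z.1 * (z.2 - z.1) ≤ 1) ∧ z.1 ≤ Rb}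

theorem par_compact (Rb : ℝ) : IsCompact (par Rb) := by
  have h1 : IsCompact (Set.Icc (1 : ℝ) Rb ×ˢ Set.Icc (1 : ℝ) (Rb + 1)) :=
    isCompact_Icc.prod isCompact_Icc
  apply h1.of_isClosed_subset
  · unfold par
    simp only [Set.ofPred_and]
    refine IsClosed.inter (IsClosed.inter ?_ (IsClosed.inter ?_ ?_)) ?_
    · exact isClosed_le continuous_const continuous_fst
    · exact isClosed_le continuous_fst continuous_snd
    · exact isClosed_le (continuous_fst.mul (continuous_snd.sub continuous_fst)) continuous_const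
    · exact isClosed_le continuous_fst continuous_const
  · rintro ⟨p, w⟩ ⟨⟨h1, h2, h3⟩, h4⟩
    simp only at h1 h2 h3 h4
    refine ⟨⟨h1, h4⟩, ⟨h1.trans h2, ?_⟩⟩
    have : w - p ≤ 1 := by nlinarith
    show w ≤ Rb + 1
    linarith

def bookMap (k : ℕ) (Rb : ℝ) (z : par Rb) : XJ := bk k z.1.1 z.1.2 z.2.1

theorem bookMap_cont (k : ℕ) (Rb : ℝ) : Continuous (bookMap k Rb) := by
  have : LipschitzWith 3 (bookMap k Rb) := by
    apply LipschitzWith.of_dist_le_mul
    intro z z'
    have h := jX_bk_le (k := k) z.2.1 (l := k) z'.2.1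
    rw [D_same] at h
    exact h
  exact this.continuous

def KJ (k : ℕ) (Rb : ℝ) : Set XJ := Set.range (bookMap k Rb)

theorem KJ_compact (k : ℕ) (Rb : ℝ) : IsCompact (KJ k Rb) := by
  have : CompactSpace (par Rb) := isCompact_iff_compactSpace.1 (par_compact Rb)
  exact isCompact_range (bookMap_cont k Rb)

theorem mem_KJ {k : ℕ} {Rb : ℝ} {p w : ℝ} (h) (hp : p ≤ Rb) : (bk k p w h : XJ) ∈ KJ k Rb :=
  ⟨⟨(p, w), h, hp⟩, rfl⟩

def roadMap (n : ℕ) (z : Set.Icc (0 : ℝ) (len n)) : XJ := rd n z.1 z.2

theorem roadMap_cont (n : ℕ) : Continuous (roadMap n) := by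
  have : LipschitzWith 1 (roadMap n) := by
    apply LipschitzWith.of_dist_le_mul
    intro z z'
    simp only [NNReal.coe_one, one_mul]
    exact jX_rd (n := n) z.2 z'.2
  exact this.continuous

def RJ (n : ℕ) : Set XJ := Set.range (roadMap n)

theorem RJ_compact (n : ℕ) : IsCompact (RJ n) := isCompact_range (roadMap_cont n)

theorem mem_RJ {n : ℕ} {e : ℝ} (h) : (rd n e h : XJ) ∈ RJ n := ⟨⟨e, h⟩, rfl⟩

theorem ht_rd_le {n : ℕ} {e : ℝ} (hn : n ≠ 0) (h : Pt.V (.rd n e)) : Pt.ht (.rd n e) ≤ ld n := by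
  have h1 := one_le_ht h
  have h2 := ld_gt n
  rw [← T_le_iff (by linarith) (by linarith), T_ht_rd hn]
  apply max_le
  · exact T_le_T (by norm_num) h2.le
  · have h3 := h.2
    rw [len_eq hn] at h3
    linarith

/-- Superlevel sets of `phi` are covered by a compact set. -/
theorem phi_ge_compact {δ : ℝ} (hδ : 0 < δ) : ∃ K : Set XJ, IsCompact K ∧
    {x : X | phi x < δ}ᶜ ⊆ K := by
  obtain ⟨N, hN⟩ : ∃ N, ∀ n ≥ N, eps n < δ := by
    have := eps_tendsto.eventually (gt_mem_nhds hδ)
    rw [Filter.eventually_atTop] at this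
    exact this
  refine ⟨(⋃ k ∈ Finset.range (N + 1), KJ k (1 / (8 * δ))) ∪ (⋃ n ∈ Finset.range (N + 1), RJ n),
    ?_, ?_⟩
  · apply IsCompact.union
    · exact Finset.isCompact_biUnion _ fun k _ => KJ_compact k _
    · exact Finset.isCompact_biUnion _ fun k _ => RJ_compact k
  · intro x hx
    have hx' : δ ≤ phi x := by simpa using hx
    obtain ⟨x, hv⟩ := x
    cases x with
    | bk k p w =>
      left
      have h1 : δ ≤ max 0 ((min (sc k p) 2 - 1) / (8 * p)) := hx'
      have h2 : δ ≤ (min (sc k p) 2 - 1) / (8 * p) := by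
        rcases le_max_iff.1 h1 with h | h
        · linarith
        · exact h
      have hp : 1 ≤ p := hv.1
      rw [le_div_iff₀ (by linarith)] at h2
      have h3 : min (sc k p) 2 ≤ 2 := min_le_right _ _
      have h4 : p ≤ 1 / (8 * δ) := by
        rw [le_div_iff₀ (by positivity)]; nlinarith
      have h5 : k < N + 1 := by
        by_contra hc
        push Not at hc
        have hk : k ≠ 0 := by omega
        have h6 : min (sc k p) 2 ≤ bt k := by
          refine (min_le_left _ _).trans ?_
          unfold sc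
          rw [if_neg hk]
          exact min_le_right _ _
        have h7 := hN k (by omega)
        unfold bt at h6
        nlinarith
      simp only [Set.mem_iUnion, Finset.mem_range]
      exact ⟨k, h5, mem_KJ hv h4⟩
    | rd n e =>
      right
      have h5 : n < N + 1 := by
        by_contra hc
        push Not at hc
        have hn : n ≠ 0 := by omega
        have h7 := hN n (by omega)
        have h8 := ht_rd_le hn hv
        have h9 := one_le_ht hv
        have h10 : Pt.G (.rd n e) < δ := by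
          unfold Pt.G
          rw [div_lt_iff₀ (by linarith)]
          have e1 : min (sc (Pt.lab (.rd n e)) (Pt.ht (.rd n e))) 2 ≤ ld n := by
            refine (min_le_left _ _).trans ?_
            exact (sc_le _ _).trans h8
          unfold ld at e1
          have := eps_succ_le n
          have := eps_pos n
          nlinarith
        have h11 : Pt.dep (.rd n e) ≤ eps n := by
          simp only [Pt.dep]
          rw [if_neg hn]
          exact min_le_right _ _
        have h12 : phi ⟨.rd n e, hv⟩ < δ := max_lt (by show Pt.dep (.rd n e) < δ; linarith) h10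
        linarith
      simp only [Set.mem_iUnion, Finset.mem_range]
      exact ⟨n, h5, mem_RJ hv⟩

instance instCompact : CompactSpace X := by
  constructor
  rw [isCompact_iff_ultrafilter_le_nhds]
  intro f _
  by_cases h : ∃ K : Set XJ, IsCompact K ∧ ofJ '' K ∈ f
  · obtain ⟨K, hK, hKf⟩ := h
    obtain ⟨x, _, hx⟩ := isCompact_iff_ultrafilter_le_nhds'.1 (hK.image continuous_ofJ) f hKf
    exact ⟨x, trivial, hx⟩
  · push Not at h
    have hK0 : IsCompact (ofJ '' (RJ 0 ∪ KJ 0 1)) :=
      ((RJ_compact 0).union (KJ_compact 0 1)).image continuous_ofJ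
    obtain ⟨z, hz⟩ := ultra_limit f bX _ hK0 (by
      apply Filter.mem_of_superset Filter.univ_mem
      intro x _
      refine ⟨bX x, ?_, rfl⟩
      obtain ⟨x, hv⟩ := x
      cases x with
      | bk k p w => right; exact mem_KJ _ le_rfl
      | rd n e => left; exact mem_RJ _) (by
      intro ε hε
      obtain ⟨K, hK, hsub⟩ := phi_ge_compact hε
      have h1 := h K hK
      have h2 : {x : X | phi x < ε} ∈ f := by
        by_contra hc
        have h3 : {x : X | phi x < ε}ᶜ ∈ f := Ultrafilter.compl_mem_iff_notMem.2 hc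
        apply h1
        apply Filter.mem_of_superset h3
        intro x hx
        exact ⟨x, hsub hx, rfl⟩
      apply Filter.mem_of_superset h2
      intro x hx
      have h4 : phi x < ε := hx
      have h5 := dc_bX x
      show dc x (bX x) < ε
      linarith)
    exact ⟨z, trivial, hz⟩

/-- Nearest simple point of a road point. -/
def roadPi (x : X) : X :=
  match x with
  | ⟨.bk k p w, h⟩ => ⟨.bk k p w, h⟩
  | ⟨.rd n e, _⟩ => if e ≤ len n - e then rd 0 (ex_t n) (rd_exit_valid n)
      else bk 0 (ld n) (wp (ld n)) (top_valid (ld_gt n).le)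

theorem roadPi_dist {n : ℕ} {e : ℝ} (hn : n ≠ 0) (h) :
    jX (rd n e h) (roadPi (rd n e h)) ≤ min e (len n - e) := by
  have e0 : roadPi (rd n e h) = if e ≤ len n - e then rd 0 (ex_t n) (rd_exit_valid n)
      else bk 0 (ld n) (wp (ld n)) (top_valid (ld_gt n).le) := rfl
  rw [e0]
  split_ifs with h1
  · rw [min_eq_left h1]
    have h2 := jX_tri (rd n e h) (rd n 0 (rd_start_valid n)) (rd 0 (ex_t n) (rd_exit_valid n))
    rw [jX_start hn] at h2
    have h3 := jX_rd h (rd_start_valid n)
    rw [sub_zero, abs_of_nonneg h.1] at h3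
    linarith
  · push Not at h1
    rw [min_eq_right h1.le]
    have h2 := jX_tri (rd n e h) (rd n (len n) (rd_end_valid n))
      (bk 0 (ld n) (wp (ld n)) (top_valid (ld_gt n).le))
    rw [jX_end hn] at h2
    have h3 := jX_rd h (rd_end_valid n)
    rw [abs_of_nonpos (by linarith [h.2])] at h3
    linarith

/-- Projection of a book point to the spine. -/
def bookPi (x : X) : X :=
  match x with
  | ⟨.bk k p w, h⟩ => bk 0 (p - ec k p) (w - ec k p) (by
      have h1 := sc_add_ec k p
      have h2 := one_le_sc (k := k) h.1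
      have h3 := ec_nonneg k p
      refine ⟨by linarith, by linarith [h.2.1], ?_⟩
      have e1 : w - ec k p - (p - ec k p) = w - p := by ring
      rw [e1]
      have h4 := h.2.1
      have h5 := h.2.2
      nlinarith)
  | ⟨.rd n e, h⟩ => ⟨.rd n e, h⟩

theorem bookPi_dist {k : ℕ} {p w : ℝ} (h) :
    jX (bk k p w h) (bookPi (bk k p w h)) ≤ 3 * ec k p := by
  have h1 := sc_add_ec k p
  have h3 := ec_nonneg k p
  have e0 : bookPi (bk k p w h) = bk 0 (p - ec k p) (w - ec k p) _ := rfl
  rw [e0]
  refine (jX_bk_le _ _).trans ?_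
  have h4 : D k p 0 (p - ec k p) ≤ ec k p := by
    unfold D hg
    rw [sc_zero, ec_zero]
    have e1 : sc k p - (p - ec k p) = 0 := by linarith
    rw [e1, abs_zero]
    split_ifs
    · rw [sub_zero, abs_of_nonneg h3]; linarith
    · linarith
  have h5 : |w - (w - ec k p)| = ec k p := by
    rw [show w - (w - ec k p) = ec k p by ring, abs_of_nonneg h3]
  rw [h5]
  have : max (D k p 0 (p - ec k p)) (ec k p) ≤ ec k p := max_le h4 le_rfl
  linarith

instance instComplete : CompleteSpace XJ := by
  rw [completeSpace_iff_ultrafilter]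
  intro f hf
  by_cases h : ∃ K : Set XJ, IsCompact K ∧ K ∈ f
  · obtain ⟨K, hK, hKf⟩ := h
    obtain ⟨x, _, hx⟩ := isCompact_iff_ultrafilter_le_nhds'.1 hK f hKf
    exact ⟨x, hx⟩
  push Not at h
  have hdiam : ∀ ρ > 0, ∃ S ∈ f, ∀ x ∈ S, ∀ y ∈ S, jX x y < ρ := by
    intro ρ hρ
    obtain ⟨S, hS, hS2⟩ := (Metric.cauchy_iff.1 hf).2 ρ hρ
    exact ⟨S, hS, hS2⟩
  let Bk : Set XJ := {x | ∃ k p w h, x = bk k p w h}
  by_cases hB : Bk ∈ f
  · -- book points
    obtain ⟨S, hS, hSd⟩ := hdiam 1 one_pos
    obtain ⟨x0, hx0⟩ : S.Nonempty := f.nonempty_of_mem hS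
    set Rb := x0.1.wd * Real.exp 1 with hRb
    have hSR : ∀ x ∈ S, x.1.wd ≤ Rb := by
      intro x hx
      have h1 := log_wd_lip x x0
      have h2 := hSd x hx x0 hx0
      have h3 := abs_le.1 h1
      have h4 : Real.log x.1.wd ≤ Real.log x0.1.wd + 1 := by linarith [h3.2]
      have h5 := Real.exp_le_exp.2 h4
      rw [Real.exp_log (wd_pos x.2), Real.exp_add, Real.exp_log (wd_pos x0.2)] at h5
      exact h5
    have hRb0 : 0 < Rb := mul_pos (wd_pos x0.2) (Real.exp_pos 1)
    have hlab : ∀ k : ℕ, {x : XJ | x.1.lab ≠ k} ∈ f := by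
      intro k
      by_contra hc
      have h1 : {x : XJ | x.1.lab ≠ k}ᶜ ∈ f := Ultrafilter.compl_mem_iff_notMem.2 hc
      apply h (KJ k Rb) (KJ_compact k Rb)
      filter_upwards [h1, hB, hS] with x hx1 hx2 hx3
      obtain ⟨l, p, w, hv, rfl⟩ := hx2
      have hl : l = k := by simpa [bk, Pt.lab] using hx1
      subst hl
      exact mem_KJ hv (hv.2.1.trans (hSR _ hx3))
    apply ultra_limit f bookPi (KJ 0 Rb) (KJ_compact 0 Rb)
    · show bookPi ⁻¹' KJ 0 Rb ∈ f
      filter_upwards [hB, hS] with x hx2 hx3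
      obtain ⟨l, p, w, hv, rfl⟩ := hx2
      apply mem_KJ
      have := hSR _ hx3
      have h1 : p ≤ Rb := hv.2.1.trans this
      linarith [ec_nonneg l p]
    · intro ε hε
      obtain ⟨ρ, hρ, hρ2⟩ : ∃ ρ > 0, Rb * (Real.exp ρ - 1) < ε / 3 := by
        have hc : Filter.Tendsto (fun ρ : ℝ => Rb * (Real.exp ρ - 1)) (𝓝 0)
            (𝓝 (Rb * (Real.exp 0 - 1))) :=
          (Continuous.tendsto (by fun_prop) 0)
        rw [Real.exp_zero, sub_self, mul_zero] at hc
        have h1 := hc.eventually (gt_mem_nhds (show 0 < ε / 3 by linarith))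
        rw [Metric.eventually_nhds_iff] at h1
        obtain ⟨r, hr, h2⟩ := h1
        refine ⟨r / 2, by linarith, h2 ?_⟩
        rw [Real.dist_eq, sub_zero, abs_of_pos (by linarith)]
        linarith
      obtain ⟨S', hS', hSd'⟩ := hdiam ρ hρ
      filter_upwards [hB, hS, hS'] with x hx1 hx2 hx3
      obtain ⟨l, p, w, hv, rfl⟩ := hx1
      have hne : (S' ∩ {x : XJ | x.1.lab ≠ l}).Nonempty :=
        f.nonempty_of_mem (Filter.inter_mem hS' (hlab l))
      obtain ⟨y, hy1, hy2⟩ := hne
      have h1 := hSd' _ hx3 _ hy1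
      have h2 := D_le_of_jX h1.le
      have h3 : ec l p ≤ D l p y.1.lab y.1.ht := by
        unfold D hg
        have hne : ¬ l = y.1.lab := fun e => hy2 e.symm
        rw [if_neg hne]
        have := ec_nonneg y.1.lab y.1.ht
        have := abs_nonneg (sc l p - sc y.1.lab y.1.ht)
        linarith
      have h4 : min (bk l p w hv).1.wd y.1.wd * (Real.exp ρ - 1) ≤ Rb * (Real.exp ρ - 1) := by
        apply mul_le_mul_of_nonneg_right
        · exact (min_le_left _ _).trans (hSR _ hx2)
        · have := Real.add_one_le_exp ρ; linarith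
      have h5 := bookPi_dist (k := l) hv
      show jX (bk l p w hv) (bookPi (bk l p w hv)) < ε
      change D l p y.1.lab y.1.ht ≤ _ at h2
      linarith
  · -- road points
    have hB' : Bkᶜ ∈ f := Ultrafilter.compl_mem_iff_notMem.2 hB
    have hR : ∀ n, (RJ n)ᶜ ∈ f := fun n =>
      Ultrafilter.compl_mem_iff_notMem.2 (h (RJ n) (RJ_compact n))
    have hform : ∀ x ∈ Bkᶜ, ∃ n e hv, x = rd n e hv := by
      intro x hx
      obtain ⟨x, hv⟩ := x
      cases x with
      | bk k p w => exact absurd ⟨k, p, w, hv, rfl⟩ hx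
      | rd n e => exact ⟨n, e, hv, rfl⟩
    apply ultra_limit f roadPi (RJ 0 ∪ KJ 0 2) ((RJ_compact 0).union (KJ_compact 0 2))
    · filter_upwards [hB'] with x hx
      obtain ⟨n, e, hv, rfl⟩ := hform x hx
      show roadPi (rd n e hv) ∈ RJ 0 ∪ KJ 0 2
      have e0 : roadPi (rd n e hv) = if e ≤ len n - e then rd 0 (ex_t n) (rd_exit_valid n)
        else bk 0 (ld n) (wp (ld n)) (top_valid (ld_gt n).le) := rfl
      rw [e0]
      split_ifs
      · left; exact mem_RJ _
      · right; exact mem_KJ _ (by linarith [ld_le n])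
    · intro ε hε
      obtain ⟨S, hS, hSd⟩ := hdiam ε hε
      filter_upwards [hB', hR 0, hS] with x hx1 hx2 hx3
      obtain ⟨n, e, hv, rfl⟩ := hform x hx1
      have hn : n ≠ 0 := by
        rintro rfl
        exact hx2 (mem_RJ hv)
      obtain ⟨y, hy1, hy2⟩ := f.nonempty_of_mem (Filter.inter_mem hS (hR n))
      have h1 := raw_le hn hv y (by
        rintro e' he' rfl
        exact hy2 (mem_RJ he'))
      have h2 := roadPi_dist hn hv
      have h3 := hSd _ hx3 _ hy1
      show jX (rd n e hv) (roadPi (rd n e hv)) < ε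
      linarith

end

end Pool.H67.LC
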