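import Pool.Agent.H67.LC.Moves

set_option autoImplicit false

namespace Pool.H67.LC

open Real

noncomputable section

def Pt.G (x : Pt) : ℝ := (min (sc x.lab x.ht) 2 - 1) / (8 * x.ht)

def Pt.dep : Pt → ℝ
  | .bk _ _ _ => 0
  | .rd n e => if n = 0 then 0 else min (min e (len n - e)) (eps n)

def phi (x : X) : ℝ := max x.1.dep x.1.G

def lw (x : X) : ℝ := Real.log (min x.1.wd 2)

theorem G_nonneg (x : X) : 0 ≤ x.1.G := by
  have h1 := one_le_ht x.2
  have h2 := one_le_sc (k := x.1.lab) h1
  unfold Pt.G
  apply div_nonneg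
  · have : 1 ≤ min (sc x.1.lab x.1.ht) 2 := le_min h2 (by norm_num)
    linarith
  · linarith

theorem G_le (x : X) : x.1.G ≤ 1 / 8 := by
  have h1 := one_le_ht x.2
  unfold Pt.G
  rw [div_le_div_iff₀ (by linarith) (by norm_num)]
  have : min (sc x.1.lab x.1.ht) 2 ≤ 2 := min_le_right _ _
  linarith

theorem G_lip (x y : X) : |x.1.G - y.1.G| ≤ jX x y := by
  refine le_trans ?_ (jj_le_jX x y)
  have key : ∀ x y : X, x.1.G - y.1.G ≤ D x.1.lab x.1.ht y.1.lab y.1.ht / (4 * x.1.ht) := by
    intro x y
    have hp := one_le_ht x.2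
    have hq := one_le_ht y.2
    have hd := abs_sub_le_D x.1.lab x.1.ht y.1.lab y.1.ht
    have hs : |sc x.1.lab x.1.ht - sc y.1.lab y.1.ht| ≤ D x.1.lab x.1.ht y.1.lab y.1.ht := by
      unfold D
      have := hg_nonneg (k := x.1.lab) (l := y.1.lab) (ec_nonneg x.1.lab x.1.ht)
        (ec_nonneg y.1.lab y.1.ht)
      linarith
    have hb2 := sc_le y.1.lab y.1.ht
    unfold Pt.G
    set p := x.1.ht
    set q := y.1.ht
    set s := sc x.1.lab p
    set s' := sc y.1.lab q
    set d := D x.1.lab p y.1.lab q
    have hm : |min s 2 - min s' 2| ≤ d := by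
      have := abs_min_sub_min_le_max s 2 s' 2
      rw [sub_self, abs_zero, max_eq_left (abs_nonneg _)] at this
      linarith
    set a := min s 2
    set b := min s' 2
    have hb : b - 1 ≤ q := by
      have : b ≤ s' := min_le_left _ _
      linarith
    have hb0 : 0 ≤ b - 1 := by
      have : 1 ≤ b := le_min (one_le_sc hq) (by norm_num)
      linarith
    have hd' := abs_le.1 hd
    have hm' := abs_le.1 hm
    have e1 : (a - 1) / (8 * p) - (b - 1) / (8 * q) =
      ((a - b) + (b - 1) / q * (q - p)) / (8 * p) := by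
      have : p ≠ 0 := by linarith
      have : q ≠ 0 := by linarith
      field_simp
      ring
    rw [e1]
    have hd0 : 0 ≤ d := (abs_nonneg _).trans hd
    have e2 : (b - 1) / q ≤ 1 := by rw [div_le_one (by linarith)]; exact hb
    have e3 : 0 ≤ (b - 1) / q := div_nonneg hb0 (by linarith)
    have e4 : (b - 1) / q * (q - p) ≤ d := by
      calc (b - 1) / q * (q - p) ≤ (b - 1) / q * d :=
            mul_le_mul_of_nonneg_left (by linarith [hd'.1]) e3
        _ ≤ 1 * d := mul_le_mul_of_nonneg_right e2 hd0
        _ = d := one_mul d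
    have e5 : (a - b) + (b - 1) / q * (q - p) ≤ 2 * d := by linarith [hm'.2]
    calc ((a - b) + (b - 1) / q * (q - p)) / (8 * p) ≤ (2 * d) / (8 * p) :=
          div_le_div_of_nonneg_right e5 (by linarith)
      _ = d / (4 * p) := by
          have : p ≠ 0 := by linarith
          field_simp; ring
  -- comparison with the logarithm
  have fin : ∀ x y : X, x.1.G - y.1.G ≤ jj x y := by
    intro x y
    have hp := one_le_ht x.2
    have k1 := key x y
    have k2 := G_le x
    have k3 := G_nonneg y
    have hw : x.1.wd ≤ 2 * x.1.ht := by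
      have := wd_le_wp x.2
      have h3 : wp x.1.ht ≤ x.1.ht + 1 := wp_le_add hp
      linarith
    set d := D x.1.lab x.1.ht y.1.lab y.1.ht with hd
    have hd0 : 0 ≤ d := D_nonneg _ _ _ _
    have hm : 0 < min x.1.wd y.1.wd := lt_min (wd_pos x.2) (wd_pos y.2)
    have hz : d / (2 * x.1.ht) ≤ max d |x.1.wd - y.1.wd| / min x.1.wd y.1.wd := by
      apply div_le_div₀ (hd0.trans (le_max_left _ _)) (le_max_left _ _) hm
      exact (min_le_left _ _).trans hw
    set z := d / (2 * x.1.ht) with hz'
    have hz0 : 0 ≤ z := by apply div_nonneg hd0; linarith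
    have h1 : Real.log (1 + z) ≤ jj x y := by
      unfold jj jd
      apply Real.log_le_log (by linarith)
      linarith
    have h2 : x.1.G - y.1.G ≤ z / 2 := by
      have : d / (4 * x.1.ht) = z / 2 := by rw [hz']; have : x.1.ht ≠ 0 := by linarith
                                            field_simp; ring
      linarith
    rcases le_total z 1 with h | h
    · have h3 : z / 2 ≤ Real.log (1 + z) := by
        have h := Real.one_sub_inv_le_log_of_pos (show 0 < 1 + z by linarith)
        have h2 : z / 2 ≤ 1 - (1 + z)⁻¹ := by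
          rw [le_sub_comm, inv_le_iff_one_le_mul₀ (by linarith)]
          nlinarith
        linarith
      linarith
    · have h3 : Real.log 2 ≤ Real.log (1 + z) := Real.log_le_log (by norm_num) (by linarith)
      have := Real.log_two_gt_d9
      linarith
  rw [abs_le]
  constructor
  · have := fin y x
    have e : jj y x = jj x y := by unfold jj; rw [D_comm, abs_sub_comm, jd_comm]
    linarith
  · exact fin x y

theorem dep_nonneg (x : X) : 0 ≤ x.1.dep := by
  obtain ⟨x, hx⟩ := x
  cases x with
  | bk k p w => exact le_rfl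
  | rd n e =>
    show 0 ≤ if n = 0 then 0 else min (min e (len n - e)) (eps n)
    split_ifs
    · exact le_rfl
    · exact le_min (le_min hx.1 (by linarith [hx.2])) (eps_pos n).le

/-- The untruncated depth in a shortcut. -/
def Pt.raw : Pt → ℝ
  | .bk _ _ _ => 0
  | .rd n e => if n = 0 then 0 else min e (len n - e)

theorem g_le_of_ne {n : ℕ} (y : X) (h : ∀ e he, y ≠ rd n e he) : y.1.g n ≤ ex_t n := by
  obtain ⟨y, hy⟩ := y
  cases y with
  | bk k p w => exact le_rfl
  | rd m e =>
    have hmn : m ≠ n := by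
      rintro rfl
      exact h e hy rfl
    have h1 := hy.1
    have h2 := hy.2
    show (if m = 0 then min e (ex_t n) else if m = n then ex_t n + min e (len m - e)
      else if m < n then ex_t n else max (ex_t m - e) (ex_t n - (len m - e))) ≤ ex_t n
    rw [if_neg hmn]
    split_ifs with h3 h4
    · exact min_le_right _ _
    · exact le_rfl
    · apply max_le
      · have : ex_t m ≤ ex_t n := ex_t_anti (by omega)
        linarith
      · linarith

theorem g_rd {n : ℕ} {e : ℝ} (hn : n ≠ 0) : Pt.g n (.rd n e) = ex_t n + min e (len n - e) := by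
  simp [Pt.g, hn]

/-- If `y` is not on the shortcut of `x` then the raw depth of `x` is at most the distance. -/
theorem raw_le {n : ℕ} {e : ℝ} (hn : n ≠ 0) (he) (y : X) (h : ∀ e he, y ≠ rd n e he) :
    min e (len n - e) ≤ jX (rd n e he) y := by
  have h1 := g_lip hn (rd n e he) y
  have h2 := g_le_of_ne y h
  have h3 : (rd n e he).1.g n = ex_t n + min e (len n - e) := g_rd hn
  have h4 := le_abs_self ((rd n e he).1.g n - y.1.g n)
  linarith

theorem dep_lip (x y : X) : |x.1.dep - y.1.dep| ≤ jX x y := by
  have key : ∀ x y : X, x.1.dep - y.1.dep ≤ jX x y := by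
    intro x y
    have hy0 := dep_nonneg y
    have hj := jX_nonneg x y
    obtain ⟨x, hx⟩ := x
    cases x with
    | bk k p w =>
      show 0 - y.1.dep ≤ _
      linarith
    | rd n e =>
      by_cases hn : n = 0
      · subst hn
        show 0 - y.1.dep ≤ _
        linarith
      · have hd : Pt.dep (.rd n e) = min (min e (len n - e)) (eps n) := by
          simp only [Pt.dep]; rw [if_neg hn]
        by_cases hy : ∀ e he, y ≠ rd n e he
        · have h1 := raw_le hn hx y hy
          have h2 : min (min e (len n - e)) (eps n) ≤ min e (len n - e) := min_le_left _ _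
          show Pt.dep (.rd n e) - y.1.dep ≤ _
          rw [hd]
          change min e (len n - e) ≤ jX ⟨.rd n e, hx⟩ y at h1
          linarith
        · push Not at hy
          obtain ⟨e', he', rfl⟩ := hy
          have h1 := g_lip hn ⟨.rd n e, hx⟩ (rd n e' he')
          have h3 : (rd n e' he').1.g n = ex_t n + min e' (len n - e') := g_rd hn
          have h4 : Pt.g n (.rd n e) = ex_t n + min e (len n - e) := g_rd hn
          have h5 : Pt.dep (.rd n e') = min (min e' (len n - e')) (eps n) := by
            simp only [Pt.dep]; rw [if_neg hn]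
          show Pt.dep (.rd n e) - Pt.dep (.rd n e') ≤ _
          rw [hd, h5]
          change |Pt.g n (.rd n e) - (rd n e' he').1.g n| ≤ _ at h1
          rw [h3, h4] at h1
          have h6 := abs_min_sub_min_le_max (min e (len n - e)) (eps n) (min e' (len n - e')) (eps n)
          rw [sub_self, abs_zero, max_eq_left (abs_nonneg _)] at h6
          have h7 := le_abs_self (min (min e (len n - e)) (eps n) - min (min e' (len n - e')) (eps n))
          rw [show ex_t n + min e (len n - e) - (ex_t n + min e' (len n - e'))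
            = min e (len n - e) - min e' (len n - e') by ring] at h1
          linarith
  rw [abs_le]
  constructor
  · have := key y x
    rw [jX_comm] at this
    linarith
  · exact key x y

theorem phi_nonneg (x : X) : 0 ≤ phi x := (dep_nonneg x).trans (le_max_left _ _)

theorem phi_lip (x y : X) : |phi x - phi y| ≤ jX x y := by
  unfold phi
  refine (abs_max_sub_max_le_max _ _ _ _).trans ?_
  exact max_le (dep_lip x y) (G_lip x y)

theorem lw_lip (x y : X) : |lw x - lw y| ≤ jX x y := by
  refine le_trans ?_ (log_wd_lip x y)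
  unfold lw
  have hx := wd_pos x.2
  have hy := wd_pos y.2
  have hx2 : Real.log (min x.1.wd 2) = min (Real.log x.1.wd) (Real.log 2) := by
    rcases le_total x.1.wd 2 with h | h
    · rw [min_eq_left h, min_eq_left (Real.log_le_log hx h)]
    · rw [min_eq_right h, min_eq_right (Real.log_le_log (by norm_num) h)]
  have hy2 : Real.log (min y.1.wd 2) = min (Real.log y.1.wd) (Real.log 2) := by
    rcases le_total y.1.wd 2 with h | h
    · rw [min_eq_left h, min_eq_left (Real.log_le_log hy h)]
    · rw [min_eq_right h, min_eq_right (Real.log_le_log (by norm_num) h)]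
  rw [hx2, hy2]
  have := abs_min_sub_min_le_max (Real.log x.1.wd) (Real.log 2) (Real.log y.1.wd) (Real.log 2)
  rw [sub_self, abs_zero, max_eq_left (abs_nonneg _)] at this
  exact this

/-- The compact metric. -/
def dc (x y : X) : ℝ :=
  max (max |x.1.mu - y.1.mu| |lw x - lw y|) (min (jX x y) (phi x + phi y))

theorem dc_le_jX (x y : X) : dc x y ≤ jX x y :=
  max_le (max_le (mu_lip x y) (lw_lip x y)) (min_le_left _ _)

theorem dc_self (x : X) : dc x x = 0 := by
  apply le_antisymm
  · have := dc_le_jX x x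
    rwa [jX_self] at this
  · exact le_trans (abs_nonneg _) ((le_max_left _ _).trans (le_max_left _ _))

theorem dc_comm (x y : X) : dc x y = dc y x := by
  unfold dc
  rw [abs_sub_comm, abs_sub_comm (lw x), jX_comm, add_comm]

theorem min_tri (x y z : X) : min (jX x z) (phi x + phi z) ≤
    min (jX x y) (phi x + phi y) + min (jX y z) (phi y + phi z) := by
  have h1 := jX_tri x y z
  have h2 := abs_le.1 (phi_lip x y)
  have h3 := abs_le.1 (phi_lip y z)
  have h4 := phi_nonneg x
  have h5 := phi_nonneg y
  have h6 := phi_nonneg z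
  rcases min_cases (jX x y) (phi x + phi y) with h7 | h7 <;>
    rcases min_cases (jX y z) (phi y + phi z) with h8 | h8 <;>
    rw [h7.1, h8.1]
  · exact (min_le_left _ _).trans h1
  · exact (min_le_right _ _).trans (by linarith [h2.1, h2.2])
  · exact (min_le_right _ _).trans (by linarith [h3.1, h3.2])
  · exact (min_le_right _ _).trans (by linarith)

theorem dc_tri (x y z : X) : dc x z ≤ dc x y + dc y z := by
  unfold dc
  have h1 := min_tri x y z
  have h2 := abs_sub_le x.1.mu y.1.mu z.1.mu
  have h3 := abs_sub_le (lw x) (lw y) (lw z)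
  set A := max |x.1.mu - y.1.mu| |lw x - lw y|
  set A' := max |y.1.mu - z.1.mu| |lw y - lw z|
  set C := min (jX x y) (phi x + phi y)
  set C' := min (jX y z) (phi y + phi z)
  have a1 : A ≤ max A C := le_max_left _ _
  have a2 : C ≤ max A C := le_max_right _ _
  have a3 : A' ≤ max A' C' := le_max_left _ _
  have a4 : C' ≤ max A' C' := le_max_right _ _
  have b1 : |x.1.mu - y.1.mu| ≤ A := le_max_left _ _
  have b2 : |lw x - lw y| ≤ A := le_max_right _ _
  have b3 : |y.1.mu - z.1.mu| ≤ A' := le_max_left _ _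
  have b4 : |lw y - lw z| ≤ A' := le_max_right _ _
  apply max_le (max_le _ _)
  · linarith
  · linarith
  · linarith

instance instPMS : PseudoMetricSpace X where
  dist := dc
  dist_self := dc_self
  dist_comm := dc_comm
  dist_triangle := dc_tri

theorem dist_def' (x y : X) : dist x y = dc x y := rfl

theorem dc_nonneg (x y : X) : 0 ≤ dc x y := dist_nonneg (x := x) (y := y)

/-- `phi` is 1-Lipschitz for the compact metric. -/
theorem phi_lip_dc (x y : X) : |phi x - phi y| ≤ dc x y := by
  have h1 := phi_lip x y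
  have h4 := phi_nonneg x
  have h5 := phi_nonneg y
  refine le_trans ?_ (le_max_right _ _)
  apply le_min h1
  rw [abs_le]; constructor <;> linarith

theorem jX_le_dc_of_lt {x y : X} (h : dc x y < phi x) : jX x y ≤ dc x y := by
  have h2 : min (jX x y) (phi x + phi y) ≤ dc x y := le_max_right _ _
  have h3 := phi_nonneg y
  rcases min_cases (jX x y) (phi x + phi y) with h7 | h7
  · rw [h7.1] at h2; exact h2
  · rw [h7.1] at h2; linarith

/-- The retraction onto the zero set of `phi`. -/
def bX (x : X) : X :=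
  match x with
  | ⟨.bk k p w, h⟩ => bk 0 1 (min w 2) (by
      have hw : 1 ≤ w := h.1.trans h.2.1
      refine ⟨le_rfl, le_min hw (by norm_num), ?_⟩
      have : min w 2 ≤ 2 := min_le_right _ _
      linarith)
  | ⟨.rd n e, h⟩ => rd 0 (Pt.mu (.rd n e)) (by
      rw [len_zero]
      simp only [Pt.mu]
      have h1 := h.1
      have h2 := h.2
      split_ifs with hn
      · subst hn
        rw [len_zero] at h2
        exact ⟨h1, h2⟩
      · exact ⟨le_min (by linarith [ex_t_pos n]) tau_pos.le, min_le_right _ _⟩)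

theorem mu_bX (x : X) : (bX x).1.mu = x.1.mu := by
  obtain ⟨x, hx⟩ := x
  cases x with
  | bk k p w => rfl
  | rd n e =>
    show (if (0:ℕ) = 0 then Pt.mu (.rd n e) else min (ex_t 0 + Pt.mu (.rd n e)) tau) = _
    rw [if_pos rfl]

theorem two_le_wd_rd {n : ℕ} {e : ℝ} (h : Pt.V (.rd n e)) : 2 ≤ Pt.wd (.rd n e) :=
  two_le_wp (one_le_ht h)

theorem lw_bX (x : X) : lw (bX x) = lw x := by
  obtain ⟨x, hx⟩ := x
  cases x with
  | bk k p w =>
    show Real.log (min (min w 2) 2) = Real.log (min w 2)
    rw [min_assoc, min_self]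
  | rd n e =>
    unfold lw
    have h1 := two_le_wd_rd hx
    have h2 := two_le_wd_rd (bX ⟨.rd n e, hx⟩).2
    change 2 ≤ (bX ⟨.rd n e, hx⟩).1.wd at h2
    show Real.log (min (bX ⟨.rd n e, hx⟩).1.wd 2) = Real.log (min (Pt.wd (.rd n e)) 2)
    rw [min_eq_right h1, min_eq_right h2]

theorem phi_bX (x : X) : phi (bX x) = 0 := by
  obtain ⟨x, hx⟩ := x
  cases x with
  | bk k p w =>
    show max 0 ((min (sc 0 1) 2 - 1) / (8 * 1)) = 0
    rw [sc_zero, min_eq_left (by norm_num)]
    norm_num
  | rd n e =>
    show max (if (0:ℕ) = 0 then 0 else min (min (Pt.mu (.rd n e)) (len 0 - Pt.mu (.rd n e))) (eps 0))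
      ((min (sc 0 (Pt.ht (.rd 0 (Pt.mu (.rd n e))))) 2 - 1) /
        (8 * Pt.ht (.rd 0 (Pt.mu (.rd n e))))) = 0
    rw [if_pos rfl, sc_zero, ht_rd_zero, min_eq_left (by norm_num)]
    norm_num

theorem dc_bX (x : X) : dc x (bX x) ≤ phi x := by
  unfold dc
  rw [mu_bX, lw_bX, phi_bX, sub_self, abs_zero, sub_self, abs_zero, add_zero, max_self]
  exact max_le (phi_nonneg x) (min_le_right _ _)

/-- Distances of points in the zero set. -/
theorem jX_rootfib {a b : ℝ} (ha : 1 ≤ a) (ha2 : a ≤ 2) (hb : 1 ≤ b) (hb2 : b ≤ 2) (h h') :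
    jX (bk 0 1 a h) (bk 0 1 b h') ≤ |Real.log a - Real.log b| := by
  apply jX_le_of
  · rw [jj_bk, D_self]
    have key : ∀ a b : ℝ, 1 ≤ a → a ≤ b → jd (max 0 |a - b|) a b ≤ |Real.log a - Real.log b| := by
      intro a b ha hab
      have h1 : Real.log a ≤ Real.log b := Real.log_le_log (by linarith) hab
      rw [abs_of_nonpos (show a - b ≤ 0 by linarith), max_eq_right (by linarith),
        abs_of_nonpos (show Real.log a - Real.log b ≤ 0 by linarith)]
      unfold jd
      rw [min_eq_left hab]
      have e : 1 + -(a - b) / a = b / a := by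
        have : a ≠ 0 := by linarith
        field_simp; ring
      rw [e, Real.log_div (by linarith) (by linarith)]
      linarith
    rcases le_total a b with hab | hab
    · exact key a b ha hab
    · rw [jd_comm, abs_sub_comm a b, abs_sub_comm (Real.log a)]
      exact key b a hb hab
  · show |tau - tau| ≤ _
    rw [sub_self, abs_zero]; positivity
  · exact rr_root ha hb ha2 hb2
  · intro m _
    show |TB m 0 1 - TB m 0 1| ≤ _
    rw [sub_self, abs_zero]; positivity
  · intro m _
    show |ex_t m - ex_t m| ≤ _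
    rw [sub_self, abs_zero]; positivity

theorem jX_bX_bX (x y : X) : jX (bX x) (bX y) ≤ max |x.1.mu - y.1.mu| |lw x - lw y| := by
  -- the mixed case
  have mixed : ∀ (n : ℕ) (e : ℝ) (hx : Pt.V (.rd n e)) (k : ℕ) (p w : ℝ) (hy : Pt.V (.bk k p w)),
      jX (bX ⟨.rd n e, hx⟩) (bX ⟨.bk k p w, hy⟩) ≤
        max |Pt.mu (.rd n e) - tau| |lw ⟨.rd n e, hx⟩ - lw ⟨.bk k p w, hy⟩| := by
    intro n e hx k p w hy
    have hw : 1 ≤ w := hy.1.trans hy.2.1
    have hb1 : 1 ≤ min w 2 := le_min hw (by norm_num)
    have hb2 : min w 2 ≤ 2 := min_le_right _ _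
    have hlw1 : lw ⟨.rd n e, hx⟩ = Real.log 2 := by
      show Real.log (min (Pt.wd (.rd n e)) 2) = _
      rw [min_eq_right (two_le_wd_rd hx)]
    have hlw2 : lw ⟨.bk k p w, hy⟩ = Real.log (min w 2) := rfl
    rw [hlw1, hlw2]
    set m' := Pt.mu (.rd n e) with hm'
    have hv : 0 ≤ m' ∧ m' ≤ len 0 := (bX ⟨.rd n e, hx⟩).2
    -- distance to the root top
    have h1 : jX (rd 0 m' hv) (bk 0 1 (wp 1) (top_valid le_rfl)) ≤ |m' - tau| := by
      have a1 := jX_tri (rd 0 m' hv) (rd 0 (len 0) (rd_end_valid 0)) (bk 0 1 (wp 1) (top_valid le_rfl))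
      rw [jX_root] at a1
      have a2 := jX_rd (n := 0) hv (rd_end_valid 0)
      have a3 : |m' - len 0| = |m' - tau| := by rw [len_zero]
      linarith
    have hv2 : 1 ≤ (1:ℝ) ∧ 1 ≤ (2:ℝ) ∧ 1 * ((2:ℝ) - 1) ≤ 1 := by norm_num
    have hv3 : 1 ≤ (1:ℝ) ∧ 1 ≤ min w 2 ∧ 1 * (min w 2 - 1) ≤ 1 := ⟨le_rfl, hb1, by linarith⟩
    have h2 := jX_rootfib (a := 2) (b := min w 2) (by norm_num) le_rfl hb1 hb2 hv2 hv3
    have hxx : bX ⟨.rd n e, hx⟩ = rd 0 m' hv := rfl
    have hyy : bX ⟨.bk k p w, hy⟩ = bk 0 1 (min w 2) hv3 := rfl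
    rw [hxx, hyy]
    have hht : Pt.ht (.rd 0 m') = 1 := ht_rd_zero _
    have hwd : Pt.wd (.rd 0 m') = 2 := by
      show wp (Pt.ht (.rd 0 m')) = 2
      rw [hht, wp_one]
    apply jX_le_of
    · have h3 : jj (rd 0 m' hv) (bk 0 1 (min w 2) hv3) = jj (bk 0 1 2 hv2) (bk 0 1 (min w 2) hv3) := by
        show jd (max (D 0 (Pt.ht (.rd 0 m')) 0 1) |Pt.wd (.rd 0 m') - min w 2|) (Pt.wd (.rd 0 m')) _ = _
        rw [hht, hwd]; rfl
      rw [h3]
      exact (jj_le_jX _ _).trans (h2.trans (le_max_right _ _))
    · have h4 := mu_lip (rd 0 m' hv) (bk 0 1 (wp 1) (top_valid le_rfl))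
      exact h4.trans (h1.trans (le_max_left _ _))
    · have h3 := rr_lip (bk 0 1 2 hv2) (bk 0 1 (min w 2) hv3)
      show |rr (Pt.ht (.rd 0 m')) (Pt.wd (.rd 0 m')) - rr 1 (min w 2)| ≤ _
      rw [hht, hwd]
      exact h3.trans (h2.trans (le_max_right _ _))
    · intro m hm
      have h4 := Q_lip hm (rd 0 m' hv) (bk 0 1 (wp 1) (top_valid le_rfl))
      exact h4.trans (h1.trans (le_max_left _ _))
    · intro m hm
      have h4 := g_lip hm (rd 0 m' hv) (bk 0 1 (wp 1) (top_valid le_rfl))
      exact h4.trans (h1.trans (le_max_left _ _))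
  obtain ⟨x, hx⟩ := x
  obtain ⟨y, hy⟩ := y
  cases x with
  | bk k p w =>
    cases y with
    | bk l q v =>
      have hw : 1 ≤ w := hx.1.trans hx.2.1
      have hv : 1 ≤ v := hy.1.trans hy.2.1
      exact (jX_rootfib (le_min hw (by norm_num)) (min_le_right _ _) (le_min hv (by norm_num))
        (min_le_right _ _) _ _).trans (le_max_right _ _)
    | rd n e =>
      have := mixed n e hy k p w hx
      rw [jX_comm, abs_sub_comm (Pt.mu (.bk k p w)), abs_sub_comm (lw _)]
      exact this
  | rd n e =>
    cases y with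
    | bk k p w => exact mixed n e hx k p w hy
    | rd m e' => exact (jX_rd _ _).trans (le_max_left _ _)

theorem jX_bX_of_phi_zero {x : X} (h : phi x = 0) : jX x (bX x) = 0 := by
  have h1 : x.1.dep ≤ 0 := by rw [← h]; exact le_max_left _ _
  have h2 : x.1.G ≤ 0 := by rw [← h]; exact le_max_right _ _
  have hht := one_le_ht x.2
  have hs : sc x.1.lab x.1.ht ≤ 1 := by
    by_contra hc
    push Not at hc
    have h3 : 1 < min (sc x.1.lab x.1.ht) 2 := lt_min hc (by norm_num)
    have h4 : 0 < x.1.G := by
      unfold Pt.G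
      apply div_pos <;> linarith
    linarith
  obtain ⟨x, hx⟩ := x
  cases x with
  | bk k p w =>
    change sc k p ≤ 1 at hs
    change 1 ≤ p at hht
    have hp : p = 1 := by
      by_cases hk : k = 0
      · subst hk; rw [sc_zero] at hs; linarith
      · unfold sc at hs
        rw [if_neg hk] at hs
        rcases min_le_iff.1 hs with h | h
        · linarith
        · linarith [bt_gt k]
    subst hp
    have hw : w ≤ 2 := by
      have := hx.2.2
      linarith
    have e : bX ⟨.bk k 1 w, hx⟩ = bk 0 1 w hx := by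
      have : min w 2 = w := min_eq_left hw
      apply Subtype.ext
      show Pt.bk 0 1 (min w 2) = Pt.bk 0 1 w
      rw [this]
    rw [e]
    exact jX_spine hx (bt_gt k).le
  | rd n e =>
    by_cases hn : n = 0
    · subst hn
      have e1 : bX ⟨.rd 0 e, hx⟩ = ⟨.rd 0 e, hx⟩ := by
        apply Subtype.ext
        show Pt.rd 0 (if (0:ℕ) = 0 then e else min (ex_t 0 + e) tau) = Pt.rd 0 e
        rw [if_pos rfl]
      rw [e1, jX_self]
    · change (if n = 0 then 0 else min (min e (len n - e)) (eps n)) ≤ 0 at h1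
      rw [if_neg hn] at h1
      have he := hx.1
      have he2 := hx.2
      rcases min_le_iff.1 h1 with h3 | h3
      · rcases min_le_iff.1 h3 with h4 | h4
        · have e0 : e = 0 := le_antisymm h4 he
          subst e0
          have e1 : bX ⟨.rd n 0, hx⟩ = rd 0 (ex_t n) (rd_exit_valid n) := by
            apply Subtype.ext
            show Pt.rd 0 (if n = 0 then 0 else min (ex_t n + 0) tau) = Pt.rd 0 (ex_t n)
            rw [if_neg hn, add_zero, min_eq_left (ex_t_lt_tau n).le]
          rw [e1]
          exact jX_start hn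
        · exfalso
          have e0 : e = len n := by linarith
          change sc 0 (Pt.ht (.rd n e)) ≤ 1 at hs
          rw [sc_zero] at hs
          have hT := T_ht_rd (e := e) hn
          have h5 : T (Pt.ht (.rd n e)) ≤ tau :=
            T_le_T (by linarith [one_le_ht hx]) hs
          rw [hT, e0, len_eq hn] at h5
          have h6 : T (ld n) ≤ tau := by
            refine le_trans ?_ h5
            refine le_trans ?_ (le_max_right _ _)
            linarith
          have h7 : tau < T (ld n) := T_lt_T (by norm_num) (ld_gt n)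
          linarith
      · linarith [eps_pos n]

/-- On the zero set of `phi`, both metrics agree. -/
theorem jX_le_dc_of_phi_zero {x y : X} (hx : phi x = 0) (hy : phi y = 0) : jX x y ≤ dc x y := by
  have h1 := jX_tri x (bX x) y
  have h2 := jX_tri (bX x) (bX y) y
  rw [jX_bX_of_phi_zero hx] at h1
  have h3 := jX_bX_of_phi_zero hy
  rw [jX_comm] at h3
  rw [h3] at h2
  have h4 := jX_bX_bX x y
  have h5 : max |x.1.mu - y.1.mu| |lw x - lw y| ≤ dc x y := le_max_left _ _
  linarith

theorem jX_eq_zero_of_dc {x y : X} (h : dc x y = 0) : jX x y = 0 := by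
  have h2 : min (jX x y) (phi x + phi y) ≤ 0 := by rw [← h]; exact le_max_right _ _
  rcases min_le_iff.1 h2 with h3 | h3
  · exact le_antisymm h3 (jX_nonneg _ _)
  · have hx := phi_nonneg x
    have hy := phi_nonneg y
    have := jX_le_dc_of_phi_zero (x := x) (y := y) (by linarith) (by linarith)
    rw [h] at this
    exact le_antisymm this (jX_nonneg _ _)

end

end Pool.H67.LC
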