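import Pool.Agent.H67.LC.PartA

set_option autoImplicit false

namespace Pool.H67.LC

open Real Filter Topology
open scoped NNReal

noncomputable section

/-- Paths of the Lion. -/
def LP (c : ℝ → X) : Prop := PH c ∧ jX (c 0) xs = 0

/-- A winning strategy of the Christian, on the level of real paths. -/
structure CS (g : (ℝ → X) → (ℝ → X)) : Prop where
  lip : ∀ c, LP c → PH (g c)
  start : ∀ c, LP c → jX (g c 0) ys = 0
  caus : ∀ c c', LP c → LP c' → ∀ t, 0 ≤ t → (∀ s, 0 ≤ s → s ≤ t → jX (c s) (c' s) = 0) →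
    g c t = g c' t
  esc : ∀ c, LP c → ∀ t, 0 ≤ t → jX (g c t) (c t) ≠ 0

/-- Concatenation. -/
def cat (c : ℝ → X) (t : ℝ) (q : ℝ → X) (d : ℝ) (s : ℝ) : X :=
  if s ≤ t then c s else q (min (s - t) d)

theorem cat_lp {c q : ℝ → X} {t d : ℝ} (hc : LP c) (ht : 0 ≤ t) (hd : 0 ≤ d)
    (hq : ∀ s s', 0 ≤ s → s ≤ s' → s' ≤ d → jX (q s) (q s') ≤ s' - s)
    (h0 : jX (c t) (q 0) = 0) : LP (cat c t q d) := by
  refine ⟨?_, ?_⟩
  · intro s s' hs hss
    unfold cat
    split_ifs with h1 h2 h2
    · exact hc.1 s s' hs hss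
    · push Not at h2
      have e1 := jX_tri (c s) (c t) (q (min (s' - t) d))
      have e2 := jX_tri (c t) (q 0) (q (min (s' - t) d))
      have e3 := hc.1 s t hs h1
      have h3 : 0 ≤ min (s' - t) d := le_min (by linarith) hd
      have e4 := hq 0 (min (s' - t) d) le_rfl h3 (min_le_right _ _)
      have e5 := min_le_left (s' - t) d
      linarith
    · exfalso; linarith
    · push Not at h1 h2
      have h3 : 0 ≤ min (s - t) d := le_min (by linarith) hd
      have h4 : min (s - t) d ≤ min (s' - t) d := min_le_min (by linarith) le_rfl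
      have e4 := hq _ _ h3 h4 (min_le_right _ _)
      refine e4.trans ?_
      rcases min_cases (s - t) d with h | h <;> rcases min_cases (s' - t) d with h' | h' <;>
        rw [h.1, h'.1] <;> linarith [h.2, h'.2]
  · unfold cat
    rw [if_pos ht]
    exact hc.2

theorem cat_le {c q : ℝ → X} {t d s : ℝ} (h : s ≤ t) : cat c t q d s = c s := by
  unfold cat; rw [if_pos h]

theorem cat_end {c q : ℝ → X} {t d : ℝ} (hd : 0 ≤ d) (h0 : jX (c t) (q 0) = 0) :
    jX (cat c t q d (t + d)) (q d) = 0 := by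
  unfold cat
  rcases eq_or_lt_of_le hd with h | h
  · subst h
    rw [if_pos (by linarith), add_zero]
    exact h0
  · rw [if_neg (by linarith), add_sub_cancel_left, min_self, jX_self]

variable {g : (ℝ → X) → (ℝ → X)}

/-- One adaptive step of the Lion. -/
theorem step (hg : CS g) {c q : ℝ → X} {t d : ℝ} (hc : LP c) (ht : 0 ≤ t) (hd : 0 ≤ d)
    (hq : ∀ s s', 0 ≤ s → s ≤ s' → s' ≤ d → jX (q s) (q s') ≤ s' - s)
    (h0 : jX (c t) (q 0) = 0) :
    ∃ c', LP c' ∧ (∀ s, s ≤ t → c' s = c s) ∧ jX (c' (t + d)) (q d) = 0 ∧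
      g c' t = g c t ∧ jX (g c t) (g c' (t + d)) ≤ d := by
  have hl := cat_lp hc ht hd hq h0
  have hagree : g (cat c t q d) t = g c t := by
    apply hg.caus _ _ hl hc t ht
    intro s _ hs
    rw [cat_le hs, jX_self]
  refine ⟨cat c t q d, hl, fun s hs => cat_le hs, cat_end hd h0, hagree, ?_⟩
  have h := hg.lip _ hl t (t + d) ht (by linarith)
  rw [hagree] at h
  linarith

/-- Infinitely many steps. -/
theorem limit_lemma (hg : CS g) (c : ℕ → ℝ → X) (t : ℕ → ℝ) (hc : ∀ n, LP (c n))
    (ht : ∀ n, 0 ≤ t n) (hmono : ∀ n, t n ≤ t (n + 1))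
    (hag : ∀ n s, s ≤ t n → c (n + 1) s = c n s) (B : ℝ) (hB : ∀ n, t n ≤ B)
    (hlim : Tendsto (fun n => jX (c n (t n)) (g (c n) (t n))) atTop (𝓝 0)) : False := by
  classical
  have hm : Monotone t := monotone_nat_of_le_succ hmono
  have hbdd : BddAbove (Set.range t) := ⟨B, by rintro _ ⟨n, rfl⟩; exact hB n⟩
  have htl : Tendsto t atTop (𝓝 (⨆ n, t n)) := tendsto_atTop_ciSup hm hbdd
  set ts := ⨆ n, t n with hts
  have hle : ∀ n, t n ≤ ts := fun n => le_ciSup hbdd n
  have hag' : ∀ m n, m ≤ n → ∀ s, s ≤ t m → c n s = c m s := by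
    intro m n hmn
    induction n, hmn using Nat.le_induction with
    | base => intro s _; rfl
    | succ n hmn ih =>
      intro s hs
      rw [hag n s (hs.trans (hm hmn)), ih s hs]
  -- the limit position
  have hcm : ∀ m n, m ≤ n → jX (c m (t m)) (c n (t n)) ≤ t n - t m := by
    intro m n hmn
    rw [← hag' m n hmn _ le_rfl]
    exact (hc n).1 _ _ (ht m) (hm hmn)
  let v : ℕ → XJ := fun n => c n (t n)
  have hcau : CauchySeq v := by
    rw [Metric.cauchySeq_iff']
    intro ε hε
    have h1 := htl.cauchySeq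
    rw [Metric.cauchySeq_iff'] at h1
    obtain ⟨N, hN⟩ := h1 ε hε
    refine ⟨N, fun n hn => ?_⟩
    have h2 := hN n hn
    rw [Real.dist_eq, abs_of_nonneg (by linarith [hm hn])] at h2
    have h3 := hcm N n hn
    rw [jX_comm] at h3
    exact h3.trans_lt h2
  obtain ⟨z, hz⟩ := cauchySeq_tendsto_of_complete hcau
  have hz' : Tendsto (fun n => jX (c n (t n)) z) atTop (𝓝 0) := by
    have h := tendsto_iff_dist_tendsto_zero.1 hz
    exact h
  let cs : ℝ → X := fun s => if h : ∃ n, s ≤ t n then c (Nat.find h) s else z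
  have hcs1 : ∀ n s, s ≤ t n → cs s = c n s := by
    intro n s hs
    have h : ∃ n, s ≤ t n := ⟨n, hs⟩
    simp only [cs, dif_pos h]
    exact (hag' _ _ (Nat.find_min' h hs) s (Nat.find_spec h)).symm
  have hcs2 : ∀ s, (∀ n, t n < s) → cs s = z := by
    intro s hs
    have h : ¬ ∃ n, s ≤ t n := by
      push Not; exact hs
    simp only [cs, dif_neg h]
  have hph : PH cs := by
    intro s s' hs hss
    by_cases h' : ∃ n, s' ≤ t n
    · obtain ⟨n, hn⟩ := h'
      rw [hcs1 n s (hss.trans hn), hcs1 n s' hn]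
      exact (hc n).1 s s' hs hss
    · push Not at h'
      rw [hcs2 s' h']
      by_cases h : ∃ n, s ≤ t n
      · obtain ⟨n, hn⟩ := h
        have h1 : Tendsto (fun m => (s' - s) + jX (c m (t m)) z) atTop (𝓝 ((s' - s) + 0)) :=
          hz'.const_add _
        rw [add_zero] at h1
        refine ge_of_tendsto h1 ?_
        filter_upwards [Filter.eventually_ge_atTop n] with m hmn
        have h2 := hm hmn
        rw [hcs1 m s (hn.trans h2)]
        have h3 := jX_tri (c m s) (c m (t m)) z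
        have h4 := (hc m).1 s (t m) hs (hn.trans h2)
        have h5 := h' m
        linarith
      · push Not at h
        rw [hcs2 s h, jX_self]; linarith
  have hts0 : 0 ≤ ts := (ht 0).trans (hle 0)
  have hlp : LP cs := by
    refine ⟨hph, ?_⟩
    rw [hcs1 0 0 (ht 0)]
    exact (hc 0).2
  apply hg.esc cs hlp ts hts0
  apply le_antisymm _ (jX_nonneg _ _)
  have hsub : Tendsto (fun n => ts - t n) atTop (𝓝 0) := by
    have := htl.const_sub ts
    rwa [sub_self] at this
  have hfin : Tendsto (fun n => (ts - t n) + jX (c n (t n)) (g (c n) (t n)) + (ts - t n)) atTop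
      (𝓝 (0 + 0 + 0)) := (hsub.add hlim).add hsub
  rw [add_zero, add_zero] at hfin
  refine ge_of_tendsto' hfin fun n => ?_
  have hgn : g cs (t n) = g (c n) (t n) := by
    apply hg.caus _ _ hlp (hc n) _ (ht n)
    intro s _ hs
    rw [hcs1 n s hs, jX_self]
  have h1 := hg.lip cs hlp (t n) ts (ht n) (hle n)
  rw [hgn] at h1
  have h2 := hph (t n) ts (ht n) (hle n)
  rw [hcs1 n (t n) le_rfl] at h2
  have h3 := jX_tri (g cs ts) (g (c n) (t n)) (cs ts)
  have h4 := jX_tri (g (c n) (t n)) (c n (t n)) (cs ts)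
  rw [jX_comm (g cs ts) (g (c n) (t n))] at h3
  rw [jX_comm (g (c n) (t n)) (c n (t n))] at h4
  linarith

end

end Pool.H67.LC
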