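import Pool.Agent.H67.LC.Game

set_option autoImplicit false

namespace Pool.H67.LC

open Real Filter Topology

noncomputable section

/-- `(l,q)` can be reached from `(k,p)` by a 1-Lipschitz path of the tree of length `a`. -/
def Reach (a : ℝ) (k : ℕ) (p : ℝ) (l : ℕ) (q : ℝ) : Prop :=
  ∃ γ : ℝ → ℕ × ℝ, (∀ s, 0 ≤ s → s ≤ a → 1 ≤ (γ s).2) ∧
    (∀ s t, 0 ≤ s → s ≤ t → t ≤ a → D (γ s).1 (γ s).2 (γ t).1 (γ t).2 ≤ t - s) ∧
    D k p (γ 0).1 (γ 0).2 = 0 ∧ D (γ a).1 (γ a).2 l q = 0

theorem reach_up {k : ℕ} {p q : ℝ} (hp : 1 ≤ p) (hpq : p ≤ q) : Reach (q - p) k p k q := by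
  refine ⟨fun s => (k, p + s), ?_, ?_, ?_, ?_⟩
  · intro s hs _; show 1 ≤ p + s; linarith
  · intro s t _ hst _
    show D k (p + s) k (p + t) ≤ _
    rw [D_same, abs_of_nonpos (by linarith)]; linarith
  · show D k p k (p + 0) = 0
    rw [add_zero, D_self]
  · show D k (p + (q - p)) k q = 0
    rw [show p + (q - p) = q by ring, D_self]

theorem reach_down {k : ℕ} {p q : ℝ} (hq : 1 ≤ q) (hpq : q ≤ p) : Reach (p - q) k p k q := by
  refine ⟨fun s => (k, p - s), ?_, ?_, ?_, ?_⟩
  · intro s _ hs; show 1 ≤ p - s; linarith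
  · intro s t _ hst _
    show D k (p - s) k (p - t) ≤ _
    rw [D_same, abs_of_nonneg (by linarith)]; linarith
  · show D k p k (p - 0) = 0
    rw [sub_zero, D_self]
  · show D k (p - (p - q)) k q = 0
    rw [show p - (p - q) = q by ring, D_self]

theorem reach_same {k : ℕ} {p q : ℝ} (hp : 1 ≤ p) (hq : 1 ≤ q) : Reach |p - q| k p k q := by
  rcases le_total p q with h | h
  · rw [abs_of_nonpos (by linarith), neg_sub]; exact reach_up hp h
  · rw [abs_of_nonneg (by linarith)]; exact reach_down hq h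

theorem D_eq_zero_of {k : ℕ} {p : ℝ} {l : ℕ} {q : ℝ} (h : D k p l q ≤ 0) : D k p l q = 0 :=
  le_antisymm h (D_nonneg _ _ _ _)

theorem reach_trans {a b : ℝ} {k : ℕ} {p : ℝ} {l : ℕ} {q : ℝ} {m : ℕ} {r : ℝ} {l' : ℕ} {q' : ℝ}
    (ha : 0 ≤ a) (hb : 0 ≤ b)
    (h1 : Reach a k p l q) (h0 : D l q l' q' = 0) (h2 : Reach b l' q' m r) :
    Reach (a + b) k p m r := by
  obtain ⟨γ, g1, g2, g3, g4⟩ := h1
  obtain ⟨η, e1, e2, e3, e4⟩ := h2
  have hjoin : D (γ a).1 (γ a).2 (η 0).1 (η 0).2 = 0 := by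
    apply D_eq_zero_of
    have i1 := D_tri (γ a).1 (γ a).2 l q (η 0).1 (η 0).2
    have i2 := D_tri l q l' q' (η 0).1 (η 0).2
    linarith
  refine ⟨fun s => if s ≤ a then γ s else η (s - a), ?_, ?_, ?_, ?_⟩
  · intro s hs hsab
    dsimp only
    split_ifs with h
    · exact g1 s hs h
    · push Not at h
      exact e1 _ (by linarith) (by linarith)
  · intro s t hs hst ht
    dsimp only
    split_ifs with h h' h'
    · exact g2 s t hs hst h'
    · push Not at h'
      have i1 := D_tri (γ s).1 (γ s).2 (γ a).1 (γ a).2 (η (t - a)).1 (η (t - a)).2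
      have i2 := D_tri (γ a).1 (γ a).2 (η 0).1 (η 0).2 (η (t - a)).1 (η (t - a)).2
      have i3 := g2 s a hs h le_rfl
      have i4 := e2 0 (t - a) le_rfl (by linarith) (by linarith)
      linarith
    · exfalso; linarith
    · push Not at h h'
      have i4 := e2 (s - a) (t - a) (by linarith) (by linarith) (by linarith)
      linarith
  · dsimp only
    rw [if_pos ha]; exact g3
  · dsimp only
    split_ifs with h
    · have hb0 : b = 0 := by linarith
      subst hb0
      rw [add_zero]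
      apply D_eq_zero_of
      have i1 := D_tri (γ a).1 (γ a).2 (η 0).1 (η 0).2 m r
      linarith
    · rw [add_sub_cancel_left]
      exact e4

theorem D_sc (k : ℕ) (p : ℝ) : D k (sc k p) 0 (sc k p) = 0 := by
  by_cases hk : k = 0
  · subst hk; exact D_self _ _
  · apply D_spine
    unfold sc
    rw [if_neg hk]; exact min_le_right _ _

/-- Geodesics of the tree. -/
theorem geo {k : ℕ} {p : ℝ} {l : ℕ} {q : ℝ} (hp : 1 ≤ p) (hq : 1 ≤ q) :
    Reach (D k p l q) k p l q := by
  by_cases hkl : k = l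
  · subst hkl
    rw [D_same]
    exact reach_same hp hq
  · have e1 := sc_add_ec k p
    have e2 := sc_add_ec l q
    have e3 := ec_nonneg k p
    have e4 := ec_nonneg l q
    have s1 := one_le_sc (k := k) hp
    have s2 := one_le_sc (k := l) hq
    have r1 : Reach (p - sc k p) k p k (sc k p) := reach_down s1 (by linarith)
    have r2 : Reach |sc k p - sc l q| 0 (sc k p) 0 (sc l q) := reach_same s1 s2
    have r3 : Reach (q - sc l q) l (sc l q) l q := reach_up s2 (by linarith)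
    have r12 := reach_trans (by linarith) (abs_nonneg _) r1 (D_sc k p) r2
    have j2 : D 0 (sc l q) l (sc l q) = 0 := by rw [D_comm]; exact D_sc l q
    have r123 := reach_trans (add_nonneg (by linarith) (abs_nonneg _)) (by linarith) r12 j2 r3
    have e : D k p l q = p - sc k p + |sc k p - sc l q| + (q - sc l q) := by
      unfold D hg
      rw [if_neg hkl]
      linarith
    rw [e]
    exact r123

/-- Total version of the constructor. -/
def bk' (k : ℕ) (p w : ℝ) : X :=
  if h : 1 ≤ p ∧ p ≤ w ∧ p * (w - p) ≤ 1 then bk k p w h else xs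

theorem bk'_eq {k : ℕ} {p w : ℝ} (h : 1 ≤ p ∧ p ≤ w ∧ p * (w - p) ≤ 1) :
    bk' k p w = bk k p w h := by
  unfold bk'; rw [dif_pos h]

theorem kvalid {p w r b : ℝ} (h : 1 ≤ p ∧ p ≤ w ∧ p * (w - p) ≤ 1) (h1 : 1 ≤ r)
    (h2 : |r - p| ≤ b) (h3 : r ≤ w - b) : 1 ≤ r ∧ r ≤ w - b ∧ r * (w - b - r) ≤ 1 := by
  obtain ⟨hp, hpw, hr⟩ := h
  have h2' := abs_le.1 h2
  have hb : 0 ≤ b := (abs_nonneg _).trans h2
  refine ⟨h1, h3, ?_⟩
  rcases le_total r p with hrp | hrp
  · have e1 : r * (w - b - r) ≤ p * (w - p) := by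
      apply mul_le_mul hrp (by linarith) (by linarith) (by linarith)
    linarith
  · have e2 : w - p ≤ p := by nlinarith
    nlinarith

end

end Pool.H67.LC
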