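import Pool.Agent.H67.LC.Geo

set_option autoImplicit false

namespace Pool.H67.LC

open Real Filter Topology

noncomputable section

theorem exp_sub_one_le {x : ℝ} (h0 : 0 ≤ x) (h1 : x ≤ 1) : Real.exp x - 1 ≤ x + x ^ 2 := by
  have h := Real.abs_exp_sub_one_sub_id_le (show |x| ≤ 1 by rw [abs_of_nonneg h0]; exact h1)
  have := (abs_le.1 h).2
  linarith

/-- Arithmetic of the capture phase. -/
theorem karith {W w v d d' w' v' τ : ℝ} (hv : 1 ≤ v) (hvw : v < w) (hwW : w ≤ W)
    (hτ : 64 * W ^ 2 * τ = (w - v) ^ 2) (hd : 8 * W * d ≤ (w - v) ^ 2)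
    (hw' : w' * (1 + τ) = w) (hv' : v' ≤ v + v * (τ + τ ^ 2))
    (hd' : d' ≤ max (d - (w - w')) 0 + v * (τ + τ ^ 2)) :
    0 ≤ τ ∧ τ ≤ 1 / 64 ∧ v * (τ + τ ^ 2) ≤ (w - v) / 60 ∧ w - w' ≤ (w - v) / 60 ∧
    v' < w' ∧ 8 * W * d' ≤ (w' - v') ^ 2 := by
  have hW : 1 ≤ W := by linarith
  set δ := w - v with hδ
  have hδ0 : 0 < δ := by linarith
  have hδW : δ ≤ W := by linarith
  have hτ0 : 0 ≤ τ := by
    by_contra hc
    push Not at hc
    have : 64 * W ^ 2 * τ < 0 := by
      apply mul_neg_of_pos_of_neg _ hc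
      positivity
    nlinarith [sq_nonneg δ]
  have hτ1 : τ ≤ 1 / 64 := by
    by_contra hc
    push Not at hc
    have h1 : 64 * W ^ 2 * (1 / 64) < 64 * W ^ 2 * τ := by
      apply mul_lt_mul_of_pos_left hc; positivity
    nlinarith
  set β := W * τ with hβ
  have hβ0 : 0 ≤ β := by positivity
  have hβ1 : β ≤ δ / 64 := by
    by_contra hc
    push Not at hc
    have h1 : 64 * W * (δ / 64) < 64 * W * β := by
      apply mul_lt_mul_of_pos_left hc; positivity
    have h2 : 64 * W * β = δ ^ 2 := by rw [hβ]; linarith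
    nlinarith
  have hβ2 : 64 * W * β = δ ^ 2 := by rw [hβ]; linarith
  have hvb : v * τ ≤ β := by
    rw [hβ]; apply mul_le_mul_of_nonneg_right _ hτ0; linarith
  have hwb : w * τ ≤ β := by
    rw [hβ]; apply mul_le_mul_of_nonneg_right hwW hτ0
  set u := v * (τ + τ ^ 2) with hu
  have hu0 : 0 ≤ u := by positivity
  have hu1 : u ≤ 65 / 64 * β := by
    have e : u = (v * τ) * (1 + τ) := by rw [hu]; ring
    rw [e]
    calc (v * τ) * (1 + τ) ≤ β * (1 + τ) := mul_le_mul_of_nonneg_right hvb (by linarith)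
      _ ≤ β * (65 / 64) := mul_le_mul_of_nonneg_left (by linarith) hβ0
      _ = 65 / 64 * β := by ring
  have hw'0 : 0 < w' := by
    by_contra hc
    push Not at hc
    have : w' * (1 + τ) ≤ 0 := mul_nonpos_of_nonpos_of_nonneg hc (by linarith)
    linarith
  have hww : w - w' = w' * τ := by rw [← hw']; ring
  have hw'w : w' ≤ w := by
    have : 0 ≤ w' * τ := by positivity
    linarith
  have ha1 : w - w' ≤ β := by
    rw [hww]
    exact (mul_le_mul_of_nonneg_right hw'w hτ0).trans hwb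
  have ha2 : w * τ - w * τ ^ 2 ≤ w - w' := by
    rw [hww]
    have e : w * τ - w * τ ^ 2 = w' * τ * (1 - τ ^ 2) := by rw [← hw']; ring
    rw [e]
    have : 0 ≤ w' * τ := by positivity
    nlinarith [sq_nonneg τ]
  have hgap : δ - 2.1 * β ≤ w' - v' := by
    have : w' - v' ≥ (w - (w - w')) - (v + u) := by linarith
    have h3 : (129 : ℝ) / 64 * β ≤ 2.1 * β := by nlinarith
    linarith
  have hpos : 0 < δ - 2.1 * β := by linarith
  have hsq : (δ - 2.1 * β) ^ 2 ≤ (w' - v') ^ 2 := by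
    apply pow_le_pow_left₀ hpos.le hgap
  have hsq2 : δ ^ 2 - 4.2 * (β * δ) ≤ (δ - 2.1 * β) ^ 2 := by nlinarith [sq_nonneg β]
  refine ⟨hτ0, hτ1, ?_, ?_, by linarith, ?_⟩
  · linarith
  · linarith
  · rcases le_total 0 (d - (w - w')) with hc | hc
    · rw [max_eq_left hc] at hd'
      have e1 : u = v * τ + v * τ ^ 2 := by rw [hu]; ring
      have e2 : (w + v) * τ ^ 2 ≤ 2 * β * τ := by
        have : (w + v) * τ ^ 2 = (w * τ + v * τ) * τ := by ring
        rw [this]
        apply mul_le_mul_of_nonneg_right _ hτ0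
        linarith
      have e3 : β * τ ≤ δ / 64 * τ := mul_le_mul_of_nonneg_right hβ1 hτ0
      have e4 : d' ≤ d - 31 / 32 * (δ * τ) := by
        have : d - (w - w') + u ≤ d - (w * τ - w * τ ^ 2) + (v * τ + v * τ ^ 2) := by
          rw [e1]; linarith
        have e5 : d - (w * τ - w * τ ^ 2) + (v * τ + v * τ ^ 2) =
            d - δ * τ + (w + v) * τ ^ 2 := by rw [hδ]; ring
        nlinarith
      have e6 : 8 * W * d' ≤ 8 * W * d - 31 / 4 * (β * δ) := by
        have h1 : 8 * W * d' ≤ 8 * W * (d - 31 / 32 * (δ * τ)) :=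
          mul_le_mul_of_nonneg_left e4 (by positivity)
        have h2 : 8 * W * (d - 31 / 32 * (δ * τ)) = 8 * W * d - 31 / 4 * (β * δ) := by
          rw [hβ]; ring
        linarith
      have e7 : 0 ≤ β * δ := by positivity
      linarith
    · rw [max_eq_right hc, zero_add] at hd'
      have h1 : 8 * W * d' ≤ 8 * W * (65 / 64 * β) :=
        mul_le_mul_of_nonneg_left (hd'.trans hu1) (by positivity)
      have h2 : 8 * W * (65 / 64 * β) = 65 / 512 * δ ^ 2 := by
        rw [← hβ2]; ring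
      have h3 : β * δ ≤ δ ^ 2 / 64 := by nlinarith
      nlinarith [sq_nonneg δ]

/-- Comparison of top heights. -/
theorem wp_le_add_abs {p q : ℝ} (hp : 1 ≤ p) (hq : 1 ≤ q) : wp p ≤ wp q + |p - q| := by
  rcases le_total p q with h | h
  · have := wp_mono hp h
    have := abs_nonneg (p - q)
    linarith
  · have := wp_sub_le hq h
    rw [abs_of_nonneg (by linarith)]
    linarith

/-- States of the capture phase. -/
structure KS (g : (ℝ → X) → (ℝ → X)) (W : ℝ) where
  c : ℝ → X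
  t : ℝ
  k : ℕ
  p : ℝ
  w : ℝ
  l : ℕ
  q : ℝ
  v : ℝ
  hc : LP c
  ht : 0 ≤ t
  h : 1 ≤ p ∧ p ≤ w ∧ p * (w - p) ≤ 1
  h' : 1 ≤ q ∧ q ≤ v ∧ q * (v - q) ≤ 1
  hx : jX (c t) (bk k p w h) = 0
  hy : g c t = bk l q v h'
  hvw : v < w
  hwW : w ≤ W
  hD : 8 * W * D k p l q ≤ (w - v) ^ 2

theorem kstep {g : (ℝ → X) → (ℝ → X)} (hg : CS g) {W : ℝ} (S : KS g W) :
    ∃ S' : KS g W, (∀ s, s ≤ S.t → S'.c s = S.c s) ∧
      64 * W ^ 2 * (S'.t - S.t) = (S.w - S.v) ^ 2 ∧ S'.w * (1 + (S'.t - S.t)) = S.w := by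
  obtain ⟨c, t, k, p, w, l, q, v, hc, ht, h, h', hx, hy, hvw, hwW, hD⟩ := S
  simp only
  have hv1 : 1 ≤ v := h'.1.trans h'.2.1
  have hw1 : 1 ≤ w := by linarith
  have hW1 : 1 ≤ W := by linarith
  set τ := (w - v) ^ 2 / (64 * W ^ 2) with hτdef
  have hτ : 64 * W ^ 2 * τ = (w - v) ^ 2 := by
    rw [hτdef]; field_simp
  set w' := w / (1 + τ) with hw'def
  have hτ00 : 0 ≤ τ := by positivity
  have hw' : w' * (1 + τ) = w := by rw [hw'def]; field_simp
  set D0 := D k p l q with hD0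
  have hD00 : 0 ≤ D0 := D_nonneg _ _ _ _
  -- general arithmetic facts
  obtain ⟨_, hτ1, ku, ka, _, _⟩ := karith (d' := max (D0 - (w - w')) 0 + v * (τ + τ ^ 2))
    (v' := v + v * (τ + τ ^ 2)) hv1 hvw hwW hτ hD hw' le_rfl le_rfl
  have hDδ : D0 ≤ (w - v) / 8 := by
    by_contra hcon
    push Not at hcon
    have h1 : 8 * W * ((w - v) / 8) < 8 * W * D0 := mul_lt_mul_of_pos_left hcon (by positivity)
    have h2 : (w - v) ^ 2 ≤ W * (w - v) := by
      rw [sq]; apply mul_le_mul_of_nonneg_right <;> linarith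
    nlinarith
  obtain ⟨γ, γ1, γ2, γ3, γ4⟩ := geo (k := k) (l := l) h.1 h'.1
  rw [← hD0] at γ1 γ2 γ4
  -- amount moved
  set a : ℝ → ℝ := fun s => w - w / (1 + s) with ha
  have ha0 : ∀ s, 0 ≤ s → 0 ≤ a s := by
    intro s hs
    have : w / (1 + s) ≤ w := div_le_self (by linarith) (by linarith)
    simp only [ha]; linarith
  have hamono : ∀ s s', 0 ≤ s → s ≤ s' → a s ≤ a s' := by
    intro s s' hs hss
    have : w / (1 + s') ≤ w / (1 + s) :=
      div_le_div_of_nonneg_left (by linarith) (by linarith) (by linarith)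
    simp only [ha]; linarith
  have haτ : a τ = w - w' := rfl
  set m : ℝ → ℝ := fun s => min (a s) D0 with hm
  have hm0 : ∀ s, 0 ≤ s → 0 ≤ m s := fun s hs => le_min (ha0 s hs) hD00
  have hm1 : ∀ s, m s ≤ D0 := fun s => min_le_right _ _
  have hval : ∀ s, 0 ≤ s → s ≤ τ → 1 ≤ (γ (m s)).2 ∧ (γ (m s)).2 ≤ w - a s ∧
      (γ (m s)).2 * (w - a s - (γ (m s)).2) ≤ 1 := by
    intro s hs hsτ
    have e1 := ha0 s hs
    have e2 : a s ≤ w - w' := hamono s τ hs hsτ
    have e3 := γ2 0 (m s) le_rfl (hm0 s hs) (hm1 s)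
    have e4 := D_tri k p (γ 0).1 (γ 0).2 (γ (m s)).1 (γ (m s)).2
    have e5 := abs_sub_le_D k p (γ (m s)).1 (γ (m s)).2
    have e6 := γ2 (m s) D0 (hm0 s hs) (hm1 s) le_rfl
    have e7 := D_tri (γ (m s)).1 (γ (m s)).2 (γ D0).1 (γ D0).2 l q
    have e8 := abs_sub_le_D (γ (m s)).1 (γ (m s)).2 l q
    have e9 : m s ≤ a s := min_le_left _ _
    apply kvalid h (γ1 _ (hm0 s hs) (hm1 s))
    · rw [abs_sub_comm]; linarith
    · have e10 := (abs_le.1 e8).2
      have hqv := h'.2.1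
      rcases min_cases (a s) D0 with hc | hc
      · have : m s = a s := hc.1
        linarith
      · have : m s = D0 := hc.1
        linarith
  set Q : ℝ → X := fun s => bk' (γ (m s)).1 (γ (m s)).2 (w - a s) with hQ
  have hQlip : ∀ s s', 0 ≤ s → s ≤ s' → s' ≤ τ → jX (Q s) (Q s') ≤ s' - s := by
    intro s s' hs hss hs'
    have v1 := hval s hs (hss.trans hs')
    have v2 := hval s' (hs.trans hss) hs'
    simp only [hQ]
    rw [bk'_eq v1, bk'_eq v2]
    have e0 := hamono s s' hs hss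
    have e1 : m s ≤ m s' := min_le_min e0 le_rfl
    have e2 := γ2 (m s) (m s') (hm0 s hs) e1 (hm1 s')
    have e3 : m s' - m s ≤ a s' - a s := by
      simp only [hm]
      rcases min_cases (a s) D0 with hc | hc <;> rcases min_cases (a s') D0 with hc' | hc' <;>
        rw [hc.1, hc'.1] <;> linarith [hc.2, hc'.2]
    have e4 : w - a s' = (w - a s) - (a s' - a s) := by ring
    have v2' : 1 ≤ (γ (m s')).2 ∧ (γ (m s')).2 ≤ (w - a s) - (a s' - a s) ∧
      (γ (m s')).2 * ((w - a s) - (a s' - a s) - (γ (m s')).2) ≤ 1 := by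
      rw [← e4]; exact v2
    have e5 : bk (γ (m s')).1 (γ (m s')).2 (w - a s') v2 =
        bk (γ (m s')).1 (γ (m s')).2 ((w - a s) - (a s' - a s)) v2' := by
      unfold bk; congr 2
    rw [e5]
    refine (jX_kmove v1 v2' (by linarith) (e2.trans e3)).trans ?_
    have e6 : w - a s - (a s' - a s) = w / (1 + s') := by simp only [ha]; ring
    rw [e6]
    have e7 : a s' - a s = w / (1 + s) - w / (1 + s') := by simp only [ha]; ring
    rw [e7]
    have p1 : 0 < 1 + s := by linarith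
    have p2 : 0 < 1 + s' := by linarith
    have pw : 0 < w := by linarith
    have e8 : (w / (1 + s) - w / (1 + s')) / (w / (1 + s')) = (s' - s) / (1 + s) := by
      field_simp; ring
    rw [e8]
    apply div_le_self (by linarith) (by linarith)
  have ha00 : a 0 = 0 := by simp [ha]
  have hm00 : m 0 = 0 := by simp only [hm, ha00]; exact min_eq_left hD00
  have hstart : jX (c t) (Q 0) = 0 := by
    have v1 := hval 0 le_rfl hτ00
    have hQ0 : Q 0 = bk (γ (m 0)).1 (γ (m 0)).2 (w - a 0) v1 := by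
      simp only [hQ]; rw [bk'_eq v1]
    apply le_antisymm _ (jX_nonneg _ _)
    have e1 := jX_tri (c t) (bk k p w h) (Q 0)
    have e2 : jX (bk k p w h) (Q 0) ≤ 0 := by
      rw [hQ0]
      refine (jX_bk_le _ _).trans ?_
      rw [hm00, ha00, γ3]
      simp
    linarith
  obtain ⟨c', hc', hag, hend, hgt, hgd⟩ := step hg hc ht hτ00 hQlip hstart
  have vτ := hval τ hτ00 le_rfl
  have hQτ : Q τ = bk (γ (m τ)).1 (γ (m τ)).2 (w - a τ) vτ := by
    simp only [hQ]; rw [bk'_eq vτ]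
  have hwa : w - a τ = w' := by rw [haτ]; ring
  have vτ' : 1 ≤ (γ (m τ)).2 ∧ (γ (m τ)).2 ≤ w' ∧ (γ (m τ)).2 * (w' - (γ (m τ)).2) ≤ 1 := by
    rw [← hwa]; exact vτ
  have hQτ' : Q τ = bk (γ (m τ)).1 (γ (m τ)).2 w' vτ' := by
    rw [hQτ]; unfold bk; congr 2
  -- the Christian's new position
  rw [hy] at hgd
  have hexp := exp_sub_one_le hτ00 (by linarith)
  have hexp0 : 0 ≤ Real.exp τ - 1 := by have := Real.add_one_le_exp τ; linarith
  have hDy := D_le_of_jX hgd
  have hWy := wd_le_of_jX hgd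
  have hmin : min (bk l q v h').1.wd (g c' (t + τ)).1.wd * (Real.exp τ - 1) ≤ v * (τ + τ ^ 2) := by
    have hv0 : (0 : ℝ) ≤ v := by linarith
    exact mul_le_mul (min_le_left _ _) hexp hexp0 hv0
  have hDy' : D l q (g c' (t + τ)).1.lab (g c' (t + τ)).1.ht ≤ v * (τ + τ ^ 2) := hDy.trans hmin
  have hWy' : |v - (g c' (t + τ)).1.wd| ≤ v * (τ + τ ^ 2) := hWy.trans hmin
  have hDL : D (γ (m τ)).1 (γ (m τ)).2 l q ≤ max (D0 - (w - w')) 0 := by
    have e6 := γ2 (m τ) D0 (hm0 τ hτ00) (hm1 τ) le_rfl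
    have e7 := D_tri (γ (m τ)).1 (γ (m τ)).2 (γ D0).1 (γ D0).2 l q
    have e8 : D0 - m τ ≤ max (D0 - (w - w')) 0 := by
      simp only [hm]
      rw [haτ]
      rcases min_cases (w - w') D0 with hc | hc
      · rw [hc.1]; exact le_max_left _ _
      · rw [hc.1]; simp
    linarith
  generalize hyy : g c' (t + τ) = y' at hDy' hWy'
  obtain ⟨y', hval'⟩ := y'
  cases y' with
  | bk l' q' v' =>
    change D l q l' q' ≤ _ at hDy'
    change |v - v'| ≤ _ at hWy'
    have hv' : v' ≤ v + v * (τ + τ ^ 2) := by linarith [(abs_le.1 hWy').1]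
    have hd' : D (γ (m τ)).1 (γ (m τ)).2 l' q' ≤ max (D0 - (w - w')) 0 + v * (τ + τ ^ 2) := by
      have := D_tri (γ (m τ)).1 (γ (m τ)).2 l q l' q'
      linarith
    obtain ⟨_, _, _, _, k1, k2⟩ := karith hv1 hvw hwW hτ hD hw' hv' hd'
    have hw'W : w' ≤ W := by
      have : w' ≤ w := by rw [hw'def]; exact div_le_self (by linarith) (by linarith)
      linarith
    refine ⟨⟨c', t + τ, (γ (m τ)).1, (γ (m τ)).2, w', l', q', v', hc', by linarith, vτ', hval',
      ?_, hyy, k1, hw'W, k2⟩, hag, ?_, ?_⟩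
    · rw [← hQτ']; exact hend
    · simp only [add_sub_cancel_left]; exact hτ
    · simp only [add_sub_cancel_left]; exact hw'
  | rd n e =>
    exfalso
    have o1 : 1 ≤ Pt.ht (.rd n e) := one_le_ht hval'
    change D l q 0 (Pt.ht (.rd n e)) ≤ _ at hDy'
    change |v - wp (Pt.ht (.rd n e))| ≤ _ at hWy'
    set hh := Pt.ht (.rd n e)
    have e1 := wp_le_add_abs h.1 o1
    have e2 : w ≤ wp p := wd_le_wp (x := .bk k p w) h
    have e3 := abs_sub_le p q hh
    have e4 := abs_sub_le_D k p l q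
    have e5 := abs_sub_le_D l q 0 hh
    have e6 := (abs_le.1 hWy').1
    linarith

theorem kphase {g : (ℝ → X) → (ℝ → X)} (hg : CS g) {W : ℝ} (S0 : KS g W) : False := by
  classical
  choose f hf1 hf2 hf3 using kstep hg (W := W)
  let S : ℕ → KS g W := fun n => Nat.rec S0 (fun _ s => f s) n
  have hS : ∀ n, S (n + 1) = f (S n) := fun n => rfl
  have hW1 : 1 ≤ W := by
    have := S0.h'.1
    have := S0.h'.2.1
    have := S0.hvw
    have := S0.hwW
    linarith
  have hτ : ∀ n, 64 * W ^ 2 * ((S (n + 1)).t - (S n).t) = ((S n).w - (S n).v) ^ 2 := by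
    intro n; rw [hS]; exact hf2 (S n)
  have hw : ∀ n, (S (n + 1)).w * (1 + ((S (n + 1)).t - (S n).t)) = (S n).w := by
    intro n; rw [hS]; exact hf3 (S n)
  have hτ0 : ∀ n, 0 ≤ (S (n + 1)).t - (S n).t := by
    intro n
    have h1 := hτ n
    by_contra hc
    push Not at hc
    have : 64 * W ^ 2 * ((S (n + 1)).t - (S n).t) < 0 :=
      mul_neg_of_pos_of_neg (by positivity) hc
    nlinarith [sq_nonneg ((S n).w - (S n).v)]
  have hw1 : ∀ n, 1 ≤ (S n).w := fun n => (S n).h.1.trans (S n).h.2.1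
  have hsum : ∀ n, (S n).t + (S n).w ≤ (S 0).t + (S 0).w := by
    intro n
    induction n with
    | zero => exact le_rfl
    | succ n ih =>
      have h1 := hw n
      have h2 := hτ0 n
      have h3 := hw1 (n + 1)
      nlinarith
  have hB : ∀ n, (S n).t ≤ (S 0).t + (S 0).w := by
    intro n
    have := hsum n
    have := hw1 n
    linarith
  have hm : Monotone fun n => (S n).t := monotone_nat_of_le_succ fun n => by
    have := hτ0 n; linarith
  have hbdd : BddAbove (Set.range fun n => (S n).t) :=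
    ⟨_, by rintro _ ⟨n, rfl⟩; exact hB n⟩
  have htl := tendsto_atTop_ciSup hm hbdd
  have hd0 : Tendsto (fun n => (S (n + 1)).t - (S n).t) atTop (𝓝 0) := by
    have h1 := (htl.comp (tendsto_add_atTop_nat 1)).sub htl
    rw [sub_self] at h1
    exact h1
  have hδ0 : Tendsto (fun n => (S n).w - (S n).v) atTop (𝓝 0) := by
    have h1 : Tendsto (fun n => 64 * W ^ 2 * ((S (n + 1)).t - (S n).t)) atTop
        (𝓝 (64 * W ^ 2 * 0)) := hd0.const_mul _
    rw [mul_zero] at h1
    have h2 := h1.sqrt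
    rw [Real.sqrt_zero] at h2
    refine h2.congr fun n => ?_
    rw [hτ n, Real.sqrt_sq]
    linarith [(S n).hvw]
  apply limit_lemma hg (fun n => (S n).c) (fun n => (S n).t) (fun n => (S n).hc)
    (fun n => (S n).ht) (fun n => by have := hτ0 n; linarith)
    (fun n s hs => by
      show (S (n + 1)).c s = (S n).c s
      rw [hS]; exact hf1 (S n) s hs) _ hB
  have h3 : Tendsto (fun n => 3 * ((S n).w - (S n).v)) atTop (𝓝 (3 * 0)) := hδ0.const_mul _
  rw [mul_zero] at h3
  refine squeeze_zero (fun n => jX_nonneg _ _) (fun n => ?_) h3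
  have e1 := jX_tri ((S n).c (S n).t) (bk (S n).k (S n).p (S n).w (S n).h) (g (S n).c (S n).t)
  rw [(S n).hx, (S n).hy] at e1
  have e2 := jX_bk_le (k := (S n).k) (S n).h (l := (S n).l) (S n).h'
  have e3 : max (D (S n).k (S n).p (S n).l (S n).q) |(S n).w - (S n).v| ≤ (S n).w - (S n).v := by
    have hvw := (S n).hvw
    have hwW := (S n).hwW
    have hv1 : 1 ≤ (S n).v := (S n).h'.1.trans (S n).h'.2.1
    apply max_le
    · by_contra hcon
      push Not at hcon
      have h1 := (S n).hD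
      have h2 : 8 * W * ((S n).w - (S n).v) < 8 * W * D (S n).k (S n).p (S n).l (S n).q :=
        mul_lt_mul_of_pos_left hcon (by positivity)
      have h3 : ((S n).w - (S n).v) ^ 2 ≤ W * ((S n).w - (S n).v) := by
        rw [sq]; apply mul_le_mul_of_nonneg_right <;> linarith
      nlinarith
    · rw [abs_of_pos (by linarith)]
  rw [(S n).hy]
  linarith

end

end Pool.H67.LC
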