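import Pool.Agent.H67.LC.Pt

set_option autoImplicit false

namespace Pool.H67.LC

open Real

noncomputable section

theorem jj_bk {k : ℕ} {p w : ℝ} (h) {l : ℕ} {q v : ℝ} (h') :
    jj (bk k p w h) (bk l q v h') = jd (max (D k p l q) |w - v|) w v := rfl

theorem jX_bk_le {k : ℕ} {p w : ℝ} (h) {l : ℕ} {q v : ℝ} (h') :
    jX (bk k p w h) (bk l q v h') ≤ 3 * max (D k p l q) |w - v| := by
  set d := max (D k p l q) |w - v| with hd
  have hd0 : 0 ≤ d := (abs_nonneg _).trans (le_max_right _ _)
  have hp := h.1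
  have hq := h'.1
  have hw : 1 ≤ w := hp.trans h.2.1
  have hv : 1 ≤ v := hq.trans h'.2.1
  apply jX_le_of
  · rw [jj_bk]
    have h1 := jd_le hd0 (show 0 < w by linarith) (show 0 < v by linarith)
    have h2 : d / min w v ≤ d := div_le_self hd0 (le_min hw hv)
    linarith
  · show |tau - tau| ≤ _
    rw [sub_self, abs_zero]; positivity
  · exact rr_mod hw hv ((abs_sub_le_D k p l q).trans (le_max_left _ _)) (le_max_right _ _)
  · intro m _
    show |TB m k p - TB m l q| ≤ _
    have h1 := TB_lip m k p l q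
    have h2 := DT_le (k := k) (l := l) hp hq (le_refl (1 : ℝ)) (Or.inl le_rfl)
    rw [wp_one] at h2
    have h3 : D k p l q ≤ d := le_max_left _ _
    have h4 := D_nonneg k p l q
    linarith
  · intro m _
    show |ex_t m - ex_t m| ≤ _
    rw [sub_self, abs_zero]; positivity

theorem jX_spine {k : ℕ} {p w : ℝ} (h) (hk : p ≤ bt k) :
    jX (bk k p w h) (bk 0 p w h) = 0 := by
  apply le_antisymm _ (jX_nonneg _ _)
  refine (jX_bk_le h h).trans ?_
  rw [D_spine hk]; simp

theorem jX_top {k : ℕ} {p q : ℝ} (hp : 1 ≤ p) (hq : 1 ≤ q) :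
    jX (bk k p (wp p) (top_valid hp)) (bk k q (wp q) (top_valid hq)) ≤ |T p - T q| := by
  apply jX_le_of
  · rw [jj_bk, D_same]
    exact top_jd hp hq
  · show |tau - tau| ≤ _
    rw [sub_self, abs_zero]; positivity
  · show |rr p (wp p) - rr q (wp q)| ≤ _
    rw [rr_top hp, rr_top hq]
  · intro m _
    show |TB m k p - TB m k q| ≤ _
    have h1 := TB_lip m k p k q
    rwa [DT_same (by linarith) (by linarith)] at h1
  · intro m _
    show |ex_t m - ex_t m| ≤ _
    rw [sub_self, abs_zero]; positivity

theorem lane_valid {t : ℝ} (ht : 0 ≤ t) : 1 ≤ Real.exp t ∧ Real.exp t ≤ Real.exp t ∧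
    Real.exp t * (Real.exp t - Real.exp t) ≤ 1 := by
  refine ⟨Real.one_le_exp ht, le_rfl, ?_⟩
  simp

theorem T_exp_sub {s t : ℝ} (h : s ≤ t) : T (Real.exp t) - T (Real.exp s) ≤ t - s := by
  unfold T
  have h1 : Real.exp t ^ 2 + 1 ≤ Real.exp (2 * (t - s)) * (Real.exp s ^ 2 + 1) := by
    have e1 : Real.exp t ^ 2 = Real.exp (2 * (t - s)) * Real.exp s ^ 2 := by
      rw [← Real.exp_nat_mul, ← Real.exp_nat_mul, ← Real.exp_add]
      congr 1; push_cast; ring
    have e2 : 1 ≤ Real.exp (2 * (t - s)) := Real.one_le_exp (by linarith)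
    rw [e1]; nlinarith
  have h2 := Real.log_le_log (by positivity) h1
  rw [Real.log_mul (Real.exp_pos _).ne' (by positivity), Real.log_exp] at h2
  linarith

theorem jX_lane {k : ℕ} {s t : ℝ} (hs : 0 ≤ s) (ht : 0 ≤ t) :
    jX (bk k (Real.exp s) (Real.exp s) (lane_valid hs))
      (bk k (Real.exp t) (Real.exp t) (lane_valid ht)) ≤ |s - t| := by
  have key : ∀ s t : ℝ, ∀ hs : 0 ≤ s, ∀ ht : 0 ≤ t, s ≤ t →
      jX (bk k (Real.exp s) (Real.exp s) (lane_valid hs))
      (bk k (Real.exp t) (Real.exp t) (lane_valid ht)) ≤ |s - t| := by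
    intro s t hs ht hst
    have h1 : Real.exp s ≤ Real.exp t := Real.exp_le_exp.2 hst
    apply jX_le_of
    · rw [jj_bk, D_same, max_self, abs_of_nonpos (show Real.exp s - Real.exp t ≤ 0 by linarith)]
      unfold jd
      rw [min_eq_left h1]
      have h2 : 1 + -(Real.exp s - Real.exp t) / Real.exp s = Real.exp (t - s) := by
        rw [Real.exp_sub]
        have := (Real.exp_pos s).ne'
        field_simp
        ring
      rw [h2, Real.log_exp, abs_of_nonpos (by linarith)]
      linarith
    · show |tau - tau| ≤ _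
      rw [sub_self, abs_zero]; positivity
    · show |rr (Real.exp s) (Real.exp s) - rr (Real.exp t) (Real.exp t)| ≤ _
      rw [rr_lane, rr_lane, Real.log_exp, Real.log_exp]
    · intro m _
      show |TB m k (Real.exp s) - TB m k (Real.exp t)| ≤ _
      have h3 := TB_lip m k (Real.exp s) k (Real.exp t)
      rw [DT_same (Real.exp_pos s).le (Real.exp_pos t).le] at h3
      refine h3.trans ?_
      have h4 := T_exp_sub hst
      have h5 := T_le_T (Real.exp_pos s).le h1
      rw [abs_of_nonpos (by linarith), abs_of_nonpos (by linarith)]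
      linarith
    · intro m _
      show |ex_t m - ex_t m| ≤ _
      rw [sub_self, abs_zero]; positivity
  rcases le_total s t with h | h
  · exact key s t hs ht h
  · rw [jX_comm, abs_sub_comm]
    exact key t s ht hs h

/-- The descending diagonal move. -/
theorem jX_kmove {k l : ℕ} {p w q a : ℝ} (h) (h') (ha : 0 ≤ a) (hD : D k p l q ≤ a) :
    jX (bk k p w h) (bk l q (w - a) h') ≤ a / (w - a) := by
  have hp := h.1
  have hq := h'.1
  have hw : 1 ≤ w := hp.trans h.2.1
  have hv : 1 ≤ w - a := hq.trans h'.2.1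
  have hpq := (abs_sub_le_D k p l q).trans hD
  have hpos : 0 ≤ a / (w - a) := by apply div_nonneg ha; linarith
  apply jX_le_of
  · rw [jj_bk]
    have e1 : w - (w - a) = a := by ring
    rw [e1, abs_of_nonneg ha, max_eq_right hD]
    have h1 := jd_le ha (show 0 < w by linarith) (show 0 < w - a by linarith)
    rw [min_eq_right (by linarith)] at h1
    exact h1
  · show |tau - tau| ≤ _
    rw [sub_self, abs_zero]; exact hpos
  · exact rr_move hp h.2.1 h.2.2 hq h'.2.1 ha hpq
  · intro m _
    show |TB m k p - TB m l q| ≤ _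
    have h1 := TB_lip m k p l q
    have hg : 1 ≤ max 1 (p - D k p l q) := le_max_left _ _
    have h2 := DT_le (k := k) (l := l) hp hq hg (by
      rcases le_total 1 (p - D k p l q) with h | h
      · right; rw [max_eq_right h]
      · left; rw [max_eq_left h])
    have h3 : w - a ≤ wp (max 1 (p - D k p l q)) := by
      have h4 : max 1 (p - D k p l q) ≤ p := by
        apply max_le hp
        linarith [D_nonneg k p l q]
      have h5 := wp_sub_le hg h4
      have h6 : p - a ≤ max 1 (p - D k p l q) := le_trans (by linarith) (le_max_right _ _)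
      have h7 : w ≤ wp p := wd_le_wp (x := .bk k p w) h
      linarith
    have h8 : D k p l q / wp (max 1 (p - D k p l q)) ≤ a / (w - a) := by
      have := D_nonneg k p l q
      apply div_le_div₀ ha hD (by linarith) h3
    linarith
  · intro m _
    show |ex_t m - ex_t m| ≤ _
    rw [sub_self, abs_zero]; exact hpos

theorem len_zero : len 0 = tau := by simp [len]

theorem len_eq {n : ℕ} (hn : n ≠ 0) : len n = T (ld n) - ex_t n - bo n := by simp [len, hn]

theorem T_ht_rd {n : ℕ} {e : ℝ} (hn : n ≠ 0) :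
    T (Pt.ht (.rd n e)) = max tau (ex_t n + bo n + e) := by
  simp only [Pt.ht, if_neg hn]
  rw [T_Ti]
  exact tau_pos.le.trans (le_max_left _ _)

theorem ht_rd_zero (e : ℝ) : Pt.ht (.rd 0 e) = 1 := by simp [Pt.ht]

theorem jX_rd {n : ℕ} {e e' : ℝ} (h) (h') : jX (rd n e h) (rd n e' h') ≤ |e - e'| := by
  have v1 : 1 ≤ Pt.ht (.rd n e) := one_le_ht (x := .rd n e) h
  have v2 : 1 ≤ Pt.ht (.rd n e') := one_le_ht (x := .rd n e') h'
  have hT : |T (Pt.ht (.rd n e)) - T (Pt.ht (.rd n e'))| ≤ |e - e'| := by
    by_cases hn : n = 0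
    · subst hn
      rw [ht_rd_zero, ht_rd_zero, sub_self, abs_zero]; positivity
    · rw [T_ht_rd hn, T_ht_rd hn]
      have := abs_max_sub_max_le_max tau (ex_t n + bo n + e) tau (ex_t n + bo n + e')
      rw [sub_self, abs_zero] at this
      have e1 : ex_t n + bo n + e - (ex_t n + bo n + e') = e - e' := by ring
      rw [e1, max_eq_right (abs_nonneg (e - e'))] at this
      exact this
  apply jX_le_of
  · show jd (max (D 0 (Pt.ht (.rd n e)) 0 (Pt.ht (.rd n e'))) _) _ _ ≤ _
    rw [D_same]
    exact (top_jd v1 v2).trans hT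
  · show |(if n = 0 then e else min (ex_t n + e) tau) - (if n = 0 then e' else min (ex_t n + e') tau)| ≤ _
    split_ifs
    · exact le_rfl
    · have := abs_min_sub_min_le_max (ex_t n + e) tau (ex_t n + e') tau
      rw [sub_self, abs_zero] at this
      have e1 : ex_t n + e - (ex_t n + e') = e - e' := by ring
      rw [e1, max_eq_left (abs_nonneg _)] at this
      exact this
  · show |rr (Pt.ht (.rd n e)) (wp _) - rr (Pt.ht (.rd n e')) (wp _)| ≤ _
    rw [rr_top v1, rr_top v2]
    exact hT
  · intro m _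
    simp only [Pt.Q, rd]
    split_ifs
    · have := abs_max_sub_max_le_max e (ex_t m + bo m - |e - ex_t m|) e'
        (ex_t m + bo m - |e' - ex_t m|)
      refine this.trans (max_le le_rfl ?_)
      have e1 : ex_t m + bo m - |e - ex_t m| - (ex_t m + bo m - |e' - ex_t m|)
        = |e' - ex_t m| - |e - ex_t m| := by ring
      rw [e1]
      refine (abs_abs_sub_abs_le_abs_sub _ _).trans ?_
      rw [show e' - ex_t m - (e - ex_t m) = -(e - e') by ring, abs_neg]
    · have := abs_max_sub_max_le_max (ex_t n + bo m - e) (ex_t n + bo n + e)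
        (ex_t n + bo m - e') (ex_t n + bo n + e')
      refine this.trans (max_le ?_ ?_)
      · rw [show ex_t n + bo m - e - (ex_t n + bo m - e') = -(e - e') by ring, abs_neg]
      · rw [show ex_t n + bo n + e - (ex_t n + bo n + e') = e - e' by ring]
    · have := abs_min_sub_min_le_max (ex_t n + e) (2 * T (bt m) - T (ld n) + (len n - e))
        (ex_t n + e') (2 * T (bt m) - T (ld n) + (len n - e'))
      refine this.trans (max_le ?_ ?_)
      · rw [show ex_t n + e - (ex_t n + e') = e - e' by ring]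
      · rw [show 2 * T (bt m) - T (ld n) + (len n - e) - (2 * T (bt m) - T (ld n) + (len n - e'))
          = -(e - e') by ring, abs_neg]
  · intro m _
    simp only [Pt.g, rd]
    split_ifs
    · have := abs_min_sub_min_le_max e (ex_t m) e' (ex_t m)
      rw [sub_self, abs_zero, max_eq_left (abs_nonneg _)] at this
      exact this
    · have := abs_min_sub_min_le_max e (len n - e) e' (len n - e')
      rw [show ex_t m + min e (len n - e) - (ex_t m + min e' (len n - e'))
        = min e (len n - e) - min e' (len n - e') by ring]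
      refine this.trans (max_le le_rfl ?_)
      rw [show len n - e - (len n - e') = -(e - e') by ring, abs_neg]
    · rw [sub_self, abs_zero]; positivity
    · have := abs_max_sub_max_le_max (ex_t n - e) (ex_t m - (len n - e)) (ex_t n - e')
        (ex_t m - (len n - e'))
      refine this.trans (max_le ?_ ?_)
      · rw [show ex_t n - e - (ex_t n - e') = -(e - e') by ring, abs_neg]
      · rw [show ex_t m - (len n - e) - (ex_t m - (len n - e')) = e - e' by ring]

theorem ex_t_lt_tau (n : ℕ) : ex_t n < tau := by linarith [ex_t_le' n, tau_gt]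

theorem rd_start_valid (n : ℕ) : 0 ≤ (0 : ℝ) ∧ (0 : ℝ) ≤ len n := ⟨le_rfl, by linarith [len_pos n]⟩

theorem rd_exit_valid (n : ℕ) : 0 ≤ ex_t n ∧ ex_t n ≤ len 0 :=
  ⟨(ex_t_pos n).le, by rw [len_zero]; exact (ex_t_lt_tau n).le⟩

theorem rd_end_valid (n : ℕ) : 0 ≤ len n ∧ len n ≤ len n := ⟨by linarith [len_pos n], le_rfl⟩

/-- Junction main road / shortcut. -/
theorem jX_start {n : ℕ} (hn : n ≠ 0) :
    jX (rd n 0 (rd_start_valid n)) (rd 0 (ex_t n) (rd_exit_valid n)) = 0 := by
  apply le_antisymm _ (jX_nonneg _ _)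
  have hb : ex_t n + bo n ≤ tau := by
    linarith [ex_t_le' n, tau_gt, bo_le n]
  have hht : Pt.ht (.rd n 0) = 1 := by
    simp only [Pt.ht, if_neg hn, add_zero]
    rw [max_eq_left hb]
    unfold tau
    exact Ti_T (by norm_num)
  apply jX_le_of
  · show jd (max (D 0 (Pt.ht (.rd n 0)) 0 (Pt.ht (.rd 0 (ex_t n)))) |wp (Pt.ht (.rd n 0)) -
      wp (Pt.ht (.rd 0 (ex_t n)))|) _ _ ≤ _
    rw [hht, ht_rd_zero, D_same]
    simp [jd]
  · show |(if n = 0 then 0 else min (ex_t n + 0) tau) - (if (0:ℕ) = 0 then ex_t n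
      else min (ex_t 0 + ex_t n) tau)| ≤ _
    rw [if_neg hn, if_pos rfl, add_zero, min_eq_left (ex_t_lt_tau n).le, sub_self, abs_zero]
  · show |rr (Pt.ht (.rd n 0)) (wp (Pt.ht (.rd n 0))) - rr (Pt.ht (.rd 0 (ex_t n)))
      (wp (Pt.ht (.rd 0 (ex_t n))))| ≤ _
    rw [hht, ht_rd_zero, sub_self, abs_zero]
  · intro m hm
    simp only [Pt.Q, rd, if_neg hn, if_true]
    by_cases hmn : m ≤ n
    · rw [if_pos hmn]
      have h1 := ex_t_anti hmn
      have h2 := bo_anti hmn
      have h3 := bo_pos m
      rw [abs_of_nonpos (show ex_t n - ex_t m ≤ 0 by linarith),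
        max_eq_left (by linarith), max_eq_right (by linarith)]
      rw [show ex_t n + bo m - 0 - (ex_t m + bo m - -(ex_t n - ex_t m)) = 0 by ring, abs_zero]
    · rw [if_neg hmn]
      push Not at hmn
      -- ex_t m much smaller than ex_t n
      have h1 : ex_t m ≤ ex_t (n + 1) := ex_t_anti hmn
      have h2 : ex_t (n + 1) ≤ eps (n + 1) / 2 := ex_t_le (n + 1)
      have h3 := eps_succ_le n
      have h4 := le_ex_t n
      have h5 : bo m ≤ bo n := bo_anti hmn.le
      have h6 : bo n ≤ eps n / 8 := by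
        have := eps_pos n
        have := eps_pos (n + 1)
        unfold bo; linarith
      have h7 := eps_pos n
      have hbt : tau ≤ T (bt m) := T_le_T (by norm_num) (bt_gt m).le
      have h8 := len_eq hn
      have h9 := ex_t_le' n
      have h10 := tau_gt
      have h11 := bo_le n
      rw [abs_of_nonneg (show 0 ≤ ex_t n - ex_t m by linarith),
        max_eq_left (by linarith), min_eq_left (by linarith)]
      rw [add_zero, sub_self, abs_zero]
  · intro m hm
    simp only [Pt.g, rd, if_neg hn, if_true]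
    by_cases hnm : n = m
    · subst hnm
      rw [if_pos rfl, min_self, min_eq_left (by linarith [len_pos n])]
      simp
    · rw [if_neg hnm]
      by_cases h2 : n < m
      · rw [if_pos h2, min_eq_right (ex_t_anti h2.le), sub_self, abs_zero]
      · rw [if_neg h2]
        have h3 : m ≤ n := by omega
        rw [min_eq_left (ex_t_anti h3), max_eq_left]
        · simp
        · linarith [len_pos n, ex_t_le' m, ex_t_pos n]

/-- Junction main road / root. -/
theorem jX_root :
    jX (rd 0 (len 0) (rd_end_valid 0)) (bk 0 1 (wp 1) (top_valid le_rfl)) = 0 := by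
  apply le_antisymm _ (jX_nonneg _ _)
  apply jX_le_of
  · show jd (max (D 0 (Pt.ht (.rd 0 (len 0))) 0 1) |wp (Pt.ht (.rd 0 (len 0))) - wp 1|) _ _ ≤ _
    rw [ht_rd_zero, D_same]
    simp [jd]
  · show |(if (0:ℕ) = 0 then len 0 else min (ex_t 0 + len 0) tau) - tau| ≤ _
    rw [if_pos rfl, len_zero, sub_self, abs_zero]
  · show |rr (Pt.ht (.rd 0 (len 0))) (wp (Pt.ht (.rd 0 (len 0)))) - rr 1 (wp 1)| ≤ _
    rw [ht_rd_zero, sub_self, abs_zero]
  · intro m hm
    simp only [Pt.Q, rd, bk, if_true]
    have h1 := bt_gt m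
    have hbt : tau ≤ T (bt m) := T_le_T (by norm_num) h1.le
    have h2 := ex_t_le' m
    have h3 := bo_le m
    have h4 := tau_gt
    have h5 := ex_t_pos m
    rw [len_zero, abs_of_nonneg (show 0 ≤ tau - ex_t m by linarith), max_eq_left (by linarith)]
    unfold TB
    rw [sc_zero, eT_zero]
    change |tau - (T (bt m) - |tau - T (bt m)| + sg m 0 0)| ≤ 0
    rw [abs_of_nonpos (show tau - T (bt m) ≤ 0 by linarith)]
    have : sg m 0 0 = 0 := by unfold sg; split_ifs <;> simp
    rw [this, show tau - (T (bt m) - -(tau - T (bt m)) + 0) = 0 by ring, abs_zero]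
  · intro m hm
    simp only [Pt.g, rd, bk, if_true]
    rw [len_zero, min_eq_right (ex_t_lt_tau m).le, sub_self, abs_zero]

/-- Junction shortcut / landing point. -/
theorem jX_end {n : ℕ} (hn : n ≠ 0) :
    jX (rd n (len n) (rd_end_valid n)) (bk 0 (ld n) (wp (ld n)) (top_valid (ld_gt n).le)) = 0 := by
  apply le_antisymm _ (jX_nonneg _ _)
  have hlen := len_eq hn
  have hT : tau ≤ T (ld n) := T_le_T (by norm_num) (ld_gt n).le
  have hht : Pt.ht (.rd n (len n)) = ld n := by
    simp only [Pt.ht, if_neg hn]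
    rw [hlen, show ex_t n + bo n + (T (ld n) - ex_t n - bo n) = T (ld n) by ring,
      max_eq_right hT]
    exact Ti_T (by linarith [ld_gt n])
  apply jX_le_of
  · show jd (max (D 0 (Pt.ht (.rd n (len n))) 0 (ld n)) |wp (Pt.ht (.rd n (len n))) - wp (ld n)|) _ _
      ≤ _
    rw [hht, D_same]
    simp [jd]
  · show |(if n = 0 then len n else min (ex_t n + len n) tau) - tau| ≤ _
    have := c6 n
    rw [if_neg hn, min_eq_right (by linarith), sub_self, abs_zero]
  · show |rr (Pt.ht (.rd n (len n))) (wp (Pt.ht (.rd n (len n)))) - rr (ld n) (wp (ld n))| ≤ _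
    rw [hht, sub_self, abs_zero]
  · intro m hm
    simp only [Pt.Q, rd, bk, if_neg hn]
    have hsg : sg m 0 (eT 0 (ld n)) = 0 := by rw [eT_zero]; unfold sg; split_ifs <;> simp
    unfold TB
    rw [hsg, sc_zero]
    have h2 := ex_t_le' n
    have h3 := bo_le n
    have h3' := bo_le m
    have h4 := tau_gt
    have h5 := ex_t_pos n
    have h6 := bo_pos n
    by_cases hmn : m ≤ n
    · rw [if_pos hmn]
      have h1 : T (ld n) ≤ T (bt m) :=
        T_le_T (by linarith [ld_gt n]) ((ld_lt_bt n).le.trans (bt_anti hmn))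
      rw [abs_of_nonpos (show T (ld n) - T (bt m) ≤ 0 by linarith), max_eq_right (by linarith)]
      rw [hlen, show ex_t n + bo n + (T (ld n) - ex_t n - bo n) -
        (T (bt m) - -(T (ld n) - T (bt m)) + 0) = 0 by ring, abs_zero]
    · rw [if_neg hmn]
      push Not at hmn
      have h1 : T (bt m) ≤ T (bt (n + 1)) := T_le_T (by linarith [bt_gt m]) (bt_anti hmn)
      have h7 := c3 n
      have h8 : T (bt (n + 1)) ≤ T (ld n) := T_le_T (by linarith [bt_gt (n + 1)]) (bt_succ_lt_ld n).le
      rw [abs_of_nonneg (show 0 ≤ T (ld n) - T (bt m) by linarith), min_eq_right (by linarith)]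
      rw [show 2 * T (bt m) - T (ld n) + (len n - len n) -
        (T (bt m) - (T (ld n) - T (bt m)) + 0) = 0 by ring, abs_zero]
  · intro m hm
    simp only [Pt.g, rd, bk, if_neg hn]
    by_cases hnm : n = m
    · subst hnm
      rw [if_pos rfl, sub_self, min_eq_right (by linarith [len_pos n])]
      simp
    · rw [if_neg hnm]
      by_cases h2 : n < m
      · rw [if_pos h2, sub_self, abs_zero]
      · rw [if_neg h2, sub_self, max_eq_right]
        · simp
        · linarith [len_pos n, ex_t_le' n, ex_t_pos m]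

end

end Pool.H67.LC
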