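import Pool.Agent.H67.LC.Space

set_option autoImplicit false

namespace Pool.H67.LC

open Real Filter Topology
open scoped NNReal

noncomputable section

def xs : X := rd 0 0 (rd_start_valid 0)

def ys : X := bk 0 1 1 ⟨le_rfl, le_rfl, by norm_num⟩

theorem lane_zero (m : ℕ) : mk (lane m 0) = mk ys := by
  rw [mk_eq_iff]
  unfold lane ys
  apply le_antisymm _ (jX_nonneg _ _)
  refine (jX_bk_le _ _).trans ?_
  rw [max_self, Real.exp_zero, D_spine (bt_gt m).le]
  simp

theorem lane_agree (m : ℕ) {t : ℝ} (ht : t ≤ Real.log (bt m)) : mk (lane m t) = mk (lane 0 t) := by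
  rw [mk_eq_iff]
  unfold lane
  apply jX_spine
  have h : max t 0 ≤ Real.log (bt m) := max_le ht (log_bt_pos m).le
  have := Real.exp_le_exp.2 h
  rwa [Real.exp_log (by linarith [bt_gt m])] at this

theorem T_exp_gt {t : ℝ} : t < T (Real.exp t) := by
  unfold T
  have h1 : Real.exp t ^ 2 = Real.exp (2 * t) := by
    rw [← Real.exp_nat_mul]; push_cast; rfl
  rw [h1]
  have h2 : 2 * t < Real.log (Real.exp (2 * t) + 1) := by
    conv_lhs => rw [← Real.log_exp (2 * t)]
    apply Real.log_lt_log (Real.exp_pos _)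
    linarith
  linarith

/-- Where a Lion who stays in the race can be. -/
theorem race {m : ℕ} (hm : m ≠ 0) {a : ℝ} (ha : a = Real.log (bt m)) {x : X}
    (h1 : x.1.mu ≤ a) (h2 : a < x.1.Q m) :
    ∃ n e h, x = rd n e h ∧ m ≤ n ∧ a < ex_t n + bo n + e ∧ ex_t n + e ≤ a := by
  have hb := c2 m
  have hb2 := log_bt_le m
  have hb3 := eps_le m
  have hb4 := tau_gt
  rw [← ha] at hb hb2
  obtain ⟨x, hx⟩ := x
  cases x with
  | bk k p w =>
    exfalso
    change tau ≤ a at h1
    linarith
  | rd n e =>
    refine ⟨n, e, hx, rfl, ?_⟩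
    have e0 := hx.1
    have e1 := hx.2
    simp only [Pt.mu, Pt.Q] at h1 h2
    by_cases hn : n = 0
    · exfalso
      rw [if_pos hn] at h1 h2
      have h3 := abs_nonneg (e - ex_t m)
      rcases lt_max_iff.1 h2 with h | h <;> linarith
    · rw [if_neg hn] at h1 h2
      have h3 : ex_t n + e ≤ a := by
        rcases min_le_iff.1 h1 with h | h
        · exact h
        · linarith
      by_cases hmn : m ≤ n
      · rw [if_pos hmn] at h2
        refine ⟨hmn, ?_, h3⟩
        rcases lt_max_iff.1 h2 with h | h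
        · have := ex_t_anti hmn
          linarith
        · exact h
      · rw [if_neg hmn] at h2
        exfalso
        have := min_le_left (ex_t n + e) (2 * T (bt m) - T (ld n) + (len n - e))
        linarith

theorem partA : ¬ ∃ F : (ℝ≥0 → MQ) → (ℝ≥0 → MQ),
    (∀ c : ℝ≥0 → MQ, LipschitzWith 1 c → c 0 = mk ys →
        LipschitzWith 1 (F c) ∧ F c 0 = mk xs) ∧
    (∀ c c' : ℝ≥0 → MQ, LipschitzWith 1 c → c 0 = mk ys →
        LipschitzWith 1 c' → c' 0 = mk ys →
        ∀ t : ℝ≥0, (∀ s, s ≤ t → c s = c' s) → ∀ s, s ≤ t → F c s = F c' s) ∧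
    (∀ c : ℝ≥0 → MQ, LipschitzWith 1 c → c 0 = mk ys → ∃ t : ℝ≥0, F c t = c t) := by
  rintro ⟨F, hF1, hF2, hF3⟩
  have hl : ∀ m, LipschitzWith 1 (dn (lane m)) := fun m => dn_lip (lane_ph m)
  have h0 : ∀ m, dn (lane m) 0 = mk ys := fun m => lane_zero m
  set l : ℝ → X := up (F (dn (lane 0))) with hldef
  have hlp : PH l := up_ph (hF1 _ (hl 0) (h0 0)).1
  have hl0 : jX (l 0) xs = 0 := by
    have h := (hF1 _ (hl 0) (h0 0)).2
    simp only [hldef, up, Real.toNNReal_zero, h]
    exact jX_out_mk _
  -- the main estimate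
  have main : ∀ m, m ≠ 0 → (l (Real.log (bt m))).1.mu ≤ Real.log (bt m) ∧
      Real.log (bt m) < (l (Real.log (bt m))).1.Q m := by
    intro m hm
    have ha := log_bt_pos m
    have hb2 := log_bt_le m
    have hb3 := eps_le m
    have hb4 := tau_gt
    set a := Real.log (bt m) with hadef
    constructor
    · have h1 := mu_lip xs (l a)
      have h2 := jX_tri xs (l 0) (l a)
      have h3 := hlp 0 a le_rfl ha.le
      rw [jX_comm] at hl0
      have h4 := abs_le.1 h1
      have h5 : xs.1.mu = 0 := rfl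
      linarith [h4.1]
    · obtain ⟨t, ht⟩ := hF3 _ (hl m) (h0 m)
      set lm : ℝ → X := up (F (dn (lane m))) with hlm
      have hlmp : PH lm := up_ph (hF1 _ (hl m) (h0 m)).1
      have hlm0 : jX (lm 0) xs = 0 := by
        have h := (hF1 _ (hl m) (h0 m)).2
        simp only [hlm, up, Real.toNNReal_zero, h]
        exact jX_out_mk _
      have hagree : lm a = l a := by
        simp only [hlm, hldef, up]
        congr 1
        apply hF2 _ _ (hl m) (h0 m) (hl 0) (h0 0) a.toNNReal _ _ le_rfl
        intro s hs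
        rw [dn_apply, dn_apply]
        apply lane_agree
        have h1 : (s : ℝ) ≤ a.toNNReal := hs
        rw [Real.coe_toNNReal _ ha.le] at h1
        exact h1
      have hcap : jX (lm t) (lane m t) = 0 := by
        rw [← mk_eq_iff]
        simp only [hlm, up, Real.toNNReal_coe, mk_out]
        exact ht
      have ht0 : (0:ℝ) ≤ t := t.2
      have htau : tau ≤ t := by
        have h1 := mu_lip xs (lane m t)
        have h2 := jX_tri xs (lm 0) (lane m t)
        have h2' := jX_tri (lm 0) (lm t) (lane m t)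
        have h3 := hlmp 0 t le_rfl ht0
        rw [jX_comm] at hlm0
        have h4 := abs_le.1 h1
        have h5 : xs.1.mu = 0 := rfl
        have h6 : (lane m t).1.mu = tau := rfl
        linarith [h4.1]
      have h1 := Q_lip hm (lm a) (lane m t)
      have h2 := jX_tri (lm a) (lm t) (lane m t)
      have h3 := hlmp a t ha.le (by linarith)
      have h4 := abs_le.1 h1
      have h5 : (lane m t).1.Q m = T (Real.exp t) := by
        show TB m m (Real.exp (max t 0)) = _
        rw [TB_self hm (Real.exp_pos _).le, max_eq_left ht0]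
      have h6 := @T_exp_gt t
      rw [hagree] at h4 h2 h3
      linarith [h4.1]
  obtain ⟨m1, m2⟩ := main 1 one_ne_zero
  obtain ⟨n, e, hv, hx, hn1, hn2, hn3⟩ := race one_ne_zero rfl m1 m2
  obtain ⟨k1, k2⟩ := main (n + 1) (Nat.succ_ne_zero n)
  obtain ⟨n', e', hv', hx', hn1', hn2', hn3'⟩ := race (Nat.succ_ne_zero n) rfl k1 k2
  have hn : n ≠ 0 := by omega
  have hg := g_lip hn (l (Real.log (bt 1))) (l (Real.log (bt (n + 1))))
  have hle : Real.log (bt (n + 1)) ≤ Real.log (bt 1) :=
    Real.log_le_log (by linarith [bt_gt (n + 1)]) (bt_anti (by omega))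
  have hj := hlp _ _ (log_bt_pos (n + 1)).le hle
  rw [jX_comm] at hj
  rw [hx, hx'] at hg hj
  have g1 : (rd n e hv).1.g n = ex_t n + min e (len n - e) := g_rd hn
  have g2 : (rd n' e' hv').1.g n = max (ex_t n' - e') (ex_t n - (len n' - e')) := by
    show (if n' = 0 then min e' (ex_t n) else if n' = n then ex_t n + min e' (len n' - e')
      else if n' < n then ex_t n else max (ex_t n' - e') (ex_t n - (len n' - e'))) = _
    rw [if_neg (by omega), if_neg (by omega), if_neg (by omega)]
  rw [g1, g2] at hg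
  have hb2 := log_bt_le 1
  have hb3 := eps_le 1
  have hb2' := log_bt_le (n + 1)
  have hb3' := eps_le (n + 1)
  have l1 := len_pos n
  have l2 := len_pos n'
  have p1 := ex_t_pos n
  have p2 := ex_t_pos n'
  have p3 := ex_t_le' n
  have p4 := ex_t_le' n'
  have q1 := bo_pos n
  have q2 := bo_pos n'
  have hmin : min e (len n - e) = e := min_eq_left (by linarith)
  rw [hmin] at hg
  have h1 := (abs_le.1 hg).2
  have hc4 := c4 n
  have hext := ex_t_anti hn1'
  have hbo := bo_anti hn1'
  have h3 : max (ex_t n' - e') (ex_t n - (len n' - e')) ≤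
      2 * ex_t (n + 1) + bo (n + 1) - Real.log (bt (n + 1)) := by
    have := ex_t_pos (n + 1)
    have := bo_pos (n + 1)
    apply max_le
    · linarith
    · linarith
  linarith

end

end Pool.H67.LC
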