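import Pool.Agent.H67.LC.Chase

set_option autoImplicit false

namespace Pool.H67.LC

open Real Filter Topology
open scoped NNReal

noncomputable section

variable {g : (ℝ → X) → (ℝ → X)}

/-- Position of the Christian at early times. -/
theorem chr (hg : CS g) {c : ℝ → X} (hc : LP c) {t : ℝ} (ht : 0 ≤ t) (hexp : Real.exp t ≤ 1.45) :
    ∃ l q v h', g c t = bk l q v h' ∧ v ≤ Real.exp t := by
  have h1 := log_wd_lip ys (g c t)
  have h2 := jX_tri ys (g c 0) (g c t)
  have h3 := hg.lip c hc 0 t le_rfl ht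
  have h4 := hg.start c hc
  rw [jX_comm] at h4
  have h5 : Real.log ys.1.wd = 0 := by
    show Real.log 1 = 0
    exact Real.log_one
  rw [h5] at h1
  have h6 : Real.log (g c t).1.wd ≤ t := by linarith [(abs_le.1 h1).1]
  have h7 : (g c t).1.wd ≤ Real.exp t := by
    have := Real.exp_le_exp.2 h6
    rwa [Real.exp_log (wd_pos (g c t).2)] at this
  generalize g c t = y at h7
  obtain ⟨y, hy⟩ := y
  cases y with
  | bk l q v => exact ⟨l, q, v, hy, rfl, h7⟩
  | rd n e =>
    exfalso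
    have := two_le_wd_rd hy
    change Pt.wd (.rd n e) ≤ _ at h7
    linarith

/-- Change of `R` along paths. -/
theorem R_jX (m : ℕ) {k l : ℕ} {p w q v : ℝ} (h) (h') (hw : w ≤ 3 / 2) (hv : v ≤ 3 / 2) :
    R m k p w - R m l q v ≤ jX (bk k p w h) (bk l q v h') :=
  (R_lip m h.1 h.2.1 hw h'.1 h'.2.1 hv).trans (jj_le_jX (bk k p w h) (bk l q v h'))

/-- The Lion wins from a good landing. -/
theorem landing (hg : CS g) {lam : ℝ} (hlam : 0 < lam) {c : ℝ → X} {t : ℝ} (hc : LP c)
    (ht : 0 ≤ t) {s : ℝ} (hs1 : 1 ≤ s) (hs2 : s ≤ bt 1)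
    (hx : jX (c t) (bk 0 s (wp s) (top_valid hs1)) = 0) {l : ℕ} {q v : ℝ}
    (h' : 1 ≤ q ∧ q ≤ v ∧ q * (v - q) ≤ 1) (hy : g c t = bk l q v h') (hv : v ≤ 1.45)
    (hR : ∀ m, R m l q v ≤ 2 * T (sc m s) - T s - lam) : False := by
  have hb1 := bt_le 1
  have hws := two_le_wp hs1
  have hv1 : 1 ≤ v := h'.1.trans h'.2.1
  by_cases hD : D 0 s l q ≤ 1 / 65
  · refine kphase hg (W := wp s) ⟨c, t, 0, s, wp s, l, q, v, hc, ht, top_valid hs1, h', hx, hy,
      by linarith, le_rfl, ?_⟩
    have hws2 : wp s ≤ 2.001 := by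
      have := wp_le_add_abs hs1 (le_refl (1 : ℝ))
      rw [wp_one, abs_of_nonneg (by linarith)] at this
      linarith
    have h0 := D_nonneg 0 s l q
    have h1 : 8 * wp s * D 0 s l q ≤ 8 * 2.001 * (1 / 65) := by
      apply mul_le_mul _ hD h0 (by norm_num)
      linarith
    have h2 : (0.55 : ℝ) ^ 2 ≤ (wp s - v) ^ 2 :=
      pow_le_pow_left₀ (by norm_num) (by linarith) 2
    norm_num at h1 h2 ⊢
    linarith
  push Not at hD
  have hsc1 := one_le_sc (k := l) h'.1
  have hq : 1 + 1 / 70 ≤ q := by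
    have e1 := sc_add_ec l q
    have e2 : D 0 s l q = |s - sc l q| + ec l q := by
      unfold D Pool.H67.LC.hg
      rw [sc_zero, ec_zero]
      split_ifs with h
      · rw [zero_sub, abs_neg, abs_of_nonneg (ec_nonneg l q)]
      · ring
    have e3 : |s - sc l q| ≤ (s - 1) + (sc l q - 1) := by
      rw [abs_le]; constructor <;> linarith
    linarith
  -- first run: inward to the branching point if necessary
  set s1 := sc l s with hs1def
  have hs11 : 1 ≤ s1 := one_le_sc hs1
  have hs1s : s1 ≤ s := sc_le l s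
  have hT1 : T s1 ≤ T s := T_le_T (by linarith) hs1s
  obtain ⟨c1, hc1, hx1, _, hg1⟩ := run hg hc ht hs1 hs11 hx
  have ed1 : |T s - T s1| = T s - T s1 := abs_of_nonneg (by linarith)
  rw [ed1] at hx1 hg1
  -- change of label
  have hx1' : jX (c1 (t + (T s - T s1))) (bk l s1 (wp s1) (top_valid hs11)) = 0 := by
    apply le_antisymm _ (jX_nonneg _ _)
    have e1 := jX_tri (c1 (t + (T s - T s1))) (bk 0 s1 (wp s1) (top_valid hs11))
      (bk l s1 (wp s1) (top_valid hs11))
    have e2 : jX (bk 0 s1 (wp s1) (top_valid hs11)) (bk l s1 (wp s1) (top_valid hs11)) ≤ 0 := by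
      refine (jX_bk_le _ _).trans ?_
      rw [D_comm, D_sc]
      simp
    linarith
  have hbt1 : 1 ≤ bt 1 := (bt_gt 1).le
  have hs1b : s1 ≤ bt 1 := by linarith
  have hT2 : T s1 ≤ T (bt 1) := T_le_T (by linarith) hs1b
  obtain ⟨c2, hc2, hx2, hg2', hg2⟩ := run hg hc1 (by linarith) hs11 hbt1 hx1'
  have ed2 : |T s1 - T (bt 1)| = T (bt 1) - T s1 := by
    rw [abs_of_nonpos (by linarith)]; ring
  rw [ed2] at hx2 hg2
  set d := (T s - T s1) + (T (bt 1) - T s1) with hd
  have hd0 : 0 ≤ d := by linarith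
  have hd1 : d ≤ 1 / 1000 := by
    have a1 := T_sub_le_half hs11 hs1s
    have a2 := T_sub_le_half hs11 hs1b
    linarith
  have htime : t + (T s - T s1) + (T (bt 1) - T s1) = t + d := by rw [hd]; ring
  rw [htime] at hx2 hg2
  have hjy : jX (g c t) (g c2 (t + d)) ≤ d := by
    have := jX_tri (g c t) (g c1 (t + (T s - T s1))) (g c2 (t + d))
    linarith
  rw [hy] at hjy
  have hexp := exp_sub_one_le hd0 (by linarith)
  have hexp0 : 0 ≤ Real.exp d - 1 := by have := Real.add_one_le_exp d; linarith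
  have hmin : min (bk l q v h').1.wd (g c2 (t + d)).1.wd * (Real.exp d - 1) ≤ 3 / 1000 := by
    have e0 : (bk l q v h').1.wd = v := rfl
    have e1 : min (bk l q v h').1.wd (g c2 (t + d)).1.wd ≤ 1.45 := (min_le_left _ _).trans hv
    have e2 : Real.exp d - 1 ≤ 2 / 1000 := by nlinarith
    calc min (bk l q v h').1.wd (g c2 (t + d)).1.wd * (Real.exp d - 1)
        ≤ 1.45 * (2 / 1000) := mul_le_mul e1 e2 hexp0 (by norm_num)
      _ ≤ 3 / 1000 := by norm_num
  have hDy := (D_le_of_jX hjy).trans hmin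
  have hWy := (wd_le_of_jX hjy).trans hmin
  have hrrl := rr_lip (bk l q v h') (g c2 (t + d))
  obtain ⟨q', v', h'', hyq, hqq⟩ := stay (k := l) (q := q) (u := 3 / 1000) (P := bt 1) le_rfl
    (by linarith) (g c2 (t + d)) hDy
  rw [hyq] at hWy hjy
  change |v - v'| ≤ _ at hWy
  have hv' : v' ≤ 3 / 2 := by
    have := (abs_le.1 hWy).1
    norm_num at hv
    linarith
  have hv32 : v ≤ 3 / 2 := by norm_num at hv; linarith
  have hRl := hR l
  have hRj : R l l q' v' - R l l q v ≤ d := by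
    refine (R_jX l h'' h' hv' hv32).trans ?_
    rw [jX_comm]; exact hjy
  rw [R_self, R_self] at hRj
  rw [R_self] at hRl
  obtain ⟨N, hN⟩ := exists_nat_ge ((q' - bt 1) /
    ((1 - Real.exp (-lam)) * ((1 - Real.exp (-lam)) ^ 2 / 128)))
  have hr1 : 0 < 1 - Real.exp (-lam) := by
    have : Real.exp (-lam) < 1 := by rw [Real.exp_lt_one_iff]; linarith
    linarith
  rw [div_le_iff₀ (by positivity)] at hN
  refine ray hg hlam N c2 (t + d) l (bt 1) q' v' hbt1 h'' hc2 (by linarith) le_rfl ?_ hx2 hyq ?_ hN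
  · have := (abs_le.1 hqq).2
    linarith
  · linarith

/-- The main road. -/
def mr (t : ℝ) : X := rd 0 (max 0 (min t tau)) ⟨le_max_left _ _, by
  rw [len_zero]; exact max_le tau_pos.le (min_le_right _ _)⟩

theorem mr_eq {t : ℝ} (h0 : 0 ≤ t) (h1 : t ≤ tau) (h) : mr t = rd 0 t h := by
  unfold mr rd
  congr 2
  rw [min_eq_left h1, max_eq_right h0]

theorem mr_lp : LP mr := by
  constructor
  · intro s t hs hst
    have h : jX (mr s) (mr t) ≤ |max 0 (min s tau) - max 0 (min t tau)| := jX_rd _ _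
    refine h.trans ?_
    have h1 := abs_max_sub_max_le_max 0 (min s tau) 0 (min t tau)
    have h2 := abs_min_sub_min_le_max s tau t tau
    rw [sub_self, abs_zero] at h1 h2
    have h3 : |s - t| = t - s := by rw [abs_of_nonpos (by linarith)]; ring
    rw [h3] at h2
    refine h1.trans (max_le (by linarith) (h2.trans (max_le le_rfl (by linarith))))
  · rw [mr_eq le_rfl tau_pos.le (rd_start_valid 0)]
    exact jX_self _

theorem exp_T_ld (n : ℕ) : Real.exp (T (ld n)) ≤ 1.45 := by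
  have h := T_exp (ld n)
  have h1 : Real.exp (2 * T (ld n)) = Real.exp (T (ld n)) ^ 2 := by
    rw [← Real.exp_nat_mul]; push_cast; rfl
  rw [h1] at h
  have h2 := ld_le n
  have h3 := ld_gt n
  have h4 := Real.exp_pos (T (ld n))
  by_contra hc
  push Not at hc
  have h5 : (1.45 : ℝ) ^ 2 < Real.exp (T (ld n)) ^ 2 := by
    apply pow_lt_pow_left₀ hc (by norm_num) (by norm_num)
  rw [h] at h5
  nlinarith

/-- End on the main road. -/
theorem caseA (hg : CS g) {k : ℕ} {p w : ℝ} (h : 1 ≤ p ∧ p ≤ w ∧ p * (w - p) ≤ 1)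
    (hy : g mr (1 / 4) = bk k p w h) (hw : w ≤ 3 / 2) (hlam : rr p w < 1 / 4) : False := by
  have ht := tau_gt
  have ht2 := tau_lt
  have hexp : Real.exp tau ≤ 1.45 := by
    refine le_trans ?_ (exp_T_ld 0)
    rw [Real.exp_le_exp]
    exact T_le_T (by norm_num) (ld_gt 0).le
  obtain ⟨l, q, v, h', hy', hv⟩ := chr hg mr_lp tau_pos.le hexp
  have hj := hg.lip mr mr_lp (1 / 4) tau (by norm_num) (by linarith)
  rw [hy, hy'] at hj
  have hx : jX (mr tau) (bk 0 1 (wp 1) (top_valid le_rfl)) = 0 := by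
    have h0 : 0 ≤ tau ∧ tau ≤ len 0 := ⟨tau_pos.le, by rw [len_zero]⟩
    rw [mr_eq tau_pos.le le_rfl h0]
    have e : rd 0 tau h0 = rd 0 (len 0) (rd_end_valid 0) := by
      unfold rd; congr 2
    rw [e]
    exact jX_root
  have hv1 : v ≤ 1.45 := hv.trans hexp
  refine landing hg (lam := 1 / 4 - rr p w) (by linarith) mr_lp tau_pos.le le_rfl
    (bt_gt 1).le hx h' hy' hv1 fun m => ?_
  have e1 : sc m 1 = 1 := sc_of_le (bt_gt m).le
  rw [e1]
  have e2 : R m l q v - R m k p w ≤ tau - 1 / 4 := by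
    refine (R_jX m h' h (by norm_num at hv1; linarith) hw).trans ?_
    rw [jX_comm]; exact hj
  have e3 := R_le_rr m k h.2.1
  have e4 : T 1 = tau := rfl
  rw [e4]
  linarith

/-- The excess vanishes. -/
theorem ec_zero_of_B {k k' : ℕ} {p : ℝ} (hk : k ≠ 0 → p ≤ bt k)
    (hB : B k k' p = p) : ec k' p = 0 := by
  have h1 := sc_add_ec k' p
  have h2 := ec_nonneg k' p
  by_cases hk0 : k = 0
  · subst hk0
    unfold B at hB
    rw [if_pos rfl] at hB
    linarith
  · by_cases hkk : k' = k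
    · subst hkk
      exact ec_of_le (hk hk0)
    · unfold B sg at hB
      rw [if_neg hk0, if_neg hkk] at hB
      have h3 := le_abs_self (sc k' p - bt k)
      have h4 := neg_abs_le (sc k' p - bt k)
      linarith

/-- Use of a shortcut. -/
theorem caseB (hg : CS g) {k : ℕ} {p w : ℝ} (h : 1 ≤ p ∧ p ≤ w ∧ p * (w - p) ≤ 1)
    (hy : g mr (1 / 4) = bk k p w h) (hw : w ≤ 3 / 2) (hR : R k k p w = 1 / 4) : False := by
  set n := max k 1 with hn
  have hn0 : n ≠ 0 := by omega
  have hkn : k ≤ n := by omega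
  have hex0 := ex_t_pos n
  have hex1 := ex_t_le' n
  have hep0 := eps_pos n
  have hep1 := eps_le n
  have hexp : Real.exp (ex_t n) ≤ 1.45 := by rw [ex_t_exp]; norm_num; linarith
  obtain ⟨k', p', w', h', hy', hw'⟩ := chr hg mr_lp hex0.le hexp
  rw [ex_t_exp] at hw'
  have hj := hg.lip mr mr_lp (ex_t n) (1 / 4) hex0.le (by linarith)
  rw [hy, hy'] at hj
  have hw'1 : 1 ≤ w' := h'.1.trans h'.2.1
  have hw'2 : w' ≤ 3 / 2 := by linarith
  have hRj : R k k p w - R k k' p' w' ≤ 1 / 4 - ex_t n := by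
    refine (R_jX k h h' hw hw'2).trans ?_
    rw [jX_comm]; exact hj
  have hlog : Real.log w' ≤ ex_t n := by
    unfold ex_t
    exact Real.log_le_log (by linarith) hw'
  have hsq0 : 0 ≤ Real.log (1 + (w' - B k k' p') ^ 2) :=
    Real.log_nonneg (by nlinarith [sq_nonneg (w' - B k k' p')])
  have hlog2 : Real.log w' = ex_t n := by
    unfold R at hRj
    have : R k k p w = 1 / 4 := hR
    unfold R at this
    linarith
  have hsq1 : Real.log (1 + (w' - B k k' p') ^ 2) = 0 := by
    unfold R at hRj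
    have : R k k p w = 1 / 4 := hR
    unfold R at this
    linarith
  have hw'eq : w' = 1 + eps n / 2 := by
    rw [← ex_t_exp, ← hlog2, Real.exp_log (by linarith)]
  have hB : w' - B k k' p' = 0 := by
    have h1 : 0 < 1 + (w' - B k k' p') ^ 2 := by positivity
    rcases Real.log_eq_zero.1 hsq1 with h2 | h2 | h2
    · linarith
    · have : (w' - B k k' p') ^ 2 = 0 := by linarith
      exact pow_eq_zero_iff (two_ne_zero) |>.1 this
    · linarith
  have hBle := B_le k k' p'
  have hp'w : p' = w' := le_antisymm h'.2.1 (by linarith)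
  have hBp : B k k' p' = p' := by linarith
  have hec : ec k' p' = 0 := by
    apply ec_zero_of_B _ hBp
    intro hk0
    have : eps n ≤ eps k := eps_anti hkn
    have := eps_pos k
    unfold bt
    linarith
  have hsc : sc k' p' = p' := by linarith [sc_add_ec k' p']
  -- the Lion takes the shortcut
  have hlen := len_pos n
  have hlen0 : 0 ≤ len n := by linarith
  have hleneq := len_eq hn0
  have hbo := bo_pos n
  have hq : ∀ s s', 0 ≤ s → s ≤ s' → s' ≤ len n →
      jX ((fun s => if hs : 0 ≤ s ∧ s ≤ len n then rd n s hs else xs) s)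
        ((fun s => if hs : 0 ≤ s ∧ s ≤ len n then rd n s hs else xs) s') ≤ s' - s := by
    intro s s' hs hss hs'
    dsimp only
    rw [dif_pos ⟨hs, hss.trans hs'⟩, dif_pos ⟨hs.trans hss, hs'⟩]
    refine (jX_rd _ _).trans ?_
    rw [abs_of_nonpos (by linarith)]; linarith
  have h0 : jX (mr (ex_t n))
      ((fun s => if hs : 0 ≤ s ∧ s ≤ len n then rd n s hs else xs) 0) = 0 := by
    dsimp only
    rw [dif_pos (rd_start_valid n), mr_eq hex0.le (ex_t_lt_tau n).le (rd_exit_valid n), jX_comm]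
    exact jX_start hn0
  obtain ⟨c', hc', _, hend, _, hgd⟩ := step hg mr_lp hex0.le hlen0 hq h0
  rw [dif_pos (rd_end_valid n)] at hend
  have hx : jX (c' (ex_t n + len n)) (bk 0 (ld n) (wp (ld n)) (top_valid (ld_gt n).le)) = 0 := by
    apply le_antisymm _ (jX_nonneg _ _)
    have e1 := jX_tri (c' (ex_t n + len n)) (rd n (len n) (rd_end_valid n))
      (bk 0 (ld n) (wp (ld n)) (top_valid (ld_gt n).le))
    have e2 := jX_end hn0
    linarith
  have htL : ex_t n + len n = T (ld n) - bo n := by rw [hleneq]; ring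
  have htL0 : 0 ≤ ex_t n + len n := by linarith
  have hexpL : Real.exp (ex_t n + len n) ≤ 1.45 := by
    refine le_trans ?_ (exp_T_ld n)
    rw [Real.exp_le_exp, htL]; linarith
  obtain ⟨l, q, v, h'', hy'', hv⟩ := chr hg hc' htL0 hexpL
  have hv1 : v ≤ 1.45 := hv.trans hexpL
  have hv32 : v ≤ 3 / 2 := by norm_num at hv1; linarith
  have hv11 : 1 ≤ v := h''.1.trans h''.2.1
  rw [hy', hy''] at hgd
  refine landing hg hbo hc' htL0 (ld_gt n).le (ld_le_bt_one hn0) hx h'' hy'' hv1 fun m => ?_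
  by_cases hm : m = 0 ∨ ld n ≤ bt m
  · have e1 : sc m (ld n) = ld n := by
      rcases hm with rfl | hm
      · exact sc_zero _
      · exact sc_of_le hm
    rw [e1]
    have e2 := R_le_rr m l h''.2.1
    have e3 := rr_le_log q v
    have e4 : Real.log v ≤ ex_t n + len n := by
      rw [← Real.log_exp (ex_t n + len n)]
      exact Real.log_le_log (by linarith) hv
    linarith
  · push Not at hm
    obtain ⟨hm0, hm1⟩ := hm
    rw [sc_of_ge hm0 hm1.le]
    have hmn : n + 1 ≤ m := by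
      by_contra hc
      push Not at hc
      have : bt n ≤ bt m := bt_anti (by omega)
      have := ld_lt_bt n
      linarith
    have hbm : bt m ≤ bt (n + 1) := bt_anti hmn
    have e1 : R m l q v - R m k' p' w' ≤ len n := by
      refine (R_jX m h'' h' hv32 hw'2).trans ?_
      rw [jX_comm]; exact hgd
    have hldp : ld n ≤ p' := by
      rw [hp'w, hw'eq]
      unfold ld
      have := eps_succ_le n
      linarith
    have hBm : B m k' p' = 2 * bt m - p' := by
      unfold B sg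
      rw [if_neg hm0, hec, hsc, abs_of_nonneg (by linarith)]
      split_ifs <;> ring
    have hRm : R m k' p' w' ≤ ex_t n - 2 * (T (ld n) - tau) := by
      unfold R
      rw [hlog2, hBm]
      have e2 := c1 n
      rw [ex_t_exp, ← hw'eq] at e2
      have e3 : Real.log (1 + (2 * (w' - bt (n + 1))) ^ 2) ≤
          Real.log (1 + (w' - (2 * bt m - p')) ^ 2) := by
        apply Real.log_le_log (by positivity)
        have e4 : 2 * (w' - bt (n + 1)) ≤ w' - (2 * bt m - p') := by linarith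
        have e5 : 0 ≤ 2 * (w' - bt (n + 1)) := by
          have := bt_succ_lt_ld n
          linarith
        have := pow_le_pow_left₀ e5 e4 2
        linarith
      linarith
    have hTm : tau ≤ T (bt m) := T_le_T (by norm_num) (bt_gt m).le
    linarith

theorem no_CS : ¬ ∃ g : (ℝ → X) → (ℝ → X), CS g := by
  rintro ⟨g, hg⟩
  have hexp : Real.exp (1 / 4) ≤ 1.45 := by
    refine le_trans ?_ (exp_T_ld 0)
    rw [Real.exp_le_exp]
    have : tau ≤ T (ld 0) := T_le_T (by norm_num) (ld_gt 0).le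
    linarith [tau_gt]
  obtain ⟨k, p, w, h, hy, hw⟩ := chr hg mr_lp (show (0:ℝ) ≤ 1 / 4 by norm_num) hexp
  have hw2 : w ≤ 3 / 2 := by
    have := hw.trans hexp
    norm_num at this
    linarith
  have hw1 : 1 ≤ w := h.1.trans h.2.1
  have hlog : Real.log w ≤ 1 / 4 := by
    rw [← Real.log_exp (1 / 4)]
    exact Real.log_le_log (by linarith) hw
  have hrr := (rr_le_log p w).trans hlog
  rcases lt_or_eq_of_le hrr with h1 | h1
  · exact caseA hg h hy hw2 h1
  · exact caseB hg h hy hw2 (by rw [R_self]; exact h1)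

theorem partB : ¬ ∃ G : (ℝ≥0 → MQ) → (ℝ≥0 → MQ),
    (∀ l : ℝ≥0 → MQ, LipschitzWith 1 l → l 0 = mk xs →
        LipschitzWith 1 (G l) ∧ G l 0 = mk ys) ∧
    (∀ l l' : ℝ≥0 → MQ, LipschitzWith 1 l → l 0 = mk xs →
        LipschitzWith 1 l' → l' 0 = mk xs →
        ∀ t : ℝ≥0, (∀ s, s ≤ t → l s = l' s) → ∀ s, s ≤ t → G l s = G l' s) ∧
    (∀ l : ℝ≥0 → MQ, LipschitzWith 1 l → l 0 = mk xs → ∀ t : ℝ≥0, G l t ≠ l t) := by
  rintro ⟨G, hG1, hG2, hG3⟩
  apply no_CS
  have hl : ∀ c, LP c → LipschitzWith 1 (dn c) := fun c hc => dn_lip hc.1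
  have h0 : ∀ c, LP c → dn c 0 = mk xs := fun c hc => by
    show mk (c ((0 : ℝ≥0) : ℝ)) = mk xs
    rw [mk_eq_iff]
    exact hc.2
  refine ⟨fun c => up (G (dn c)), ?_, ?_, ?_, ?_⟩
  · intro c hc
    exact up_ph (hG1 _ (hl c hc) (h0 c hc)).1
  · intro c hc
    have h := (hG1 _ (hl c hc) (h0 c hc)).2
    show jX (out (G (dn c) (Real.toNNReal 0))) ys = 0
    rw [Real.toNNReal_zero, h]
    exact jX_out_mk _
  · intro c c' hc hc' t ht hag
    show out (G (dn c) t.toNNReal) = out (G (dn c') t.toNNReal)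
    congr 1
    apply hG2 _ _ (hl c hc) (h0 c hc) (hl c' hc') (h0 c' hc') t.toNNReal _ _ le_rfl
    intro s hs
    rw [dn_apply, dn_apply, mk_eq_iff]
    apply hag _ s.2
    have h1 : (s : ℝ) ≤ t.toNNReal := hs
    rw [Real.coe_toNNReal _ ht] at h1
    exact h1
  · intro c hc t ht he
    change jX (out (G (dn c) t.toNNReal)) (c t) = 0 at he
    apply hG3 _ (hl c hc) (h0 c hc) t.toNNReal
    rw [dn_apply, Real.coe_toNNReal _ ht, ← mk_eq_iff.2 he, mk_out]

end

end Pool.H67.LC
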