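import Pool.Agent.H67.LC.Compact

set_option autoImplicit false

namespace Pool.H67.LC

open Real Filter Topology

noncomputable section

/-- One-Lipschitz real paths for the compact metric. -/
def PL (c : ℝ → X) : Prop := ∀ s t, dc (c s) (c t) ≤ |s - t|

theorem PL.phi_cont {c : ℝ → X} (hc : PL c) : Continuous fun t => phi (c t) := by
  have : LipschitzWith 1 fun t => phi (c t) := by
    apply LipschitzWith.of_dist_le_mul
    intro s t
    simp only [NNReal.coe_one, one_mul]
    rw [Real.dist_eq, Real.dist_eq]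
    exact (phi_lip_dc _ _).trans (hc s t)
  exact this.continuous

theorem PL.neg {c : ℝ → X} (hc : PL c) : PL fun t => c (-t) := by
  intro s t
  refine (hc _ _).trans ?_
  rw [show -s - -t = -(s - t) by ring, abs_neg]

/-- Step 1: positivity on a closed interval. -/
theorem path_pos {c : ℝ → X} (hc : PL c) {s t : ℝ} (hst : s ≤ t)
    (hp : ∀ u, s ≤ u → u ≤ t → 0 < phi (c u)) : jX (c s) (c t) ≤ t - s := by
  obtain ⟨u0, hu0, hmin⟩ := isCompact_Icc.exists_isMinOn (Set.nonempty_Icc.2 hst)
    hc.phi_cont.continuousOn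
  set m := phi (c u0) with hm
  have hm0 : 0 < m := hp u0 hu0.1 hu0.2
  have hmin' : ∀ u, s ≤ u → u ≤ t → m ≤ phi (c u) := fun u h1 h2 => hmin ⟨h1, h2⟩
  have key : ∀ n : ℕ, ∀ v, s ≤ v → v ≤ t → v - s ≤ n * (m / 2) → jX (c s) (c v) ≤ v - s := by
    intro n
    induction n with
    | zero =>
      intro v h1 h2 h3
      have : v = s := by
        simp at h3; linarith
      subst this
      rw [jX_self]; linarith
    | succ n ih =>
      intro v h1 h2 h3
      push_cast at h3
      have hu1 : s ≤ max s (v - m / 2) := le_max_left _ _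
      have hu2 : max s (v - m / 2) ≤ v := max_le h1 (by linarith)
      have hu3 : max s (v - m / 2) - s ≤ n * (m / 2) := by
        rw [sub_le_iff_le_add]
        apply max_le
        · have : 0 ≤ (n : ℝ) * (m / 2) := by positivity
          linarith
        · linarith
      have hu4 : v - m / 2 ≤ max s (v - m / 2) := le_max_right _ _
      set u := max s (v - m / 2)
      have h4 := ih u hu1 (hu2.trans h2) hu3
      have h5 : dc (c u) (c v) ≤ v - u := by
        have := hc u v
        rwa [abs_of_nonpos (by linarith), neg_sub] at this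
      have h6 : jX (c u) (c v) ≤ dc (c u) (c v) := by
        apply jX_le_dc_of_lt
        have := hmin' u hu1 (hu2.trans h2)
        linarith
      have h7 := jX_tri (c s) (c u) (c v)
      linarith
  obtain ⟨n, hn⟩ := exists_nat_ge ((t - s) / (m / 2))
  refine key n t hst le_rfl ?_
  rwa [div_le_iff₀ (by positivity)] at hn

/-- Step 2: a zero at the left end. -/
theorem path_left {c : ℝ → X} (hc : PL c) {s t : ℝ} (hst : s < t)
    (hp : ∀ u, s < u → u ≤ t → 0 < phi (c u)) : jX (c s) (c t) ≤ t - s := by
  set u : ℕ → ℝ := fun n => s + (t - s) / (n + 1) with hu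
  have hts : 0 < t - s := by linarith
  have hu1 : ∀ n, s < u n := fun n => by
    have : 0 < (t - s) / ((n : ℝ) + 1) := by positivity
    simp only [hu]; linarith
  have hu2 : ∀ n, u n ≤ t := fun n => by
    have : (t - s) / ((n : ℝ) + 1) ≤ t - s := by
      apply div_le_self hts.le
      have : (0:ℝ) ≤ n := Nat.cast_nonneg n
      linarith
    simp only [hu]; linarith
  have hut : Tendsto u atTop (𝓝 s) := by
    have h1 : Tendsto (fun n : ℕ => (t - s) / ((n : ℝ) + 1)) atTop (𝓝 0) :=
      tendsto_const_div_atTop_nhds_zero_nat (t - s) |>.comp (tendsto_add_atTop_nat 1) |>.congr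
        (fun n => by simp)
    have := h1.const_add s
    simpa [hu] using this
  have hj : ∀ m n, jX (c (u m)) (c (u n)) ≤ |u m - u n| := by
    intro m n
    rcases le_total (u m) (u n) with h | h
    · have := path_pos hc h fun v h1 h2 => hp v ((hu1 m).trans_le h1) (h2.trans (hu2 n))
      rw [abs_of_nonpos (by linarith)]; linarith
    · have := path_pos hc h fun v h1 h2 => hp v ((hu1 n).trans_le h1) (h2.trans (hu2 m))
      rw [abs_of_nonneg (by linarith), jX_comm]; exact this
  let v : ℕ → XJ := fun n => c (u n)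
  have hcau : CauchySeq v := by
    rw [Metric.cauchySeq_iff']
    intro ε hε
    have h1 := hut.cauchySeq
    rw [Metric.cauchySeq_iff'] at h1
    obtain ⟨N, hN⟩ := h1 ε hε
    refine ⟨N, fun n hn => ?_⟩
    have h2 := hN n hn
    rw [Real.dist_eq] at h2
    exact (hj n N).trans_lt h2
  obtain ⟨z, hz⟩ := cauchySeq_tendsto_of_complete hcau
  have hz' : Tendsto (fun n => jX (c (u n)) z) atTop (𝓝 0) := by
    have h := tendsto_iff_dist_tendsto_zero.1 hz
    exact h
  have hus : Tendsto (fun n => u n - s) atTop (𝓝 0) := by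
    have := hut.sub_const s
    rwa [sub_self] at this
  have hd : dc z (c s) = 0 := by
    apply le_antisymm _ (dc_nonneg _ _)
    have h1 := hz'.add hus
    rw [add_zero] at h1
    refine ge_of_tendsto' h1 fun n => ?_
    have h2 := dc_tri z (c (u n)) (c s)
    have h3 := dc_le_jX z (c (u n))
    have h4 := hc (u n) s
    rw [abs_of_pos (by linarith [hu1 n])] at h4
    rw [jX_comm] at h3
    change jX (c (u n)) z + (u n - s) ≥ dc z (c s)
    linarith
  have hjz := jX_eq_zero_of_dc hd
  have h1 : Tendsto (fun n => jX (c (u n)) z + (t - u n)) atTop (𝓝 (0 + (t - s))) :=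
    hz'.add (hut.const_sub t)
  rw [zero_add] at h1
  refine ge_of_tendsto' h1 fun n => ?_
  have h2 := path_pos hc (hu2 n) fun v h1 h2 => hp v ((hu1 n).trans_le h1) h2
  have h3 := jX_tri (c s) (c (u n)) (c t)
  have h4 := jX_tri (c (u n)) z (c s)
  rw [hjz] at h4
  rw [jX_comm (c (u n)) (c s)] at h4
  linarith

theorem path_right {c : ℝ → X} (hc : PL c) {s t : ℝ} (hst : s < t)
    (hp : ∀ u, s ≤ u → u < t → 0 < phi (c u)) : jX (c s) (c t) ≤ t - s := by
  have h := path_left hc.neg (s := -t) (t := -s) (by linarith)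
    (fun u h1 h2 => hp (-u) (by linarith) (by linarith))
  simp only [neg_neg] at h
  rw [jX_comm] at h
  linarith

/-- The path lemma. -/
theorem path_jX {c : ℝ → X} (hc : PL c) {s t : ℝ} (hst : s ≤ t) : jX (c s) (c t) ≤ t - s := by
  by_cases hz : ∃ u, s ≤ u ∧ u ≤ t ∧ phi (c u) = 0
  · have hcl : IsClosed {u | phi (c u) = 0} := isClosed_eq hc.phi_cont continuous_const
    have hcomp : IsCompact (Set.Icc s t ∩ {u | phi (c u) = 0}) := isCompact_Icc.inter_right hcl
    have hne : (Set.Icc s t ∩ {u | phi (c u) = 0}).Nonempty := by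
      obtain ⟨u, h1, h2, h3⟩ := hz
      exact ⟨u, ⟨h1, h2⟩, h3⟩
    obtain ⟨a, ⟨ha1, ha2⟩, ha3⟩ := hcomp.exists_isLeast hne
    obtain ⟨b, ⟨hb1, hb2⟩, hb3⟩ := hcomp.exists_isGreatest hne
    have hab : a ≤ b := ha3 ⟨hb1, hb2⟩
    have h1 : jX (c s) (c a) ≤ a - s := by
      rcases eq_or_lt_of_le ha1.1 with h | h
      · rw [← h, jX_self]; linarith
      · apply path_right hc h
        intro u hu1 hu2
        refine lt_of_le_of_ne (phi_nonneg _) fun he => ?_
        have := ha3 ⟨⟨hu1, by linarith [ha1.2]⟩, he.symm⟩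
        linarith
    have h2 : jX (c b) (c t) ≤ t - b := by
      rcases eq_or_lt_of_le hb1.2 with h | h
      · rw [h, jX_self]; linarith
      · apply path_left hc h
        intro u hu1 hu2
        refine lt_of_le_of_ne (phi_nonneg _) fun he => ?_
        have := hb3 ⟨⟨by linarith [hb1.1], hu2⟩, he.symm⟩
        linarith
    have h3 : jX (c a) (c b) ≤ b - a := by
      refine (jX_le_dc_of_phi_zero ha2 hb2).trans ?_
      have := hc a b
      rwa [abs_of_nonpos (by linarith), neg_sub] at this
    have h4 := jX_tri (c s) (c a) (c t)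
    have h5 := jX_tri (c a) (c b) (c t)
    linarith
  · push Not at hz
    exact path_pos hc hst fun u h1 h2 => lt_of_le_of_ne (phi_nonneg _) (Ne.symm (hz u h1 h2))

/-- One-Lipschitz real paths for the metric `jX`. -/
def PJ (c : ℝ → X) : Prop := ∀ s t, s ≤ t → jX (c s) (c t) ≤ t - s

theorem PL.pj {c : ℝ → X} (hc : PL c) : PJ c := fun _ _ h => path_jX hc h

theorem PJ.pl {c : ℝ → X} (hc : PJ c) : PL c := by
  intro s t
  rcases le_total s t with h | h
  · rw [abs_of_nonpos (by linarith)]
    have := dc_le_jX (c s) (c t)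
    have := hc s t h
    linarith
  · rw [abs_of_nonneg (by linarith)]
    have := dc_le_jX (c t) (c s)
    have := hc t s h
    rw [dc_comm]
    linarith

end

end Pool.H67.LC
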