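import Pool.Agent.H67.LC.Ana

set_option autoImplicit false

namespace Pool.H67.LC

open Real

noncomputable section

/-- Codes of points: book points and road points. -/
inductive Pt where
  | bk (k : ℕ) (p w : ℝ) : Pt
  | rd (n : ℕ) (e : ℝ) : Pt

/-- Validity of a code. -/
def Pt.V : Pt → Prop
  | .bk _ p w => 1 ≤ p ∧ p ≤ w ∧ p * (w - p) ≤ 1
  | .rd n e => 0 ≤ e ∧ e ≤ len n

/-- The space. -/
def X : Type := {x : Pt // x.V}

def bk (k : ℕ) (p w : ℝ) (h : 1 ≤ p ∧ p ≤ w ∧ p * (w - p) ≤ 1) : X := ⟨.bk k p w, h⟩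

def rd (n : ℕ) (e : ℝ) (h : 0 ≤ e ∧ e ≤ len n) : X := ⟨.rd n e, h⟩

def Pt.lab : Pt → ℕ
  | .bk k _ _ => k
  | .rd _ _ => 0

def Pt.ht : Pt → ℝ
  | .bk _ p _ => p
  | .rd n e => if n = 0 then 1 else Ti (max tau (ex_t n + bo n + e))

def Pt.wd : Pt → ℝ
  | .bk _ _ w => w
  | .rd n e => wp (Pt.ht (.rd n e))

def Pt.mu : Pt → ℝ
  | .bk _ _ _ => tau
  | .rd n e => if n = 0 then e else min (ex_t n + e) tau

def Pt.Q (m : ℕ) : Pt → ℝ
  | .bk k p _ => TB m k p
  | .rd n e =>
    if n = 0 then max e (ex_t m + bo m - |e - ex_t m|)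
    else if m ≤ n then max (ex_t n + bo m - e) (ex_t n + bo n + e)
    else min (ex_t n + e) (2 * T (bt m) - T (ld n) + (len n - e))

def Pt.g (i : ℕ) : Pt → ℝ
  | .bk _ _ _ => ex_t i
  | .rd n e =>
    if n = 0 then min e (ex_t i)
    else if n = i then ex_t i + min e (len n - e)
    else if n < i then ex_t i
    else max (ex_t n - e) (ex_t i - (len n - e))

/-- Index type of the family of functions. -/
inductive Idx where
  | Q (m : ℕ) : Idx
  | g (i : ℕ) : Idx
  | mu : Idx
  | r : Idx

instance : TopologicalSpace Idx := ⊥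
instance : DiscreteTopology Idx := ⟨rfl⟩

def fam (x : Pt) : Idx → ℝ
  | .Q m => x.Q (m + 1)
  | .g i => x.g (i + 1)
  | .mu => x.mu
  | .r => rr x.ht x.wd

theorem one_le_ht {x : Pt} (h : x.V) : 1 ≤ x.ht := by
  cases x with
  | bk k p w => exact h.1
  | rd n e =>
    unfold Pt.ht
    dsimp only
    split_ifs
    · exact le_rfl
    · exact one_le_Ti (le_max_left _ _)

theorem ht_le_wd {x : Pt} (h : x.V) : x.ht ≤ x.wd := by
  have h1 := one_le_ht h
  cases x with
  | bk k p w => exact h.2.1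
  | rd n e => exact (wp_gt h1).le

theorem wd_le_wp {x : Pt} (h : x.V) : x.wd ≤ wp x.ht := by
  have h1 := one_le_ht h
  cases x with
  | bk k p w =>
    have h2 := h.2.2
    have hp : 0 < p := by have := h.1; linarith
    show w ≤ wp p
    unfold wp
    have : w - p ≤ 1 / p := by rw [le_div_iff₀ hp]; linarith
    linarith
  | rd n e => exact le_rfl

theorem ht_mul {x : Pt} (h : x.V) : x.ht * (x.wd - x.ht) ≤ 1 := by
  have h1 := one_le_ht h
  have h2 := wd_le_wp h
  have h0 : 0 < x.ht := by linarith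
  have h3 : x.wd - x.ht ≤ 1 / x.ht := by unfold wp at h2; linarith
  rw [le_div_iff₀ h0] at h3
  linarith

theorem one_le_wd {x : Pt} (h : x.V) : 1 ≤ x.wd := (one_le_ht h).trans (ht_le_wd h)

theorem wd_pos {x : Pt} (h : x.V) : 0 < x.wd := by linarith [one_le_wd h]

theorem T_nonneg {p : ℝ} : 0 ≤ T p := by
  unfold T
  have : 0 ≤ Real.log (p ^ 2 + 1) := Real.log_nonneg (by nlinarith [sq_nonneg p])
  linarith

theorem T_bt_le (m : ℕ) : T (bt m) ≤ 1 := by
  have h1 := T_sub_le_half (le_refl (1 : ℝ)) (bt_gt m).le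
  have h2 := bt_le m
  have h3 := tau_lt
  unfold tau at h3
  linarith

theorem T_ld_le (m : ℕ) : T (ld m) ≤ 1 := by
  have h1 := T_sub_le_half (le_refl (1 : ℝ)) (ld_gt m).le
  have h2 := ld_le m
  have h3 := tau_lt
  unfold tau at h3
  linarith

theorem bo_le (n : ℕ) : bo n ≤ 1 / 1000 := by unfold bo; linarith [eps_le (n + 1), eps_pos (n + 1)]

theorem ex_t_le' (n : ℕ) : ex_t n ≤ 1 / 1000 := by linarith [ex_t_le n, eps_le n, eps_pos n]

theorem fam_bdd (x : X) : ∃ C, ∀ i, ‖fam x.1 i‖ ≤ C := by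
  obtain ⟨x, hx⟩ := x
  have key : ∃ C, ∀ m, |x.Q m| ≤ C := by
    cases x with
    | bk k p w =>
      refine ⟨3 + |T (sc k p)| + |eT k p|, fun m => ?_⟩
      show |TB m k p| ≤ _
      unfold TB
      have e1 := T_nonneg (p := bt m)
      have e2 := T_bt_le m
      have e3 := eT_nonneg k p
      have e4 := sg_le (m := m) (k := k) e3
      have e5 := neg_le_sg (m := m) (k := k) e3
      have e6 : |T (sc k p) - T (bt m)| ≤ |T (sc k p)| + 1 := by
        refine (abs_sub _ _).trans ?_
        rw [abs_of_nonneg e1]; linarith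
      have e7 := abs_nonneg (T (sc k p) - T (bt m))
      have e8 := le_abs_self (eT k p)
      rw [abs_le]; constructor <;> linarith
    | rd n e =>
      refine ⟨4, fun m => ?_⟩
      have h0 := hx.1
      have h1 := hx.2
      have h2 := len_lt n
      have a1 := ex_t_pos m
      have a2 := ex_t_le' m
      have a3 := bo_pos m
      have a4 := bo_le m
      have b1 := ex_t_pos n
      have b2 := ex_t_le' n
      have b3 := bo_pos n
      have b4 := bo_le n
      have c1 := T_nonneg (p := bt m)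
      have c2 := T_bt_le m
      have c3 := T_nonneg (p := ld n)
      have c4 := T_ld_le n
      have c5 := len_pos n
      simp only [Pt.Q]
      split_ifs
      · have e6 : |e - ex_t m| ≤ 1 := by rw [abs_le]; constructor <;> linarith
        have e7 := abs_nonneg (e - ex_t m)
        rw [abs_le]
        constructor
        · refine le_trans ?_ (le_max_left _ _); linarith
        · apply max_le <;> linarith
      · rw [abs_le]
        constructor
        · refine le_trans ?_ (le_max_left _ _); linarith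
        · apply max_le <;> linarith
      · rw [abs_le]
        constructor
        · apply le_min <;> linarith
        · refine le_trans (min_le_left _ _) ?_; linarith
  have key2 : ∃ C, ∀ m, |x.g m| ≤ C := by
    cases x with
    | bk k p w =>
      refine ⟨1, fun m => ?_⟩
      show |ex_t m| ≤ 1
      rw [abs_of_pos (ex_t_pos m)]
      linarith [ex_t_le' m]
    | rd n e =>
      refine ⟨4, fun m => ?_⟩
      have h0 := hx.1
      have h1 := hx.2
      have h2 := len_lt n
      have a1 := ex_t_pos m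
      have a2 := ex_t_le' m
      have b1 := ex_t_pos n
      have b2 := ex_t_le' n
      have c5 := len_pos n
      simp only [Pt.g]
      split_ifs
      · rw [abs_le]
        constructor
        · apply le_min <;> linarith
        · refine le_trans (min_le_left _ _) ?_; linarith
      · have e1 : 0 ≤ min e (len n - e) := le_min h0 (by linarith)
        have e2 : min e (len n - e) ≤ e := min_le_left _ _
        rw [abs_le]; constructor <;> linarith
      · rw [abs_of_pos a1]; linarith
      · rw [abs_le]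
        constructor
        · refine le_trans ?_ (le_max_left _ _); linarith
        · apply max_le <;> linarith
  obtain ⟨C1, h1⟩ := key
  obtain ⟨C2, h2⟩ := key2
  refine ⟨|C1| + |C2| + |x.mu| + |rr x.ht x.wd|, fun i => ?_⟩
  have p1 := abs_nonneg C1
  have p2 := abs_nonneg C2
  have p3 := abs_nonneg x.mu
  have p4 := abs_nonneg (rr x.ht x.wd)
  cases i with
  | Q m => have := h1 (m + 1); have := le_abs_self C1; simp only [fam, Real.norm_eq_abs]; linarith
  | g m => have := h2 (m + 1); have := le_abs_self C2; simp only [fam, Real.norm_eq_abs]; linarith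
  | mu => simp only [fam, Real.norm_eq_abs]; linarith
  | r => simp only [fam, Real.norm_eq_abs]; linarith

/-- The family as a bounded function. -/
def Phi (x : X) : BoundedContinuousFunction Idx ℝ :=
  BoundedContinuousFunction.ofNormedAddCommGroupDiscrete (fam x.1) (fam_bdd x).choose
    (fam_bdd x).choose_spec

/-- The j-part of the distance. -/
def jj (x y : X) : ℝ :=
  jd (max (D x.1.lab x.1.ht y.1.lab y.1.ht) |x.1.wd - y.1.wd|) x.1.wd y.1.wd

/-- The (non compact) metric. -/
def jX (x y : X) : ℝ := max (jj x y) (dist (Phi x) (Phi y))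

theorem jj_nonneg (x y : X) : 0 ≤ jj x y :=
  jd_nonneg ((abs_nonneg _).trans (le_max_right _ _)) (wd_pos x.2) (wd_pos y.2)

theorem jX_le_iff {x y : X} {C : ℝ} :
    jX x y ≤ C ↔ jj x y ≤ C ∧ ∀ i, |fam x.1 i - fam y.1 i| ≤ C := by
  unfold jX
  rw [max_le_iff]
  constructor
  · rintro ⟨h1, h2⟩
    refine ⟨h1, fun i => ?_⟩
    have h0 := (jj_nonneg x y).trans h1
    rw [BoundedContinuousFunction.dist_le h0] at h2
    exact h2 i
  · rintro ⟨h1, h2⟩
    refine ⟨h1, ?_⟩
    have h0 := (jj_nonneg x y).trans h1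
    rw [BoundedContinuousFunction.dist_le h0]
    exact h2

theorem jX_nonneg (x y : X) : 0 ≤ jX x y := (jj_nonneg x y).trans (le_max_left _ _)

theorem jj_le_jX (x y : X) : jj x y ≤ jX x y := le_max_left _ _

theorem fam_lip (i : Idx) (x y : X) : |fam x.1 i - fam y.1 i| ≤ jX x y :=
  (jX_le_iff.1 le_rfl).2 i

theorem jX_self (x : X) : jX x x = 0 := by
  unfold jX jj
  rw [D_self]
  simp [jd]

theorem jX_comm (x y : X) : jX x y = jX y x := by
  unfold jX jj
  rw [D_comm, jd_comm, abs_sub_comm, dist_comm]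

theorem jX_tri (x y z : X) : jX x z ≤ jX x y + jX y z := by
  unfold jX
  apply max_le
  · have h : jj x z ≤ jj x y + jj y z := by
      unfold jj
      have h1 := D_tri x.1.lab x.1.ht y.1.lab y.1.ht z.1.lab z.1.ht
      have h2 := abs_sub_le x.1.wd y.1.wd z.1.wd
      apply jd_tri (wd_pos x.2) (wd_pos y.2) (wd_pos z.2) (le_max_right _ _) (le_max_right _ _)
      · apply max_le
        · have := le_max_left (D x.1.lab x.1.ht y.1.lab y.1.ht) |x.1.wd - y.1.wd|
          have := le_max_left (D y.1.lab y.1.ht z.1.lab z.1.ht) |y.1.wd - z.1.wd|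
          linarith
        · have := le_max_right (D x.1.lab x.1.ht y.1.lab y.1.ht) |x.1.wd - y.1.wd|
          have := le_max_right (D y.1.lab y.1.ht z.1.lab z.1.ht) |y.1.wd - z.1.wd|
          linarith
      · exact (abs_nonneg _).trans (le_max_right _ _)
    have h2 : jj x y ≤ max (jj x y) (dist (Phi x) (Phi y)) := le_max_left _ _
    have h3 : jj y z ≤ max (jj y z) (dist (Phi y) (Phi z)) := le_max_left _ _
    linarith
  · have h := dist_triangle (Phi x) (Phi y) (Phi z)
    have h2 : dist (Phi x) (Phi y) ≤ max (jj x y) (dist (Phi x) (Phi y)) := le_max_right _ _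
    have h3 : dist (Phi y) (Phi z) ≤ max (jj y z) (dist (Phi y) (Phi z)) := le_max_right _ _
    linarith

/-- General criterion for an upper bound. -/
theorem jX_le_of {x y : X} {C : ℝ} (h1 : jj x y ≤ C) (h2 : |x.1.mu - y.1.mu| ≤ C)
    (h3 : |rr x.1.ht x.1.wd - rr y.1.ht y.1.wd| ≤ C)
    (h4 : ∀ m, m ≠ 0 → |x.1.Q m - y.1.Q m| ≤ C) (h5 : ∀ m, m ≠ 0 → |x.1.g m - y.1.g m| ≤ C) :
    jX x y ≤ C := by
  rw [jX_le_iff]
  refine ⟨h1, fun i => ?_⟩
  cases i with
  | Q m => exact h4 (m + 1) (Nat.succ_ne_zero m)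
  | g m => exact h5 (m + 1) (Nat.succ_ne_zero m)
  | mu => exact h2
  | r => exact h3

theorem mu_lip (x y : X) : |x.1.mu - y.1.mu| ≤ jX x y := fam_lip .mu x y

theorem rr_lip (x y : X) : |rr x.1.ht x.1.wd - rr y.1.ht y.1.wd| ≤ jX x y := fam_lip .r x y

theorem Q_lip {m : ℕ} (hm : m ≠ 0) (x y : X) : |x.1.Q m - y.1.Q m| ≤ jX x y := by
  obtain ⟨m', rfl⟩ := Nat.exists_eq_succ_of_ne_zero hm
  exact fam_lip (.Q m') x y

theorem g_lip {m : ℕ} (hm : m ≠ 0) (x y : X) : |x.1.g m - y.1.g m| ≤ jX x y := by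
  obtain ⟨m', rfl⟩ := Nat.exists_eq_succ_of_ne_zero hm
  exact fam_lip (.g m') x y

/-- Displacement bounds. -/
theorem D_le_of_jX {x y : X} {t : ℝ} (h : jX x y ≤ t) :
    D x.1.lab x.1.ht y.1.lab y.1.ht ≤ min x.1.wd y.1.wd * (Real.exp t - 1) := by
  have h1 := le_of_jd_le ((abs_nonneg _).trans (le_max_right _ _)) (wd_pos x.2) (wd_pos y.2)
    ((jj_le_jX x y).trans h)
  exact (le_max_left _ _).trans h1

theorem wd_le_of_jX {x y : X} {t : ℝ} (h : jX x y ≤ t) :
    |x.1.wd - y.1.wd| ≤ min x.1.wd y.1.wd * (Real.exp t - 1) := by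
  have h1 := le_of_jd_le ((abs_nonneg _).trans (le_max_right _ _)) (wd_pos x.2) (wd_pos y.2)
    ((jj_le_jX x y).trans h)
  exact (le_max_right _ _).trans h1

theorem log_wd_lip (x y : X) : |Real.log x.1.wd - Real.log y.1.wd| ≤ jX x y :=
  (abs_log_sub_le_jd (wd_pos x.2) (wd_pos y.2) (le_max_right _ _)).trans (jj_le_jX x y)

/-- Top edge comparison. -/
theorem top_jd {p q : ℝ} (hp : 1 ≤ p) (hq : 1 ≤ q) :
    jd (max |p - q| |wp p - wp q|) (wp p) (wp q) ≤ |T p - T q| := by
  have key : ∀ p q : ℝ, 1 ≤ p → p ≤ q →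
      jd (max |p - q| |wp p - wp q|) (wp p) (wp q) ≤ |T p - T q| := by
    intro p q hp hpq
    have h1 := wp_mono hp hpq
    have h2 := wp_sub_le hp hpq
    have h3 := T_le_T (show 0 ≤ p by linarith) hpq
    rw [abs_of_nonpos (show p - q ≤ 0 by linarith), abs_of_nonpos (show wp p - wp q ≤ 0 by linarith),
      abs_of_nonpos (show T p - T q ≤ 0 by linarith), max_eq_left (by linarith)]
    unfold jd
    rw [min_eq_left h1]
    have := top_run hp hpq
    rw [show -(p - q) = q - p by ring]
    linarith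
  rcases le_total p q with h | h
  · exact key p q hp h
  · have := key q p hq h
    rw [abs_sub_comm p q, abs_sub_comm (wp p), jd_comm, abs_sub_comm (T p)]
    exact this

theorem top_valid {p : ℝ} (hp : 1 ≤ p) : 1 ≤ p ∧ p ≤ wp p ∧ p * (wp p - p) ≤ 1 := by
  refine ⟨hp, (wp_gt hp).le, ?_⟩
  have hp0 : 0 < p := by linarith
  unfold wp
  have : p * (p + 1 / p - p) = 1 := by field_simp; ring
  linarith

end

end Pool.H67.LC
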