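import Pool.Agent.H67.LC.Path

set_option autoImplicit false

namespace Pool.H67.LC

open Real Filter Topology
open scoped NNReal

noncomputable section

/-- The compact metric space. -/
abbrev MQ : Type := SeparationQuotient X

def mk (x : X) : MQ := SeparationQuotient.mk x

instance instCompactMQ : CompactSpace MQ := by
  constructor
  have h := (isCompact_univ (X := X)).image (SeparationQuotient.continuous_mk (X := X))
  rwa [Set.image_univ, SeparationQuotient.surjective_mk.range_eq] at h

def out (z : MQ) : X := (SeparationQuotient.surjective_mk z).choose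

theorem mk_out (z : MQ) : mk (out z) = z := (SeparationQuotient.surjective_mk z).choose_spec

theorem dist_mk (x y : X) : dist (mk x) (mk y) = dc x y := SeparationQuotient.dist_mk x y

theorem dc_out (z z' : MQ) : dc (out z) (out z') = dist z z' := by
  rw [← dist_mk, mk_out, mk_out]

theorem mk_eq_iff {x y : X} : mk x = mk y ↔ jX x y = 0 := by
  rw [← dist_eq_zero, dist_mk]
  constructor
  · exact jX_eq_zero_of_dc
  · intro h
    have := dc_le_jX x y
    have := dc_nonneg x y
    linarith

theorem jX_out_mk (x : X) : jX (out (mk x)) x = 0 := mk_eq_iff.1 (mk_out _)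

/-- Lipschitz on the positive half line. -/
def PH (c : ℝ → X) : Prop := ∀ s t, 0 ≤ s → s ≤ t → jX (c s) (c t) ≤ t - s

def up (l : ℝ≥0 → MQ) (t : ℝ) : X := out (l t.toNNReal)

theorem up_pl {l : ℝ≥0 → MQ} (hl : LipschitzWith 1 l) : PL (up l) := by
  intro s t
  unfold up
  rw [dc_out]
  have h := hl.dist_le_mul s.toNNReal t.toNNReal
  rw [NNReal.coe_one, one_mul, NNReal.dist_eq] at h
  refine h.trans ?_
  rw [Real.coe_toNNReal', Real.coe_toNNReal']
  have := abs_max_sub_max_le_max s 0 t 0
  rw [sub_self, abs_zero] at this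
  exact this.trans (max_le le_rfl (abs_nonneg _))

theorem up_ph {l : ℝ≥0 → MQ} (hl : LipschitzWith 1 l) : PH (up l) :=
  fun _ _ _ h => path_jX (up_pl hl) h

def dn (c : ℝ → X) (t : ℝ≥0) : MQ := mk (c t)

theorem dn_lip {c : ℝ → X} (hc : PH c) : LipschitzWith 1 (dn c) := by
  apply LipschitzWith.of_dist_le_mul
  intro s t
  unfold dn
  rw [dist_mk, NNReal.coe_one, one_mul, NNReal.dist_eq]
  rcases le_total s t with h | h
  · have h' : (s : ℝ) ≤ t := h
    have h1 := hc s t s.2 h'
    have h2 := dc_le_jX (c s) (c t)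
    rw [abs_of_nonpos (by linarith)]
    linarith
  · have h' : (t : ℝ) ≤ s := h
    have h1 := hc t s t.2 h'
    have h2 := dc_le_jX (c t) (c s)
    rw [abs_of_nonneg (by linarith), dc_comm]
    linarith

theorem dn_apply (c : ℝ → X) (t : ℝ≥0) : dn c t = mk (c t) := rfl

/-- lane path -/
def lane (m : ℕ) (t : ℝ) : X :=
  bk m (Real.exp (max t 0)) (Real.exp (max t 0)) (lane_valid (le_max_right _ _))

theorem lane_ph (m : ℕ) : PH (lane m) := by
  intro s t hs hst
  have h := jX_lane (k := m) (le_max_right s 0) (le_max_right t 0)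
  refine h.trans ?_
  rw [max_eq_left hs, max_eq_left (hs.trans hst), abs_of_nonpos (by linarith)]
  linarith

end

end Pool.H67.LC
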