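import Pool.Agent.H67.LC.Basic

set_option autoImplicit false

namespace Pool.H67.LC

open Real

noncomputable section

/-- The hedgehog distance. -/
def hg (k : ℕ) (e : ℝ) (l : ℕ) (f : ℝ) : ℝ := if k = l then |e - f| else e + f

theorem hg_self (k : ℕ) (e : ℝ) : hg k e k e = 0 := by simp [hg]

theorem hg_comm (k : ℕ) (e : ℝ) (l : ℕ) (f : ℝ) : hg k e l f = hg l f k e := by
  unfold hg
  by_cases h : k = l
  · simp [h, abs_sub_comm]
  · have h' : ¬ l = k := fun e => h e.symm
    simp [h, h', add_comm]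

theorem hg_nonneg {k : ℕ} {e : ℝ} {l : ℕ} {f : ℝ} (he : 0 ≤ e) (hf : 0 ≤ f) :
    0 ≤ hg k e l f := by
  unfold hg
  split_ifs
  · positivity
  · linarith

theorem abs_sub_le_hg {k : ℕ} {e : ℝ} {l : ℕ} {f : ℝ} (he : 0 ≤ e) (hf : 0 ≤ f) :
    |e - f| ≤ hg k e l f := by
  unfold hg
  split_ifs
  · exact le_rfl
  · rw [abs_le]; constructor <;> linarith

theorem hg_tri {k l m : ℕ} {e f g : ℝ} (he : 0 ≤ e) (hf : 0 ≤ f) (hg' : 0 ≤ g) :
    hg k e m g ≤ hg k e l f + hg l f m g := by
  unfold hg
  have a1 := abs_le.1 (le_refl |e - f|)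
  have a2 := abs_le.1 (le_refl |f - g|)
  by_cases h1 : k = l
  · by_cases h2 : l = m
    · have h3 : k = m := h1.trans h2
      simp only [h1, h2, if_true]
      exact abs_sub_le _ _ _
    · have h3 : ¬ k = m := by rw [h1]; exact h2
      simp only [h1, h2, if_true, if_false]
      linarith [a1.1, a1.2]
  · by_cases h2 : l = m
    · have h3 : ¬ k = m := by rw [← h2]; exact h1
      rw [if_neg h3, if_neg h1, if_pos h2]
      linarith [a2.1, a2.2]
    · by_cases h3 : k = m
      · rw [if_pos h3, if_neg h1, if_neg h2, abs_le]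
        constructor <;> linarith
      · rw [if_neg h3, if_neg h1, if_neg h2]
        linarith

/-- Signed excess. -/
def sg (m k : ℕ) (e : ℝ) : ℝ := if k = m then e else -e

theorem abs_sg_sub_le {m k l : ℕ} {e f : ℝ} (he : 0 ≤ e) (hf : 0 ≤ f) :
    |sg m k e - sg m l f| ≤ hg k e l f := by
  unfold sg hg
  by_cases h1 : k = m
  · by_cases h2 : l = m
    · have h3 : k = l := h1.trans h2.symm
      simp [h2, h3]
    · have h3 : ¬ k = l := by rw [h1]; exact fun h => h2 h.symm
      rw [if_pos h1, if_neg h2, if_neg h3, abs_le]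
      constructor <;> linarith
  · by_cases h2 : l = m
    · have h3 : ¬ k = l := by rw [h2]; exact h1
      rw [if_neg h1, if_pos h2, if_neg h3, abs_le]
      constructor <;> linarith
    · by_cases h3 : k = l
      · rw [if_neg h1, if_neg h2, if_pos h3, abs_sub_comm]
        rw [show -f - -e = e - f by ring]
      · rw [if_neg h1, if_neg h2, if_neg h3, abs_le]
        constructor <;> linarith

theorem sg_le {m k : ℕ} {e : ℝ} (he : 0 ≤ e) : sg m k e ≤ e := by
  unfold sg; split_ifs <;> linarith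

theorem neg_le_sg {m k : ℕ} {e : ℝ} (he : 0 ≤ e) : -e ≤ sg m k e := by
  unfold sg; split_ifs <;> linarith

/-- Spine coordinate. -/
def sc (k : ℕ) (p : ℝ) : ℝ := if k = 0 then p else min p (bt k)

/-- Excess coordinate. -/
def ec (k : ℕ) (p : ℝ) : ℝ := if k = 0 then 0 else max (p - bt k) 0

theorem sc_add_ec (k : ℕ) (p : ℝ) : sc k p + ec k p = p := by
  unfold sc ec
  split_ifs
  · ring
  · rcases le_total p (bt k) with h | h
    · rw [min_eq_left h, max_eq_right (by linarith)]; ring
    · rw [min_eq_right h, max_eq_left (by linarith)]; ring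

theorem ec_nonneg (k : ℕ) (p : ℝ) : 0 ≤ ec k p := by
  unfold ec; split_ifs
  · exact le_rfl
  · exact le_max_right _ _

theorem sc_le (k : ℕ) (p : ℝ) : sc k p ≤ p := by
  have := sc_add_ec k p
  have := ec_nonneg k p
  linarith

theorem one_le_sc {k : ℕ} {p : ℝ} (hp : 1 ≤ p) : 1 ≤ sc k p := by
  unfold sc; split_ifs
  · exact hp
  · exact le_min hp (bt_gt k).le

@[simp] theorem sc_zero (p : ℝ) : sc 0 p = p := by simp [sc]
@[simp] theorem ec_zero (p : ℝ) : ec 0 p = 0 := by simp [ec]

theorem sc_of_le {k : ℕ} {p : ℝ} (h : p ≤ bt k) : sc k p = p := by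
  unfold sc; split_ifs
  · rfl
  · exact min_eq_left h

theorem ec_of_le {k : ℕ} {p : ℝ} (h : p ≤ bt k) : ec k p = 0 := by
  unfold ec; split_ifs
  · rfl
  · exact max_eq_right (by linarith)

theorem sc_of_ge {k : ℕ} {p : ℝ} (hk : k ≠ 0) (h : bt k ≤ p) : sc k p = bt k := by
  unfold sc; rw [if_neg hk]; exact min_eq_right h

theorem ec_of_ge {k : ℕ} {p : ℝ} (hk : k ≠ 0) (h : bt k ≤ p) : ec k p = p - bt k := by
  unfold ec; rw [if_neg hk]; exact max_eq_left (by linarith)

theorem ec_pos_iff {k : ℕ} {p : ℝ} : 0 < ec k p ↔ k ≠ 0 ∧ bt k < p := by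
  unfold ec
  split_ifs with h
  · simp [h]
  · constructor
    · intro h2
      refine ⟨h, ?_⟩
      by_contra h3
      push Not at h3
      rw [max_eq_right (by linarith)] at h2
      exact lt_irrefl _ h2
    · rintro ⟨_, h2⟩
      rw [max_eq_left (by linarith)]
      linarith

/-- Tree distance. -/
def D (k : ℕ) (p : ℝ) (l : ℕ) (q : ℝ) : ℝ :=
  |sc k p - sc l q| + hg k (ec k p) l (ec l q)

theorem D_comm (k : ℕ) (p : ℝ) (l : ℕ) (q : ℝ) : D k p l q = D l q k p := by
  unfold D; rw [abs_sub_comm, hg_comm]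

theorem D_self (k : ℕ) (p : ℝ) : D k p k p = 0 := by unfold D; simp [hg_self]

theorem D_nonneg (k : ℕ) (p : ℝ) (l : ℕ) (q : ℝ) : 0 ≤ D k p l q := by
  unfold D
  have := hg_nonneg (k := k) (l := l) (ec_nonneg k p) (ec_nonneg l q)
  positivity

theorem D_tri (k : ℕ) (p : ℝ) (l : ℕ) (q : ℝ) (m : ℕ) (r : ℝ) :
    D k p m r ≤ D k p l q + D l q m r := by
  unfold D
  have h1 := abs_sub_le (sc k p) (sc l q) (sc m r)
  have h2 := hg_tri (k := k) (l := l) (m := m) (ec_nonneg k p) (ec_nonneg l q) (ec_nonneg m r)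
  linarith

theorem abs_sub_le_D (k : ℕ) (p : ℝ) (l : ℕ) (q : ℝ) : |p - q| ≤ D k p l q := by
  unfold D
  have h2 := abs_sub_le_hg (k := k) (l := l) (ec_nonneg k p) (ec_nonneg l q)
  have h3 := sc_add_ec k p
  have h4 := sc_add_ec l q
  have h5 : p - q = (sc k p - sc l q) + (ec k p - ec l q) := by linarith
  rw [h5]
  exact (abs_add_le _ _).trans (by linarith)

theorem D_same (k : ℕ) (p q : ℝ) : D k p k q = |p - q| := by
  unfold D hg
  rw [if_pos rfl]
  by_cases hk : k = 0
  · simp [hk]
  · rcases le_total p (bt k) with h1 | h1 <;> rcases le_total q (bt k) with h2 | h2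
    · rw [sc_of_le h1, sc_of_le h2, ec_of_le h1, ec_of_le h2]; simp
    · rw [sc_of_le h1, sc_of_ge hk h2, ec_of_le h1, ec_of_ge hk h2]
      rw [abs_of_nonpos (by linarith), abs_of_nonpos (by linarith), abs_of_nonpos (by linarith)]
      ring
    · rw [sc_of_ge hk h1, sc_of_le h2, ec_of_ge hk h1, ec_of_le h2]
      rw [abs_of_nonneg (by linarith), abs_of_nonneg (by linarith), abs_of_nonneg (by linarith)]
      ring
    · rw [sc_of_ge hk h1, sc_of_ge hk h2, ec_of_ge hk h1, ec_of_ge hk h2]
      simp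

/-- Points below the branching height can be represented on the spine. -/
theorem D_spine {k : ℕ} {p : ℝ} (h : p ≤ bt k) : D k p 0 p = 0 := by
  unfold D hg
  rw [sc_of_le h, ec_of_le h]
  simp

/-- Busemann heights. -/
def B (m k : ℕ) (p : ℝ) : ℝ :=
  if m = 0 then sc k p - ec k p else bt m - |sc k p - bt m| + sg m k (ec k p)

theorem B_lip (m k : ℕ) (p : ℝ) (l : ℕ) (q : ℝ) : |B m k p - B m l q| ≤ D k p l q := by
  unfold B D
  have h2 := abs_sub_le_hg (k := k) (l := l) (ec_nonneg k p) (ec_nonneg l q)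
  split_ifs with hm
  · have h5 : sc k p - ec k p - (sc l q - ec l q) = (sc k p - sc l q) + -(ec k p - ec l q) := by
      ring
    rw [h5]
    refine (abs_add_le _ _).trans ?_
    rw [abs_neg]
    linarith
  · have h3 := abs_sg_sub_le (m := m) (k := k) (l := l) (ec_nonneg k p) (ec_nonneg l q)
    have h5 : bt m - |sc k p - bt m| + sg m k (ec k p) - (bt m - |sc l q - bt m| + sg m l (ec l q))
        = (|sc l q - bt m| - |sc k p - bt m|) + (sg m k (ec k p) - sg m l (ec l q)) := by ring
    rw [h5]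
    refine (abs_add_le _ _).trans ?_
    have h6 := abs_abs_sub_abs_le_abs_sub (sc l q - bt m) (sc k p - bt m)
    have h7 : sc l q - bt m - (sc k p - bt m) = -(sc k p - sc l q) := by ring
    rw [h7, abs_neg] at h6
    linarith

theorem B_le (m k : ℕ) (p : ℝ) : B m k p ≤ p := by
  unfold B
  have h1 := sc_add_ec k p
  have h2 := ec_nonneg k p
  split_ifs with hm
  · linarith
  · have h3 := sg_le (m := m) (k := k) h2
    have h4 := abs_le.1 (le_refl |sc k p - bt m|)
    linarith [h4.1, h4.2]

theorem B_self (k : ℕ) (p : ℝ) : B k k p = p := by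
  unfold B
  split_ifs with hk
  · subst hk; simp
  · unfold sg
    rw [if_pos rfl]
    rcases le_total p (bt k) with h | h
    · rw [sc_of_le h, ec_of_le h, abs_of_nonpos (by linarith)]; ring
    · rw [sc_of_ge hk h, ec_of_ge hk h]; simp

theorem le_B {m k : ℕ} {p : ℝ} (hp : 1 ≤ p) : 2 - p ≤ B m k p := by
  unfold B
  have h1 := sc_add_ec k p
  have h2 := ec_nonneg k p
  have h5 := one_le_sc (k := k) hp
  split_ifs with hm
  · linarith
  · have h3 := neg_le_sg (m := m) (k := k) h2
    have h6 := bt_gt m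
    rcases abs_cases (sc k p - bt m) with h7 | h7 <;> linarith [h7.1]

/-- Excess in time units. -/
def eT (k : ℕ) (p : ℝ) : ℝ := if k = 0 then 0 else max (T p - T (bt k)) 0

theorem eT_nonneg (k : ℕ) (p : ℝ) : 0 ≤ eT k p := by
  unfold eT; split_ifs
  · exact le_rfl
  · exact le_max_right _ _

@[simp] theorem eT_zero (p : ℝ) : eT 0 p = 0 := by simp [eT]

theorem eT_of_le {k : ℕ} {p : ℝ} (hp : 0 ≤ p) (h : p ≤ bt k) : eT k p = 0 := by
  unfold eT; split_ifs
  · rfl
  · exact max_eq_right (by linarith [T_le_T hp h])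

theorem eT_of_ge {k : ℕ} {p : ℝ} (hk : k ≠ 0) (h : bt k ≤ p) : eT k p = T p - T (bt k) := by
  unfold eT; rw [if_neg hk]
  exact max_eq_left (by linarith [T_le_T (by linarith [bt_gt k]) h])

/-- Tree distance in time units. -/
def DT (k : ℕ) (p : ℝ) (l : ℕ) (q : ℝ) : ℝ :=
  |T (sc k p) - T (sc l q)| + hg k (eT k p) l (eT l q)

theorem DT_nonneg (k : ℕ) (p : ℝ) (l : ℕ) (q : ℝ) : 0 ≤ DT k p l q := by
  unfold DT
  have := hg_nonneg (k := k) (l := l) (eT_nonneg k p) (eT_nonneg l q)
  positivity

theorem DT_same {k : ℕ} {p q : ℝ} (hp : 0 ≤ p) (hq : 0 ≤ q) : DT k p k q = |T p - T q| := by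
  unfold DT hg
  rw [if_pos rfl]
  by_cases hk : k = 0
  · simp [hk]
  · have hb : 0 ≤ bt k := by linarith [bt_gt k]
    rcases le_total p (bt k) with h1 | h1 <;> rcases le_total q (bt k) with h2 | h2
    · rw [sc_of_le h1, sc_of_le h2, eT_of_le hp h1, eT_of_le hq h2]; simp
    · have a1 := T_le_T hp h1
      have a2 := T_le_T hb h2
      rw [sc_of_le h1, sc_of_ge hk h2, eT_of_le hp h1, eT_of_ge hk h2]
      rw [abs_of_nonpos (by linarith), abs_of_nonpos (by linarith), abs_of_nonpos (by linarith)]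
      ring
    · have a1 := T_le_T hq h2
      have a2 := T_le_T hb h1
      rw [sc_of_ge hk h1, sc_of_le h2, eT_of_ge hk h1, eT_of_le hq h2]
      rw [abs_of_nonneg (by linarith), abs_of_nonneg (by linarith), abs_of_nonneg (by linarith)]
      ring
    · rw [sc_of_ge hk h1, sc_of_ge hk h2, eT_of_ge hk h1, eT_of_ge hk h2]
      simp

/-- Busemann functions in time units (for `m ≥ 1`). -/
def TB (m k : ℕ) (p : ℝ) : ℝ := T (bt m) - |T (sc k p) - T (bt m)| + sg m k (eT k p)

theorem TB_lip (m k : ℕ) (p : ℝ) (l : ℕ) (q : ℝ) : |TB m k p - TB m l q| ≤ DT k p l q := by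
  unfold TB DT
  have h3 := abs_sg_sub_le (m := m) (k := k) (l := l) (eT_nonneg k p) (eT_nonneg l q)
  have h5 : T (bt m) - |T (sc k p) - T (bt m)| + sg m k (eT k p)
      - (T (bt m) - |T (sc l q) - T (bt m)| + sg m l (eT l q))
      = (|T (sc l q) - T (bt m)| - |T (sc k p) - T (bt m)|)
        + (sg m k (eT k p) - sg m l (eT l q)) := by ring
  rw [h5]
  refine (abs_add_le _ _).trans ?_
  have h6 := abs_abs_sub_abs_le_abs_sub (T (sc l q) - T (bt m)) (T (sc k p) - T (bt m))
  have h7 : T (sc l q) - T (bt m) - (T (sc k p) - T (bt m)) = -(T (sc k p) - T (sc l q)) := by ring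
  rw [h7, abs_neg] at h6
  linarith

theorem TB_self {m : ℕ} (hm : m ≠ 0) {p : ℝ} (hp : 0 ≤ p) : TB m m p = T p := by
  unfold TB sg
  rw [if_pos rfl]
  rcases le_total p (bt m) with h | h
  · have := T_le_T hp h
    rw [sc_of_le h, eT_of_le hp h, abs_of_nonpos (by linarith)]; ring
  · rw [sc_of_ge hm h, eT_of_ge hm h]; simp

/-- Comparison of the two tree distances. -/
theorem DT_le {k : ℕ} {p : ℝ} {l : ℕ} {q : ℝ} (hp : 1 ≤ p) (hq : 1 ≤ q) {g : ℝ} (hg1 : 1 ≤ g)
    (hg2 : g ≤ 1 ∨ g ≤ p - D k p l q) : DT k p l q ≤ D k p l q / wp g := by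
  have hwg : 0 < wp g := by linarith [two_le_wp hg1]
  -- key bound for pairs of heights
  have key : ∀ x y : ℝ, g ≤ x → g ≤ y → |T x - T y| ≤ |x - y| / wp g := by
    intro x y hx hy
    rcases le_total x y with h | h
    · have h1 := T_sub_le (hg1.trans hx) h
      have h2 : (y - x) / wp x ≤ (y - x) / wp g :=
        div_le_div_of_nonneg_left (by linarith) hwg (wp_mono hg1 hx)
      rw [abs_of_nonpos (by linarith [T_le_T (by linarith : (0:ℝ) ≤ x) h]),
        abs_of_nonpos (by linarith)]
      rw [show -(x - y) = y - x by ring]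
      linarith
    · have h1 := T_sub_le (hg1.trans hy) h
      have h2 : (x - y) / wp y ≤ (x - y) / wp g :=
        div_le_div_of_nonneg_left (by linarith) hwg (wp_mono hg1 hy)
      rw [abs_of_nonneg (by linarith [T_le_T (by linarith : (0:ℝ) ≤ y) h]),
        abs_of_nonneg (by linarith)]
      linarith
  by_cases hkl : k = l
  · subst hkl
    rw [DT_same (by linarith) (by linarith), D_same]
    apply key
    · rcases hg2 with h | h
      · linarith
      · have := abs_nonneg (p - q)
        rw [D_same] at h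
        linarith
    · rcases hg2 with h | h
      · linarith
      · rw [D_same] at h
        have := abs_le.1 (le_refl |p - q|)
        linarith [this.1, this.2]
  · have hD : D k p l q = |sc k p - sc l q| + (ec k p + ec l q) := by
      unfold D hg; rw [if_neg hkl]
    have hDT : DT k p l q = |T (sc k p) - T (sc l q)| + (eT k p + eT l q) := by
      unfold DT hg; rw [if_neg hkl]
    have e1 := ec_nonneg k p
    have e2 := ec_nonneg l q
    have s1 := sc_add_ec k p
    have s2 := one_le_sc (k := k) hp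
    have s3 := one_le_sc (k := l) hq
    have gs : g ≤ sc k p := by
      rcases hg2 with h | h
      · linarith
      · rw [hD] at h
        have := abs_nonneg (sc k p - sc l q)
        linarith
    have gs' : g ≤ sc l q := by
      rcases hg2 with h | h
      · linarith
      · rw [hD] at h
        have := abs_le.1 (le_refl |sc k p - sc l q|)
        linarith [this.1, this.2]
    have exc : ∀ (i : ℕ) (x : ℝ), 1 ≤ x → g ≤ sc i x → eT i x ≤ ec i x / wp g := by
      intro i x hx hgx
      rcases (ec_nonneg i x).eq_or_lt with h | h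
      · have h2 : ¬ (i ≠ 0 ∧ bt i < x) := fun hh => by
          have := ec_pos_iff.2 hh
          rw [← h] at this
          exact lt_irrefl _ this
        have h3 : eT i x = 0 := by
          by_cases hi : i = 0
          · subst hi; simp
          · have : x ≤ bt i := by
              by_contra hc
              exact h2 ⟨hi, not_le.1 hc⟩
            exact eT_of_le (by linarith) this
        rw [h3, ← h]; simp
      · obtain ⟨hi, hb⟩ := ec_pos_iff.1 h
        rw [sc_of_ge hi hb.le] at hgx
        rw [eT_of_ge hi hb.le, ec_of_ge hi hb.le]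
        have h4 := key x (bt i) (by linarith) hgx
        rw [abs_of_nonneg (by linarith [T_le_T (by linarith : (0:ℝ) ≤ bt i) hb.le]),
          abs_of_nonneg (by linarith)] at h4
        exact h4
    rw [hD, hDT, add_div, add_div]
    have a1 := key _ _ gs gs'
    have a2 := exc k p hp gs
    have a3 := exc l q hq gs'
    linarith

end

end Pool.H67.LC
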